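import Pool.Agent.helper76.Centers

/-! Transferring spread to smaller scales. -/

namespace Pool.Agent.helper76

open Finset

lemma chain_step (f : ℕ → ℝ) (hf : IsAdd f) (hd : SmallDesc f) (ρ : ℝ) (hρ : 0 < ρ) :
    ∃ M₀ : ℕ, ∀ M : ℕ, M₀ ≤ M → ∀ α s : ℝ, Spread f M α s →
      ∃ M' : ℕ, 1 ≤ M' ∧ Spread f M' (α - ρ) s ∧ (1/2) * Real.log M ≤ Real.log M' ∧
        Real.log M' ≤ (5/6) * Real.log M := by
  classical
  obtain ⟨z₀, hz₀, hsel⟩ := window_select
  obtain ⟨K, N₀, hK, hD⟩ := propD0 f hf hd (ρ^2 / 200) (by positivity)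
  obtain ⟨M₀, hM₀⟩ := exists_nat_gt (Real.exp (6 * (K + z₀ + 100)) + N₀)
  refine ⟨M₀, ?_⟩
  intro M hM α s hspread
  have hMr : (M₀:ℝ) ≤ M := by exact_mod_cast hM
  have hN₀M : N₀ ≤ M := by
    have h1 := Real.exp_pos (6 * (K + z₀ + 100))
    have : (N₀:ℝ) ≤ M := by linarith
    exact_mod_cast this
  have hKr : (1:ℝ) ≤ K := by exact_mod_cast hK
  have hMpos : (0:ℝ) < M := by
    have h1 := Real.exp_pos (6 * (K + z₀ + 100))
    have h2 : (0:ℝ) ≤ N₀ := Nat.cast_nonneg _
    linarith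
  set V := Real.log M with hV
  have hVbig : 6 * (K + z₀ + 100) ≤ V := by
    rw [hV, Real.le_log_iff_exp_le hMpos]
    have h2 : (0:ℝ) ≤ N₀ := Nat.cast_nonneg _
    linarith
  have hexpV : Real.exp V = M := Real.exp_log hMpos
  have hlog2 : 0.69 < Real.log 2 := by have := Real.log_two_gt_d9; linarith
  have hlog2' : Real.log 2 < 0.7 := by have := Real.log_two_lt_d9; linarith
  have hlog4 : Real.log 4 = 2 * Real.log 2 := by
    rw [show (4:ℝ) = 2^2 by norm_num, Real.log_pow]; norm_num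
  have hl4 : 0 < Real.log 4 := by linarith
  set z := Real.exp (V / 6) with hz
  set J := ⌊(V / 6) / Real.log 4⌋₊ with hJ
  have hz0 : 0 < z := Real.exp_pos _
  have hJle : (J:ℝ) * Real.log 4 ≤ V / 6 := by
    have := Nat.floor_le (by positivity : 0 ≤ (V / 6) / Real.log 4)
    rw [le_div_iff₀ hl4] at this
    exact this
  have hJge : V / 6 - Real.log 4 ≤ (J:ℝ) * Real.log 4 := by
    have := Nat.lt_floor_add_one ((V / 6) / Real.log 4)
    rw [div_lt_iff₀ hl4, add_mul, one_mul] at this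
    linarith
  have hlogz4J : Real.log (z * 4^J) = V / 6 + J * Real.log 4 := by
    rw [Real.log_mul hz0.ne' (by positivity), Real.log_pow, hz, Real.log_exp]
  have hz4J : z * 4^J ≤ Real.exp (V / 3) := by
    rw [← Real.log_le_iff_le_exp (by positivity), hlogz4J]
    linarith
  have hzz : K + z₀ + 100 ≤ z := by
    rw [hz]
    have := Real.add_one_le_exp (V / 6)
    linarith
  obtain ⟨t, ht1, ht2⟩ := hspread
  -- bad primes
  set U := (Ioc 0 M).filter (fun p => p.Prime ∧ K ≤ p ∧ p^3 ≤ M) with hU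
  set ψ₁ : ℝ → ℝ := fun x => if t < x then 1 else 0 with hψ₁
  set ψ₂ : ℝ → ℝ := fun x => if t + s ≤ x then 1 else 0 with hψ₂
  set dev : (ℝ → ℝ) → ℕ → ℝ := fun ψ p => E (M / p) (fun m => ψ (f m + f p)) - E M (fun n => ψ (f n)) with hdev
  have hmass : ∀ ψ : ℝ → ℝ, (∀ x, |ψ x| ≤ 1) → Monotone ψ →
      ∑ p ∈ U.filter (fun p => ρ < |dev ψ p|), 1 / (p:ℝ) ≤ 1/200 := by
    intro ψ h1 h2
    have h3 := hD M hN₀M ψ h1 h2 (U.filter (fun p => ρ < |dev ψ p|)) (by
      intro p hp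
      rw [mem_filter, hU, mem_filter] at hp
      exact hp.1.2)
    have h4 : ∑ p ∈ U.filter (fun p => ρ < |dev ψ p|), ρ^2 * (1 / (p:ℝ)) ≤ ρ^2 / 200 := by
      refine le_trans (sum_le_sum ?_) h3
      intro p hp
      rw [mem_filter] at hp
      have h5 : ρ^2 ≤ (dev ψ p)^2 := by
        rw [← sq_abs (dev ψ p)]
        have := hp.2.le
        gcongr
      calc ρ^2 * (1 / (p:ℝ)) = ρ^2 / p := by ring
        _ ≤ (dev ψ p)^2 / p := by gcongr
    rw [← mul_sum] at h4
    have h5 : (0:ℝ) < ρ^2 := by positivity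
    have h6 : ρ^2 * (∑ p ∈ U.filter (fun p => ρ < |dev ψ p|), 1 / (p:ℝ)) ≤ ρ^2 * (1/200) := by linarith
    exact le_of_mul_le_mul_left h6 h5
  have hm1 := hmass ψ₁ (fun x => by simp only [hψ₁]; split_ifs <;> norm_num) (mono_gt _)
  have hm2 := hmass ψ₂ (fun x => by simp only [hψ₂]; split_ifs <;> norm_num) (mono_ge _)
  set B := U.filter (fun p => ρ < |dev ψ₁ p|) ∪ U.filter (fun p => ρ < |dev ψ₂ p|) with hB
  have hmB : ∑ p ∈ B, 1 / (p:ℝ) ≤ 1/100 := by
    have h1 : ∑ p ∈ B, 1 / (p:ℝ) ≤ ∑ p ∈ U.filter (fun p => ρ < |dev ψ₁ p|), 1 / (p:ℝ) +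
        ∑ p ∈ U.filter (fun p => ρ < |dev ψ₂ p|), 1 / (p:ℝ) := by
      rw [← sum_union_inter]
      have : 0 ≤ ∑ p ∈ U.filter (fun p => ρ < |dev ψ₁ p|) ∩ U.filter (fun p => ρ < |dev ψ₂ p|), 1 / (p:ℝ) :=
        sum_nonneg fun _ _ => by positivity
      linarith
    linarith
  have hVpos : 0 < V := by linarith
  have htotal : (1:ℝ)/100 < J * ((1/8) / Real.log (z * 4^J)) := by
    have h1 : Real.log (z * 4^J) ≤ V / 3 := by rw [hlogz4J]; linarith
    have h2 : 0 < Real.log (z * 4^J) := by rw [hlogz4J]; positivity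
    have h3 : V / 10 ≤ J * Real.log 4 := by linarith
    have h4 : V / 14 ≤ J := by
      have : (J:ℝ) * Real.log 4 ≤ J * 1.4 := by
        apply mul_le_mul_of_nonneg_left _ (Nat.cast_nonneg _)
        linarith
      linarith
    have h5 : (1/8) / (V/3) ≤ (1/8) / Real.log (z * 4^J) := by
      apply div_le_div_of_nonneg_left (by norm_num) h2 h1
    calc (1:ℝ)/100 < V / 14 * ((1/8) / (V/3)) := by
          have : V / 14 * ((1/8) / (V/3)) = 3/112 := by field_simp; norm_num
          rw [this]; norm_num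
      _ ≤ J * ((1/8) / Real.log (z * 4^J)) := by gcongr
  obtain ⟨j, hj, p, _, hp, _, hpB, _, hzp, hpz, _, _⟩ := hsel z 1 J le_rfl (by rw [div_one]; linarith) B ∅ (by
    rw [sum_empty, add_zero]; linarith)
  have hp0 : (0:ℝ) < p := by exact_mod_cast hp.pos
  have hzp' : z < p := by
    have : (1:ℝ) ≤ 4^j := one_le_pow₀ (by norm_num)
    nlinarith
  have hpV3 : (p:ℝ) ≤ Real.exp (V / 3) := by
    refine hpz.trans (le_trans ?_ hz4J)
    have : (4:ℝ)^(j+1) ≤ 4^J := pow_le_pow_right₀ (by norm_num) (by omega)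
    gcongr
  have hKp : K ≤ p := by
    have : (K:ℝ) ≤ p := by linarith
    exact_mod_cast this
  have hp3 : p^3 ≤ M := by
    have h1 : (p:ℝ)^3 ≤ M := by
      calc (p:ℝ)^3 ≤ (Real.exp (V / 3))^3 := by gcongr
        _ = Real.exp (3 * (V / 3)) := by rw [← Real.exp_nat_mul]; norm_num
        _ = M := by rw [show 3 * (V / 3) = V by ring, hexpV]
    exact_mod_cast h1
  have hpM : p ≤ M := by
    refine le_trans ?_ hp3
    exact Nat.le_self_pow (by norm_num) p
  have hpU : p ∈ U := by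
    rw [hU, mem_filter, mem_Ioc]
    exact ⟨⟨hp.pos, hpM⟩, hp, hKp, hp3⟩
  have hd1 : |dev ψ₁ p| ≤ ρ := by
    by_contra hcon
    exact hpB (mem_union_left _ (mem_filter.mpr ⟨hpU, not_le.mp hcon⟩))
  have hd2 : |dev ψ₂ p| ≤ ρ := by
    by_contra hcon
    exact hpB (mem_union_right _ (mem_filter.mpr ⟨hpU, not_le.mp hcon⟩))
  have hM'1 : 1 ≤ M / p := by
    rw [Nat.le_div_iff_mul_le hp.pos]; omega
  have hM1 : 1 ≤ M := le_trans hp.pos hpM
  refine ⟨M / p, hM'1, ⟨t - f p, ?_, ?_⟩, ?_, ?_⟩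
  · have e1 : E (M / p) (fun n => if f n ≤ t - f p then (1:ℝ) else 0) =
        1 - E (M / p) (fun m => ψ₁ (f m + f p)) := by
      rw [eq_sub_iff_add_eq, ← E_add]
      refine (E_congr _ _ (fun _ => (1:ℝ)) ?_).trans (E_const (M / p) hM'1 1)
      intro n _ _
      simp only [hψ₁]
      by_cases c : f n ≤ t - f p
      · have c' : ¬ (t < f n + f p) := by intro h; linarith
        rw [if_pos c, if_neg c']; norm_num
      · have c' : t < f n + f p := by linarith [not_le.mp c]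
        rw [if_neg c, if_pos c']; norm_num
    have e2 : E M (fun n => if f n ≤ t then (1:ℝ) else 0) = 1 - E M (fun m => ψ₁ (f m)) := by
      rw [eq_sub_iff_add_eq, ← E_add]
      refine (E_congr _ _ (fun _ => (1:ℝ)) ?_).trans (E_const M hM1 1)
      intro n _ _
      simp only [hψ₁]
      by_cases c : f n ≤ t
      · have c' : ¬ (t < f n) := by intro h; linarith
        rw [if_pos c, if_neg c']; norm_num
      · have c' : t < f n := by linarith [not_le.mp c]
        rw [if_neg c, if_pos c']; norm_num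
    rw [e1]
    rw [e2] at ht1
    have := (abs_le.mp hd1).2
    simp only [hdev] at this
    linarith
  · have e1 : E (M / p) (fun n => if t - f p + s ≤ f n then (1:ℝ) else 0) =
        E (M / p) (fun m => ψ₂ (f m + f p)) := by
      apply E_congr
      intro n _ _
      simp only [hψ₂]
      have : (t - f p + s ≤ f n) ↔ (t + s ≤ f n + f p) := by constructor <;> intro h <;> linarith
      simp only [this]
    rw [e1]
    have := (abs_le.mp hd2).1
    simp only [hdev] at this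
    have e2 : E M (fun n => ψ₂ (f n)) = E M (fun n => if t + s ≤ f n then (1:ℝ) else 0) := rfl
    rw [e2] at this
    linarith
  · -- lower bound
    have h1 : (M:ℝ) / (2 * p) ≤ ((M / p : ℕ) : ℝ) := by
      have h2 : M < (M / p + 1) * p := by
        rw [mul_comm]; exact Nat.lt_mul_div_succ M hp.pos
      have h3 : (M:ℝ) < (((M / p : ℕ) : ℝ) + 1) * p := by exact_mod_cast h2
      have h4 : (1:ℝ) ≤ ((M / p : ℕ) : ℝ) := by exact_mod_cast hM'1
      rw [div_le_iff₀ (by positivity)]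
      nlinarith
    have h2 : Real.log ((M:ℝ) / (2 * p)) ≤ Real.log ((M / p : ℕ) : ℝ) := Real.log_le_log (by positivity) h1
    rw [Real.log_div hMpos.ne' (by positivity), Real.log_mul (by norm_num) hp0.ne'] at h2
    have h3 : Real.log p ≤ V / 3 := by
      rw [Real.log_le_iff_le_exp hp0]; exact hpV3
    linarith
  · have h1 : ((M / p : ℕ) : ℝ) ≤ M / p := Nat.cast_div_le
    have h0 : (0:ℝ) < ((M / p : ℕ) : ℝ) := by exact_mod_cast hM'1
    have h2 : Real.log ((M / p : ℕ) : ℝ) ≤ Real.log (M / p) := Real.log_le_log h0 h1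
    rw [Real.log_div hMpos.ne' hp0.ne'] at h2
    have h3 : V / 6 ≤ Real.log p := by
      rw [Real.le_log_iff_exp_le hp0]; exact hzp'.le
    linarith

lemma chain (f : ℕ → ℝ) (hf : IsAdd f) (hd : SmallDesc f) (ρ : ℝ) (hρ : 0 < ρ) (j : ℕ) :
    ∃ M₀ : ℕ, ∀ M : ℕ, M₀ ≤ M → ∀ α s : ℝ, Spread f M α s →
      ∃ M' : ℕ, Spread f M' (α - j * ρ) s ∧ (1/2)^j * Real.log M ≤ Real.log M' ∧
        Real.log M' ≤ (5/6)^j * Real.log M := by
  obtain ⟨M₁, h1⟩ := chain_step f hf hd ρ hρ
  induction j with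
  | zero =>
    refine ⟨0, fun M _ α s hs => ⟨M, by simpa using hs, by simp, by simp⟩⟩
  | succ j ih =>
    obtain ⟨M₂, h2⟩ := ih
    obtain ⟨M₃, hM₃⟩ := exists_nat_gt (Real.exp (2^j * Real.log (M₁ + 1)))
    refine ⟨max M₂ M₃, fun M hM α s hs => ?_⟩
    obtain ⟨M', hs', hlo, hhi⟩ := h2 M (le_trans (le_max_left _ _) hM) α s hs
    have hM3 : (M₃:ℝ) ≤ M := by exact_mod_cast le_trans (le_max_right _ _) hM
    have hMpos : (0:ℝ) < M := by
      have := Real.exp_pos (2^j * Real.log ((M₁:ℝ) + 1)); linarith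
    have hlogM : 2^j * Real.log ((M₁:ℝ) + 1) ≤ Real.log M := by
      rw [Real.le_log_iff_exp_le hMpos]; linarith
    have h3 : Real.log ((M₁:ℝ) + 1) ≤ Real.log M' := by
      refine le_trans ?_ hlo
      have e : Real.log ((M₁:ℝ) + 1) = (1/2)^j * (2^j * Real.log ((M₁:ℝ) + 1)) := by
        rw [← mul_assoc, ← mul_pow]; norm_num
      rw [e]
      gcongr
    have hM₁M' : M₁ ≤ M' := by
      rcases Nat.eq_zero_or_pos M' with rfl | hpos
      · rcases Nat.eq_zero_or_pos M₁ with rfl | hM₁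
        · exact le_rfl
        · exfalso
          simp at h3
          have : 0 < Real.log ((M₁:ℝ) + 1) := Real.log_pos (by
            have : (0:ℝ) < M₁ := by exact_mod_cast hM₁
            linarith)
          linarith
      · have hpos' : (0:ℝ) < M' := by exact_mod_cast hpos
        have := (Real.log_le_log_iff (by positivity) hpos').mp h3
        have h4 : ((M₁ + 1 : ℕ) : ℝ) ≤ M' := by push_cast; exact this
        have h5 : M₁ + 1 ≤ M' := by exact_mod_cast h4
        omega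
    obtain ⟨M'', _, hs'', hlo', hhi'⟩ := h1 M' hM₁M' _ s hs'
    refine ⟨M'', ?_, ?_, ?_⟩
    · convert hs'' using 1
      push_cast; ring
    · calc (1/2)^(j+1) * Real.log M = 1/2 * ((1/2)^j * Real.log M) := by rw [pow_succ]; ring
        _ ≤ 1/2 * Real.log M' := by gcongr
        _ ≤ Real.log M'' := hlo'
    · calc Real.log M'' ≤ 5/6 * Real.log M' := hhi'
        _ ≤ 5/6 * ((5/6)^j * Real.log M) := by gcongr
        _ = (5/6)^(j+1) * Real.log M := by rw [pow_succ]; ring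

end Pool.Agent.helper76
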