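import Pool.Agent.helper76.Spread

/-! Part I: if `f` is not a multiple of `log` then its values spread out. -/

namespace Pool.Agent.helper76

open Finset

theorem partI (f : ℕ → ℝ) (hf : IsAdd f) (hd : SmallDesc f) (a b : ℕ) (ha : 2 ≤ a) (hb : 2 ≤ b)
    (hne : f a * Real.log b ≠ f b * Real.log a) (s : ℝ) (hs : 0 < s) :
    ∃ N, 1 ≤ N ∧ Spread f N (1/8) s := by
  by_contra hcon
  have hcon' : ∀ N, 1 ≤ N → ¬ Spread f N (1/8) s := fun N hN h => hcon ⟨N, hN, h⟩
  have hla : 0 < Real.log a := Real.log_pos (by exact_mod_cast ha)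
  have hlb : 0 < Real.log b := Real.log_pos (by exact_mod_cast hb)
  set ξ := Real.log a / Real.log b with hξ
  have hξ0 : 0 < ξ := div_pos hla hlb
  set d := |f a - ξ * f b| with hdd
  have hd0 : 0 < d := by
    rw [hdd, abs_pos, sub_ne_zero]
    intro h
    apply hne
    rw [h, hξ]; field_simp
  -- number of translates
  obtain ⟨i, hi⟩ : ∃ i : ℕ, 2 * s / d < i := exists_nat_gt _
  have hi0 : (0:ℝ) < i := lt_trans (by positivity) hi
  -- Dirichlet
  obtain ⟨n, hn⟩ : ∃ n : ℕ, 2 * |f b| / d + 16 * i * Real.log b + 2 < n := exists_nat_gt _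
  have hfb : 0 ≤ 2 * |f b| / d := by positivity
  have hib : 0 ≤ 16 * i * Real.log b := by positivity
  have hn0 : (2:ℝ) < n := by linarith
  have hnpos : 0 < n := by exact_mod_cast (by linarith : (0:ℝ) < n)
  obtain ⟨j, k, hk0, hkn, hjk⟩ := Real.exists_int_int_abs_mul_sub_le ξ hnpos
  have hk1 : (1:ℝ) ≤ k := by exact_mod_cast hk0
  have hj0 : 0 ≤ j := by
    have h1 := (abs_le.mp hjk).2
    have h2 : 1 / ((n:ℝ) + 1) < 1 := by rw [div_lt_one (by linarith)]; linarith
    have h3 : (0:ℝ) < k * ξ := by positivity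
    have h4 : (-1:ℝ) < j := by linarith
    have : (-1:ℤ) < j := by exact_mod_cast h4
    omega
  obtain ⟨k', hk'⟩ := Int.eq_ofNat_of_zero_le hk0.le
  obtain ⟨j', hj'⟩ := Int.eq_ofNat_of_zero_le hj0
  subst hk' hj'
  simp only [Int.cast_natCast] at hjk hk1
  set s' := (k':ℝ) * f a - j' * f b with hs'
  have hs'eq : s' = k' * (f a - ξ * f b) + (k' * ξ - j') * f b := by rw [hs']; ring
  have hs'ge : d / 2 ≤ |s'| := by
    rw [hs'eq]
    have h1 : |(k':ℝ) * (f a - ξ * f b)| = k' * d := by
      rw [abs_mul, abs_of_nonneg (by positivity)]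
    have h2 : |((k':ℝ) * ξ - j') * f b| ≤ d / 2 := by
      rw [abs_mul]
      calc |(k':ℝ) * ξ - j'| * |f b| ≤ 1 / ((n:ℝ) + 1) * |f b| := by gcongr
        _ ≤ d / 2 := by
          rw [div_mul_eq_mul_div, one_mul, div_le_iff₀ (by linarith)]
          have : 2 * |f b| / d < n := by linarith
          rw [div_lt_iff₀ hd0] at this
          nlinarith
    have h3 := abs_sub_abs_le_abs_sub ((k':ℝ) * (f a - ξ * f b)) (-(((k':ℝ) * ξ - j') * f b))
    rw [sub_neg_eq_add, abs_neg, h1] at h3
    nlinarith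
  -- closeness of logs
  have hζ : |(k':ℝ) * Real.log a - j' * Real.log b| ≤ 1 / (16 * i) := by
    have h1 : (k':ℝ) * Real.log a - j' * Real.log b = (k' * ξ - j') * Real.log b := by
      rw [hξ]; field_simp
    rw [h1, abs_mul, abs_of_pos hlb]
    calc |(k':ℝ) * ξ - j'| * Real.log b ≤ 1 / ((n:ℝ) + 1) * Real.log b := by gcongr
      _ ≤ 1 / (16 * i) := by
        rw [div_mul_eq_mul_div, one_mul, div_le_div_iff₀ (by linarith) (by positivity)]
        linarith
  obtain ⟨N₁, h1⟩ := iter_interval f hf hd a (by omega) k' (1 / (16 * i)) (by positivity)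
  obtain ⟨N₂, h2⟩ := iter_interval f hf hd b (by omega) j' (1 / (16 * i)) (by positivity)
  set M' := N₁ + N₂ + 1 with hM'
  have hapos : 0 < a^k' := pow_pos (by omega) _
  have hbpos : 0 < b^j' := pow_pos (by omega) _
  set N := a^k' * b^j' * M' with hN
  have hNM' : M' ≤ N := by
    rw [hN]; exact Nat.le_mul_of_pos_left _ (Nat.mul_pos hapos hbpos)
  set M := b^j' * M' with hM
  set M2 := a^k' * M' with hM2
  have hM1 : 1 ≤ M := Nat.mul_pos hbpos (by omega)
  have hM21 : 1 ≤ M2 := Nat.mul_pos hapos (by omega)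
  have eN1 : N / a^k' = M := by
    rw [hN, hM, mul_assoc]; exact Nat.mul_div_cancel_left _ hapos
  have eN2 : N / b^j' = M2 := by
    have : a^k' * b^j' * M' = b^j' * (a^k' * M') := by ring
    rw [hN, hM2, this]; exact Nat.mul_div_cancel_left _ hbpos
  have hlog : |Real.log M - Real.log M2| ≤ 1 / (16 * i) := by
    have e1 : Real.log M = j' * Real.log b + Real.log M' := by
      rw [hM]; push_cast
      rw [Real.log_mul (by positivity) (by positivity), Real.log_pow]
    have e2 : Real.log M2 = k' * Real.log a + Real.log M' := by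
      rw [hM2]; push_cast
      rw [Real.log_mul (by positivity) (by positivity), Real.log_pow]
    rw [e1, e2]
    have : (j':ℝ) * Real.log b + Real.log M' - (k' * Real.log a + Real.log M') = -(k' * Real.log a - j' * Real.log b) := by ring
    rw [this, abs_neg]; exact hζ
  have key : ∀ c : ℝ, |prI f M c s - prI f M (c + s') s| ≤ 1 / (4 * i) := by
    intro c
    have g1 := h1 N (by omega) (c + k' * f a) s hs.le
    have g2 := h2 N (by omega) (c + k' * f a) s hs.le
    rw [eN1] at g1
    rw [eN2] at g2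
    have e1 : c + k' * f a - k' * f a = c := by ring
    have e2 : c + k' * f a - j' * f b = c + s' := by rw [hs']; ring
    rw [e1] at g1
    rw [e2] at g2
    have g3 : |prI f M (c + s') s - prI f M2 (c + s') s| ≤ 2 * |Real.log M - Real.log M2| := by
      apply E_close M M2 hM1 hM21
      intro n; split_ifs <;> norm_num
    have e3 : (1:ℝ) / (4 * i) = 4 * (1 / (16 * i)) := by field_simp; norm_num
    rw [e3]
    have g3' := g3.trans (by linarith [hlog] : 2 * |Real.log M - Real.log M2| ≤ 2 * (1 / (16 * i)))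
    rw [abs_le] at g1 g2 g3' ⊢
    constructor <;> linarith
  obtain ⟨c, hc⟩ := center_exists f M hM1 (1/8) s (by norm_num) (by norm_num) (hcon' M hM1)
  have hc' : (3:ℝ)/4 ≤ prI f M c s := by linarith
  have hiter : ∀ m : ℕ, 3/4 - m * (1 / (4 * i)) ≤ prI f M (c + m * s') s := by
    intro m
    induction m with
    | zero => simpa using hc'
    | succ m ih =>
      have h3 := abs_le.mp (key (c + m * s'))
      have e : c + m * s' + s' = c + ((m+1:ℕ):ℝ) * s' := by push_cast; ring
      rw [e] at h3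
      have e2 : ((m+1:ℕ):ℝ) * (1 / (4 * (i:ℝ))) = m * (1 / (4 * i)) + 1 / (4 * i) := by push_cast; ring
      rw [e2]
      linarith
  have h3 := hiter i
  have e : (i:ℝ) * (1 / (4 * i)) = 1/4 := by field_simp
  rw [e] at h3
  have h4 := overlap f M c (c + i * s') s (by linarith)
  have h5 : |c - (c + i * s')| = i * |s'| := by
    have : c - (c + i * s') = -(i * s') := by ring
    rw [this, abs_neg, abs_mul, abs_of_pos hi0]
  rw [h5] at h4
  rw [div_lt_iff₀ hd0] at hi
  nlinarith

end Pool.Agent.helper76
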