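import Pool.Agent.helper76.Small
import Pool.Agent.helper76.Chain
import Pool.Agent.helper76.PartI

/-! Conclusion. -/

namespace Pool.Agent.helper76

open Finset

lemma exists_of_E_pos (N : ℕ) (Q : ℕ → Prop) [DecidablePred Q] (h : 0 < E N (fun n => if Q n then (1:ℝ) else 0)) :
    ∃ n, 1 ≤ n ∧ n ≤ N ∧ Q n := by
  by_contra hcon
  push Not at hcon
  have : E N (fun n => if Q n then (1:ℝ) else 0) = 0 := by
    unfold E
    rw [sum_eq_zero, zero_div]
    intro n hn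
    rw [mem_Ioc] at hn
    rw [if_neg (hcon n hn.1 hn.2)]
  linarith

lemma final (f : ℕ → ℝ) (hf : IsAdd f) (hd : SmallDesc f) (a b : ℕ) (ha : 2 ≤ a) (hb : 2 ≤ b) :
    f a * Real.log b = f b * Real.log a := by
  classical
  by_contra hne
  have hI := partI f hf hd a b ha hb hne
  obtain ⟨δ, T₀, Λ, hδ, hT₀, hΛ, hsm⟩ := no_spread_small f hf hd
  obtain ⟨j, hj⟩ : ∃ j : ℕ, (5/6 : ℝ)^j < δ / 21 := exists_pow_lt_of_lt_one (by positivity) (by norm_num)
  set ρ : ℝ := 1 / (16 * (j + 1)) with hρ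
  have hρ0 : 0 < ρ := by positivity
  have hjρ : j * ρ ≤ 1/16 := by
    rw [hρ, mul_one_div, div_le_div_iff₀ (by positivity) (by norm_num)]
    linarith
  obtain ⟨M₀, hch⟩ := chain f hf hd ρ hρ0 j
  obtain ⟨M₁, hM₁⟩ := exists_nat_gt ((M₀:ℝ) + Real.exp (21 * T₀) + 2)
  set S := ∑ n ∈ Ioc 0 M₁, |f n| with hS
  have hS0 : 0 ≤ S := sum_nonneg fun _ _ => abs_nonneg _
  set lam := max Λ (2 * S + 1) with hlam
  have hlamΛ : Λ ≤ lam := le_max_left _ _
  have hlamS : 2 * S + 1 ≤ lam := le_max_right _ _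
  have hlam0 : 0 < lam := lt_of_lt_of_le hΛ hlamΛ
  have hexN := hI lam hlam0
  set N := Nat.find hexN with hN
  obtain ⟨hN1, hNs⟩ := Nat.find_spec hexN
  have hmin : ∀ M, 1 ≤ M → M < N → ¬ Spread f M (1/8) lam := by
    intro M hM hMN hs
    exact Nat.find_min hexN hMN ⟨hM, hs⟩
  have hNbig : M₁ < N := by
    by_contra hcon
    have hcon := not_lt.mp hcon
    obtain ⟨t, h1, h2⟩ := hNs
    obtain ⟨n, hn1, hn2, hn3⟩ := exists_of_E_pos N (fun n => f n ≤ t) (by
      refine lt_of_lt_of_le (by norm_num) h1)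
    obtain ⟨m, hm1, hm2, hm3⟩ := exists_of_E_pos N (fun n => t + lam ≤ f n) (by
      refine lt_of_lt_of_le (by norm_num) h2)
    have hfn : |f n| ≤ S := single_le_sum (f := fun n => |f n|) (fun _ _ => abs_nonneg _)
      (by rw [mem_Ioc]; exact ⟨hn1, hn2.trans hcon⟩)
    have hfm : |f m| ≤ S := single_le_sum (f := fun n => |f n|) (fun _ _ => abs_nonneg _)
      (by rw [mem_Ioc]; exact ⟨hm1, hm2.trans hcon⟩)
    have h3 := (abs_le.mp hfn).1
    have h4 := (abs_le.mp hfm).2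
    linarith
  have hcex : ∀ M, ∃ c, 1 ≤ M → M < N → 3/4 ≤ prI f M c lam := by
    intro M
    by_cases h : 1 ≤ M ∧ M < N
    · obtain ⟨c, hc⟩ := center_exists f M h.1 (1/8) lam (by norm_num) (by norm_num) (hmin M h.1 h.2)
      exact ⟨c, fun _ _ => by linarith⟩
    · exact ⟨0, fun h1 h2 => absurd ⟨h1, h2⟩ h⟩
  choose c hc using hcex
  have hNr : (M₁:ℝ) ≤ N := by exact_mod_cast hNbig.le
  have hexp0 := Real.exp_pos (21 * T₀)
  have hM₀0 : (0:ℝ) ≤ M₀ := Nat.cast_nonneg _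
  have hN2 : (2:ℝ) < N := by linarith
  have hNpos : (0:ℝ) < N := by linarith
  have hlogN : 21 * T₀ ≤ Real.log N := by
    rw [Real.le_log_iff_exp_le hNpos]; linarith
  have hlogN0 : 0 < Real.log N := by linarith
  have hM₀N : M₀ ≤ N := by
    have : (M₀:ℝ) ≤ N := by linarith
    exact_mod_cast this
  set T := Real.log N / 21 with hT
  have hTT₀ : T₀ ≤ T := by
    rw [hT, le_div_iff₀ (by norm_num)]; linarith
  have hexpT : Real.exp (20 * T) < N := by
    rw [← Real.lt_log_iff_exp_lt hNpos, hT]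
    linarith
  obtain ⟨M', hs', _, hhi⟩ := hch N hM₀N (1/8) lam hNs
  have hs'' : Spread f M' (1/16) lam := by
    obtain ⟨t, h1, h2⟩ := hs'
    exact ⟨t, by linarith, by linarith⟩
  have hM'1 : 1 ≤ M' := by
    obtain ⟨t, h1, _⟩ := hs''
    obtain ⟨n, hn1, hn2, _⟩ := exists_of_E_pos M' (fun n => f n ≤ t) (by
      refine lt_of_lt_of_le (by norm_num) h1)
    omega
  refine hsm lam c N T hlamΛ hTT₀ hexpT (fun M h1 h2 => hc M h1 h2) M' hM'1 ?_ hs''
  calc Real.log M' ≤ (5/6)^j * Real.log N := hhi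
    _ ≤ δ / 21 * Real.log N := by gcongr
    _ = δ * T := by rw [hT]; ring

end Pool.Agent.helper76
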