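import Mathlib

/-! Averages over `1..N` and total variation. -/

namespace Pool.Agent.helper76

open Finset

/-- average of `g` over `1..N` -/
noncomputable def E (N : ℕ) (g : ℕ → ℝ) : ℝ := (∑ n ∈ Ioc 0 N, g n) / N

/-- total variation of `w` on `1..N+1` -/
noncomputable def V (N : ℕ) (w : ℕ → ℝ) : ℝ := ∑ n ∈ Ioc 0 N, |w (n + 1) - w n|

lemma V_nonneg (N : ℕ) (w : ℕ → ℝ) : 0 ≤ V N w := sum_nonneg fun _ _ => abs_nonneg _

lemma V_mono {M N : ℕ} (h : M ≤ N) (w : ℕ → ℝ) : V M w ≤ V N w :=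
  sum_le_sum_of_subset_of_nonneg (Ioc_subset_Ioc_right h) fun _ _ _ => abs_nonneg _

lemma sum_Ioc_telescope (N : ℕ) (w : ℕ → ℝ) :
    ∑ n ∈ Ioc 0 N, (w (n + 1) - w n) = w (N + 1) - w 1 := by
  induction N with
  | zero => simp
  | succ k ih => rw [sum_Ioc_succ_top (Nat.zero_le k), ih]; ring

/-- the number of descents up to `N` -/
noncomputable def desc (f : ℕ → ℝ) (N : ℕ) : ℕ :=
  ((Ioc 0 N).filter (fun n => f (n + 1) < f n)).card

lemma var_bound (f w e : ℕ → ℝ) (hw : ∀ n, |w n| ≤ 1) (he : ∀ n, 0 ≤ e n)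
    (hmono : ∀ n, 1 ≤ n → ¬ (f (n + 1) < f n) → w n - e n ≤ w (n + 1)) (N : ℕ) :
    V N w ≤ 2 + 4 * (desc f N : ℝ) + 2 * ∑ n ∈ Ioc 0 N, e n := by
  have key : ∀ n ∈ Ioc 0 N, |w (n + 1) - w n| ≤
      (w (n + 1) - w n) + (4 * (if f (n + 1) < f n then (1:ℝ) else 0) + 2 * e n) := by
    intro n hn
    have h1 := abs_le.mp (hw n)
    have h2 := abs_le.mp (hw (n+1))
    have h3 := he n
    rw [mem_Ioc] at hn
    split_ifs with h
    · rw [abs_le]; constructor <;> linarith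
    · have := hmono n hn.1 h
      rw [abs_le]; constructor <;> linarith
  have hV : V N w ≤ ∑ n ∈ Ioc 0 N, ((w (n + 1) - w n) +
      (4 * (if f (n + 1) < f n then (1:ℝ) else 0) + 2 * e n)) := sum_le_sum key
  rw [sum_add_distrib, sum_add_distrib, sum_Ioc_telescope, ← mul_sum, ← mul_sum,
    ← sum_filter] at hV
  simp only [sum_const, nsmul_eq_mul, mul_one] at hV
  have h1 := abs_le.mp (hw 1)
  have h2 := abs_le.mp (hw (N+1))
  unfold desc
  linarith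

lemma E_const (N : ℕ) (hN : 1 ≤ N) (a : ℝ) : E N (fun _ => a) = a := by
  unfold E
  have : (N:ℝ) ≠ 0 := by positivity
  simp; field_simp

lemma E_add (N : ℕ) (g h : ℕ → ℝ) : E N (fun n => g n + h n) = E N g + E N h := by
  unfold E; rw [sum_add_distrib, add_div]

lemma E_sub (N : ℕ) (g h : ℕ → ℝ) : E N (fun n => g n - h n) = E N g - E N h := by
  unfold E; rw [sum_sub_distrib, sub_div]

lemma E_smul (N : ℕ) (a : ℝ) (g : ℕ → ℝ) : E N (fun n => a * g n) = a * E N g := by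
  unfold E; rw [← mul_sum, mul_div_assoc]

lemma E_mono (N : ℕ) (g h : ℕ → ℝ) (hgh : ∀ n, 1 ≤ n → n ≤ N → g n ≤ h n) : E N g ≤ E N h := by
  unfold E
  apply div_le_div_of_nonneg_right _ (Nat.cast_nonneg N)
  apply sum_le_sum
  intro n hn
  rw [mem_Ioc] at hn
  exact hgh n hn.1 hn.2

lemma E_congr (N : ℕ) (g h : ℕ → ℝ) (hgh : ∀ n, 1 ≤ n → n ≤ N → g n = h n) : E N g = E N h := by
  unfold E
  congr 1
  apply sum_congr rfl
  intro n hn
  rw [mem_Ioc] at hn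
  exact hgh n hn.1 hn.2

lemma E_abs_le (N : ℕ) (g : ℕ → ℝ) (B : ℝ) (hB : 0 ≤ B) (h : ∀ n, 1 ≤ n → n ≤ N → |g n| ≤ B) :
    |E N g| ≤ B := by
  rcases Nat.eq_zero_or_pos N with rfl | hN
  · simp [E, hB]
  · have h1 : E N g ≤ B := by
      rw [← E_const N hN B]; exact E_mono _ _ _ fun n h1 h2 => (abs_le.mp (h n h1 h2)).2
    have h2 : -B ≤ E N g := by
      rw [← E_const N hN (-B)]; exact E_mono _ _ _ fun n h1 h2 => (abs_le.mp (h n h1 h2)).1
    exact abs_le.mpr ⟨h2, h1⟩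

lemma E_nonneg (N : ℕ) (g : ℕ → ℝ) (h : ∀ n, 1 ≤ n → n ≤ N → 0 ≤ g n) : 0 ≤ E N g := by
  unfold E
  apply div_nonneg _ (Nat.cast_nonneg N)
  apply sum_nonneg
  intro n hn
  rw [mem_Ioc] at hn
  exact h n hn.1 hn.2

lemma abs_E_sub_le (N : ℕ) (g h : ℕ → ℝ) : |E N g - E N h| ≤ E N (fun n => |g n - h n|) := by
  rw [← E_sub]
  unfold E
  rw [abs_div, abs_of_nonneg (Nat.cast_nonneg N : (0:ℝ) ≤ N)]
  apply div_le_div_of_nonneg_right _ (Nat.cast_nonneg N)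
  exact abs_sum_le_sum_abs _ _

end Pool.Agent.helper76
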