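import Mathlib

/-! Prime estimates: windows `(z, 4z]` and `∑ (log p)^2 / p`. -/

namespace Pool.Agent.helper76

open Finset Real

lemma log_le_four_root (z : ℝ) (hz : 1 ≤ z) : Real.log z ≤ 4 * √(√z) := by
  set s := √(√z) with hs
  have hz0 : 0 ≤ z := by linarith
  have h1 : s^2 = √z := Real.sq_sqrt (Real.sqrt_nonneg z)
  have h2 : s^4 = z := by
    have : s^4 = (s^2)^2 := by ring
    rw [this, h1, Real.sq_sqrt hz0]
  have hs0 : 0 < s := by
    rw [hs]; apply Real.sqrt_pos.mpr; apply Real.sqrt_pos.mpr; linarith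
  have h3 : Real.log z = 4 * Real.log s := by
    rw [← h2, Real.log_pow]; norm_num
  rw [h3]
  have := Real.log_le_sub_one_of_pos hs0
  linarith

/-- primes in `(z, 4z]` have reciprocal sum at least `(1/8) / log (4z)`. -/
lemma window : ∃ z₀ : ℝ, 1 ≤ z₀ ∧ ∀ z : ℝ, z₀ ≤ z →
    (1/8) / Real.log (4 * z) ≤ ∑ p ∈ (Ioc ⌊z⌋₊ ⌊4 * z⌋₊).filter Nat.Prime, 1 / (p:ℝ) := by
  refine ⟨100^4, by norm_num, fun z hz => ?_⟩
  have hz1 : (1:ℝ) ≤ z := le_trans (by norm_num) hz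
  have hz0 : (0:ℝ) < z := by linarith
  set s := √(√z) with hs
  have h1 : s^2 = √z := Real.sq_sqrt (Real.sqrt_nonneg z)
  have h2 : s^4 = z := by
    have : s^4 = (s^2)^2 := by ring
    rw [this, h1, Real.sq_sqrt hz0.le]
  have hs0 : 0 ≤ s := Real.sqrt_nonneg _
  have hs100 : 100 ≤ s := by
    by_contra hcon
    have hcon := not_le.mp hcon
    have : s^4 < 100^4 := by gcongr
    linarith
  have hlogz := log_le_four_root z hz1
  rw [← hs] at hlogz
  have hlog4 : Real.log 4 ≤ 2 := by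
    have h4 : Real.log 4 = 2 * Real.log 2 := by
      rw [show (4:ℝ) = 2^2 by norm_num, Real.log_pow]; norm_num
    have := Real.log_two_lt_d9; linarith
  have hlog4' : Real.log 4 = 2 * Real.log 2 := by
      rw [show (4:ℝ) = 2^2 by norm_num, Real.log_pow]; norm_num
  have hlog2 : 0.69 < Real.log 2 := by have := Real.log_two_gt_d9; linarith
  have hlog2' : Real.log 2 < 0.7 := by have := Real.log_two_lt_d9; linarith
  -- theta bounds
  have ht1 := Chebyshev.theta_ge' (x := 4 * z) (by linarith)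
  have ht2 := Chebyshev.theta_le_log4_mul_x (x := z) hz0.le
  have e1 : Real.log (4 * z) = Real.log 4 + Real.log z := Real.log_mul (by norm_num) hz0.ne'
  have e2 : Real.log (4 * z + 2) ≤ 5 + 4 * s := by
    have : Real.log (4 * z + 2) ≤ Real.log (4 * (4 * z)) := by
      apply Real.log_le_log (by linarith); linarith
    rw [Real.log_mul (by norm_num) (by linarith), e1] at this
    linarith
  have e3 : √(4 * z) = 2 * s^2 := by
    rw [h1, Real.sqrt_mul (by norm_num), show (4:ℝ) = 2^2 by norm_num, Real.sqrt_sq (by norm_num)]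
  have e4 : 2 * √(4 * z) * Real.log (4 * z) ≤ 4 * s^2 * (2 + 4 * s) := by
    rw [e3, e1]
    have : Real.log 4 + Real.log z ≤ 2 + 4 * s := by linarith
    have h5 : (0:ℝ) ≤ s^2 := by positivity
    nlinarith
  have hth : z / 2 ≤ Chebyshev.theta (4 * z) - Chebyshev.theta z := by
    have h5 : z / 2 ≤ (4 * z - 1) * Real.log 2 - (5 + 4 * s) - 4 * s^2 * (2 + 4 * s) - Real.log 4 * z := by
      rw [hlog4']
      have h6 : (5 + 4 * s) + 4 * s^2 * (2 + 4 * s) + 1 ≤ 0.2 * s^4 := by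
        have h7 : s^3 * 100 ≤ s^4 := by nlinarith [pow_nonneg hs0 3]
        have h8 : s^2 * 100 ≤ s^3 := by nlinarith [pow_nonneg hs0 2]
        have h9 : s * 100 ≤ s^2 := by nlinarith
        nlinarith
      rw [h2] at h6
      nlinarith
    linarith
  have hsub : Chebyshev.theta (4 * z) - Chebyshev.theta z =
      ∑ p ∈ (Ioc ⌊z⌋₊ ⌊4 * z⌋₊).filter Nat.Prime, Real.log p := by
    rw [Chebyshev.theta_eq_sum_Icc, Chebyshev.theta_eq_sum_Icc]
    have hle : ⌊z⌋₊ ≤ ⌊4 * z⌋₊ := Nat.floor_mono (by linarith)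
    have hun : (Icc 0 ⌊4 * z⌋₊).filter Nat.Prime = (Icc 0 ⌊z⌋₊).filter Nat.Prime ∪ (Ioc ⌊z⌋₊ ⌊4 * z⌋₊).filter Nat.Prime := by
      ext p; simp only [mem_filter, mem_union, mem_Icc, mem_Ioc]
      constructor
      · rintro ⟨h3, h4⟩
        by_cases h5 : p ≤ ⌊z⌋₊
        · left; exact ⟨⟨h3.1, h5⟩, h4⟩
        · right; exact ⟨⟨by omega, h3.2⟩, h4⟩
      · rintro (⟨h3, h4⟩ | ⟨h3, h4⟩)
        · exact ⟨⟨h3.1, h3.2.trans hle⟩, h4⟩
        · exact ⟨⟨Nat.zero_le _, h3.2⟩, h4⟩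
    have hdisj : Disjoint ((Icc 0 ⌊z⌋₊).filter Nat.Prime) ((Ioc ⌊z⌋₊ ⌊4 * z⌋₊).filter Nat.Prime) := by
      rw [Finset.disjoint_left]
      intro p hp hp'
      rw [mem_filter, mem_Icc] at hp
      rw [mem_filter, mem_Ioc] at hp'
      omega
    rw [hun, sum_union hdisj]; ring
  rw [hsub] at hth
  have hL : 0 < Real.log (4 * z) := Real.log_pos (by linarith)
  have hterm : ∀ p ∈ (Ioc ⌊z⌋₊ ⌊4 * z⌋₊).filter Nat.Prime,
      Real.log p * (1 / (4 * z * Real.log (4 * z))) ≤ 1 / (p:ℝ) := by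
    intro p hp
    rw [mem_filter, mem_Ioc] at hp
    have hp4 : (p:ℝ) ≤ 4 * z := by
      have := Nat.floor_le (by linarith : 0 ≤ 4 * z)
      have h3 : (p:ℝ) ≤ ⌊4 * z⌋₊ := by exact_mod_cast hp.1.2
      linarith
    have hp0 : (0:ℝ) < p := by exact_mod_cast hp.2.pos
    have hlogp : Real.log p ≤ Real.log (4 * z) := Real.log_le_log hp0 hp4
    have hlogp0 : 0 ≤ Real.log p := Real.log_nonneg (by exact_mod_cast hp.2.one_lt.le)
    rw [mul_one_div, div_le_div_iff₀ (by positivity) hp0, one_mul]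
    calc Real.log p * p ≤ Real.log (4 * z) * (4 * z) := by gcongr
      _ = 4 * z * Real.log (4 * z) := by ring
  have hfin := sum_le_sum hterm
  rw [← sum_mul] at hfin
  refine le_trans ?_ hfin
  have h9 : (1/8) / Real.log (4 * z) = (z / 2) * (1 / (4 * z * Real.log (4 * z))) := by
    field_simp; norm_num
  rw [h9]
  gcongr

/-- the mass of `B` up to `x` -/
noncomputable def massTo (B : Finset ℕ) (x : ℝ) : ℝ := ∑ p ∈ B.filter (fun p : ℕ => (p:ℝ) ≤ x), 1 / (p:ℝ)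

lemma massTo_nonneg (B : Finset ℕ) (x : ℝ) : 0 ≤ massTo B x := sum_nonneg fun _ _ => by positivity

lemma massTo_le (B : Finset ℕ) (x : ℝ) : massTo B x ≤ ∑ p ∈ B, 1 / (p:ℝ) :=
  sum_le_sum_of_subset_of_nonneg (filter_subset _ _) fun _ _ _ => by positivity

lemma massTo_sub (B : Finset ℕ) (x y : ℝ) (hxy : x ≤ y) :
    massTo B y - massTo B x = ∑ p ∈ B.filter (fun p : ℕ => x < (p:ℝ) ∧ (p:ℝ) ≤ y), 1 / (p:ℝ) := by
  unfold massTo
  have hun : B.filter (fun p : ℕ => (p:ℝ) ≤ y) = B.filter (fun p : ℕ => (p:ℝ) ≤ x) ∪ B.filter (fun p : ℕ => x < (p:ℝ) ∧ (p:ℝ) ≤ y) := by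
    ext p; simp only [mem_filter, mem_union]
    constructor
    · rintro ⟨h1, h2⟩
      by_cases h3 : (p:ℝ) ≤ x
      · left; exact ⟨h1, h3⟩
      · right; exact ⟨h1, not_le.mp h3, h2⟩
    · rintro (⟨h1, h2⟩ | ⟨h1, h2⟩)
      · exact ⟨h1, h2.trans hxy⟩
      · exact ⟨h1, h2.2⟩
  have hdisj : Disjoint (B.filter (fun p : ℕ => (p:ℝ) ≤ x)) (B.filter (fun p : ℕ => x < (p:ℝ) ∧ (p:ℝ) ≤ y)) := by
    rw [Finset.disjoint_left]
    intro p hp hp'
    rw [mem_filter] at hp hp'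
    linarith [hp.2, hp'.2.1]
  rw [hun, sum_union hdisj]; ring

/-- Window selection. -/
lemma window_select : ∃ z₀ : ℝ, 1 ≤ z₀ ∧ ∀ (z r : ℝ) (J : ℕ), 1 ≤ r → z₀ ≤ z / r →
    ∀ B₁ B₂ : Finset ℕ, (∑ p ∈ B₁, 1 / (p:ℝ)) + (∑ p ∈ B₂, 1 / (p:ℝ)) < J * ((1/8) / Real.log (z * 4^J)) →
    ∃ j < J, ∃ p₁ p₂ : ℕ, p₁.Prime ∧ p₂.Prime ∧ p₁ ∉ B₁ ∧ p₂ ∉ B₂ ∧
      z * 4^j < p₁ ∧ (p₁:ℝ) ≤ z * 4^(j+1) ∧ z * 4^j < r * p₂ ∧ r * (p₂:ℝ) ≤ z * 4^(j+1) := by
  obtain ⟨z₀, hz₀, hw⟩ := window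
  refine ⟨z₀, hz₀, fun z r J hr hzr B₁ B₂ hmass => ?_⟩
  have hr0 : 0 < r := by linarith
  have hz : z₀ ≤ z := by
    rw [le_div_iff₀ hr0] at hzr
    nlinarith
  have hz0 : 0 < z := by linarith
  by_contra hcon
  push Not at hcon
  have hlog0 : ∀ j < J, 0 < Real.log (4 * (z * 4^j / r)) := by
    intro j _
    apply Real.log_pos
    have h1 : (1:ℝ) ≤ 4^j := one_le_pow₀ (by norm_num)
    have h2 : z * 4^j / r = z / r * 4^j := by ring
    rw [h2]
    nlinarith
  have step : ∀ j < J, (1/8) / Real.log (z * 4^J) ≤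
      (massTo B₁ (z * 4^(j+1)) - massTo B₁ (z * 4^j)) +
      (massTo B₂ (z * 4^(j+1) / r) - massTo B₂ (z * 4^j / r)) := by
    intro j hj
    have h4j : (1:ℝ) ≤ 4^j := one_le_pow₀ (by norm_num)
    have hle1 : z * 4^j ≤ z * 4^(j+1) := by rw [pow_succ]; nlinarith
    have hle2 : z * 4^j / r ≤ z * 4^(j+1) / r := by gcongr
    have hn1 : 0 ≤ massTo B₁ (z * 4^(j+1)) - massTo B₁ (z * 4^j) := by
      rw [massTo_sub _ _ _ hle1]; exact sum_nonneg fun _ _ => by positivity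
    have hn2 : 0 ≤ massTo B₂ (z * 4^(j+1) / r) - massTo B₂ (z * 4^j / r) := by
      rw [massTo_sub _ _ _ hle2]; exact sum_nonneg fun _ _ => by positivity
    have h4J : (4:ℝ)^(j+1) ≤ 4^J := pow_le_pow_right₀ (by norm_num) (by omega)
    by_cases hall : ∀ p : ℕ, p.Prime → z * 4^j < p → (p:ℝ) ≤ z * 4^(j+1) → p ∈ B₁
    · -- all primes of first window in B₁
      have h1 := hw (z * 4^j) (by nlinarith)
      have e : 4 * (z * 4^j) = z * 4^(j+1) := by rw [pow_succ]; ring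
      rw [e] at h1
      have h2 : ∑ p ∈ (Ioc ⌊z * 4^j⌋₊ ⌊z * 4^(j+1)⌋₊).filter Nat.Prime, 1 / (p:ℝ) ≤
          massTo B₁ (z * 4^(j+1)) - massTo B₁ (z * 4^j) := by
        rw [massTo_sub _ _ _ hle1]
        apply sum_le_sum_of_subset_of_nonneg
        · intro p hp
          rw [mem_filter, mem_Ioc] at hp
          have a1 : z * 4^j < p := (Nat.floor_lt (by positivity)).mp hp.1.1
          have a2 : (p:ℝ) ≤ z * 4^(j+1) := (Nat.le_floor_iff (by positivity)).mp hp.1.2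
          rw [mem_filter]
          exact ⟨hall p hp.2 a1 a2, a1, a2⟩
        · intro _ _ _; positivity
      have h3 : (1/8) / Real.log (z * 4^J) ≤ (1/8) / Real.log (z * 4^(j+1)) := by
        apply div_le_div_of_nonneg_left (by norm_num)
        · apply Real.log_pos
          have : (4:ℝ) ≤ 4^(j+1) := by rw [pow_succ]; nlinarith
          nlinarith
        · apply Real.log_le_log (by positivity); gcongr
      linarith
    · push Not at hall
      obtain ⟨p₁, hp₁, ha, hb, hc⟩ := hall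
      have h1 := hw (z * 4^j / r) (by
        have h2 : z * 4^j / r = z / r * 4^j := by ring
        rw [h2]; nlinarith)
      have e : 4 * (z * 4^j / r) = z * 4^(j+1) / r := by rw [pow_succ]; ring
      rw [e] at h1
      have h2 : ∑ p ∈ (Ioc ⌊z * 4^j / r⌋₊ ⌊z * 4^(j+1) / r⌋₊).filter Nat.Prime, 1 / (p:ℝ) ≤
          massTo B₂ (z * 4^(j+1) / r) - massTo B₂ (z * 4^j / r) := by
        rw [massTo_sub _ _ _ hle2]
        apply sum_le_sum_of_subset_of_nonneg
        · intro p hp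
          rw [mem_filter, mem_Ioc] at hp
          have a1 : z * 4^j / r < p := (Nat.floor_lt (by positivity)).mp hp.1.1
          have a2 : (p:ℝ) ≤ z * 4^(j+1) / r := (Nat.le_floor_iff (by positivity)).mp hp.1.2
          rw [mem_filter]
          refine ⟨?_, a1, a2⟩
          by_contra hnot
          rw [div_lt_iff₀ hr0] at a1
          rw [le_div_iff₀ hr0] at a2
          have := hcon j hj p₁ p hp₁ hp.2 hc hnot ha hb (by linarith)
          linarith
        · intro _ _ _; positivity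
      have h3 : (1/8) / Real.log (z * 4^J) ≤ (1/8) / Real.log (z * 4^(j+1) / r) := by
        have h5 := hlog0 j hj
        rw [e] at h5
        apply div_le_div_of_nonneg_left (by norm_num) h5
        apply Real.log_le_log (by positivity)
        calc z * 4^(j+1) / r ≤ z * 4^(j+1) := div_le_self (by positivity) hr
          _ ≤ z * 4^J := by gcongr
      linarith
  have htot : ∑ j ∈ range J, (1/8) / Real.log (z * 4^J) ≤ ∑ j ∈ range J,
      ((massTo B₁ (z * 4^(j+1)) - massTo B₁ (z * 4^j)) +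
      (massTo B₂ (z * 4^(j+1) / r) - massTo B₂ (z * 4^j / r))) :=
    sum_le_sum fun j hj => step j (mem_range.mp hj)
  rw [sum_add_distrib, sum_range_sub (fun j => massTo B₁ (z * 4^j)),
    sum_range_sub (fun j => massTo B₂ (z * 4^j / r)), sum_const, card_range, nsmul_eq_mul] at htot
  have a1 := massTo_le B₁ (z * 4^J)
  have a2 := massTo_nonneg B₁ (z * 4^0)
  have a3 := massTo_le B₂ (z * 4^J / r)
  have a4 := massTo_nonneg B₂ (z * 4^0 / r)
  have a5 : massTo B₁ (z * 4^J) - massTo B₁ (z * 4^0) + (massTo B₂ (z * 4^J / r) - massTo B₂ (z * 4^0 / r))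
    ≤ (∑ p ∈ B₁, 1 / (p:ℝ)) + (∑ p ∈ B₂, 1 / (p:ℝ)) :=
    add_le_add ((sub_le_self _ a2).trans a1) ((sub_le_self _ a4).trans a3)
  exact absurd (lt_of_lt_of_le hmass (htot.trans a5)) (lt_irrefl _)

end Pool.Agent.helper76
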