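import Mathlib

/-! `∑ (log p)^2 / p` over primes. -/

namespace Pool.Agent.helper76

open Finset Real

lemma log_sq_dyadic (k : ℕ) :
    ∑ p ∈ (Ioc 0 (2^k)).filter Nat.Prime, (Real.log p)^2 / (p:ℝ) ≤ k * (k + 1) := by
  induction k with
  | zero =>
    have : (Ioc 0 (2^0)).filter Nat.Prime = ∅ := by
      ext p; simp only [mem_filter, mem_Ioc, pow_zero, notMem_empty, iff_false]
      rintro ⟨⟨h1, h2⟩, h3⟩
      have := h3.two_le; omega
    rw [this]; simp
  | succ k ih =>
    have hun : (Ioc 0 (2^(k+1))).filter Nat.Prime = (Ioc 0 (2^k)).filter Nat.Prime ∪ (Ioc (2^k) (2^(k+1))).filter Nat.Prime := by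
      ext p; simp only [mem_filter, mem_union, mem_Ioc]
      have : 2^k ≤ 2^(k+1) := Nat.pow_le_pow_right (by norm_num) (by omega)
      have hp : 0 < 2^k := by positivity
      constructor
      · rintro ⟨h3, h4⟩
        by_cases h5 : p ≤ 2^k
        · left; exact ⟨⟨h3.1, h5⟩, h4⟩
        · right; exact ⟨⟨by omega, h3.2⟩, h4⟩
      · rintro (⟨h3, h4⟩ | ⟨h3, h4⟩)
        · exact ⟨⟨h3.1, h3.2.trans this⟩, h4⟩
        · exact ⟨⟨by omega, h3.2⟩, h4⟩
    have hdisj : Disjoint ((Ioc 0 (2^k)).filter Nat.Prime) ((Ioc (2^k) (2^(k+1))).filter Nat.Prime) := by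
      rw [Finset.disjoint_left]
      intro p hp hp'
      rw [mem_filter, mem_Ioc] at hp hp'
      omega
    rw [hun, sum_union hdisj]
    have hlog2 : Real.log 2 < 0.7 := by have := Real.log_two_lt_d9; linarith
    have hlog2' : 0 < Real.log 2 := Real.log_pos (by norm_num)
    have h2k : (0:ℝ) < 2^k := by positivity
    have hterm : ∀ p ∈ (Ioc (2^k) (2^(k+1))).filter Nat.Prime,
        (Real.log p)^2 / (p:ℝ) ≤ ((k+1) * Real.log 2 / 2^k) * Real.log p := by
      intro p hp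
      rw [mem_filter, mem_Ioc] at hp
      have hp1 : (2:ℝ)^k < p := by exact_mod_cast hp.1.1
      have hp2 : (p:ℝ) ≤ 2^(k+1) := by exact_mod_cast hp.1.2
      have hp0 : (0:ℝ) < p := by linarith
      have hl : Real.log p ≤ (k+1) * Real.log 2 := by
        have := Real.log_le_log hp0 hp2
        rw [Real.log_pow] at this
        push_cast at this
        exact this
      have hl0 : 0 ≤ Real.log p := Real.log_nonneg (by exact_mod_cast hp.2.one_lt.le)
      calc (Real.log p)^2 / (p:ℝ) ≤ (Real.log p)^2 / 2^k := by gcongr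
        _ = (Real.log p * Real.log p) / 2^k := by rw [sq]
        _ ≤ (((k+1) * Real.log 2) * Real.log p) / 2^k := by gcongr
        _ = _ := by ring
    have h1 := sum_le_sum hterm
    rw [← mul_sum] at h1
    have h2 : ∑ p ∈ (Ioc (2^k) (2^(k+1))).filter Nat.Prime, Real.log p ≤ Chebyshev.theta ((2:ℝ)^(k+1)) := by
      rw [Chebyshev.theta_eq_sum_Icc]
      have : ⌊(2:ℝ)^(k+1)⌋₊ = 2^(k+1) := by
        have : ((2:ℝ)^(k+1)) = ((2^(k+1) : ℕ) : ℝ) := by push_cast; rfl
        rw [this, Nat.floor_natCast]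
      rw [this]
      apply sum_le_sum_of_subset_of_nonneg
      · intro p hp
        rw [mem_filter, mem_Ioc] at hp
        rw [mem_filter, mem_Icc]
        exact ⟨⟨Nat.zero_le _, hp.1.2⟩, hp.2⟩
      · intro p hp _
        rw [mem_filter] at hp
        exact Real.log_nonneg (by exact_mod_cast hp.2.one_lt.le)
    have h3 := Chebyshev.theta_le_log4_mul_x (x := (2:ℝ)^(k+1)) (by positivity)
    have hlog4' : Real.log 4 = 2 * Real.log 2 := by
      rw [show (4:ℝ) = 2^2 by norm_num, Real.log_pow]; norm_num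
    have h4 : ((k:ℝ)+1) * Real.log 2 / 2^k * ∑ p ∈ (Ioc (2^k) (2^(k+1))).filter Nat.Prime, Real.log p
        ≤ 2 * (k + 1) := by
      calc ((k:ℝ)+1) * Real.log 2 / 2^k * ∑ p ∈ (Ioc (2^k) (2^(k+1))).filter Nat.Prime, Real.log p
          ≤ ((k:ℝ)+1) * Real.log 2 / 2^k * (Real.log 4 * 2^(k+1)) := by
            apply mul_le_mul_of_nonneg_left (h2.trans h3); positivity
        _ = 4 * (Real.log 2)^2 * (k + 1) := by rw [hlog4', pow_succ]; field_simp; ring
        _ ≤ 2 * (k+1) := by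
            have : 4 * (Real.log 2)^2 ≤ 2 := by nlinarith
            gcongr
    push_cast
    nlinarith

/-- For primes `p` with `log p ≤ Z`, the sum of `(log p)^2/p` is at most `12 Z^2` (for `Z ≥ 1`). -/
lemma log_sq_sum (P : Finset ℕ) (Z : ℝ) (hZ : 1 ≤ Z) (hP : ∀ p ∈ P, p.Prime ∧ Real.log p ≤ Z) :
    ∑ p ∈ P, (Real.log p)^2 / (p:ℝ) ≤ 12 * Z^2 := by
  set k := ⌈Z / Real.log 2⌉₊ with hk
  have hlog2 : 0.69 < Real.log 2 := by have := Real.log_two_gt_d9; linarith
  have hlog20 : 0 < Real.log 2 := by linarith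
  have hk1 : Z / Real.log 2 ≤ k := Nat.le_ceil _
  have hk2 : (k:ℝ) < Z / Real.log 2 + 1 := Nat.ceil_lt_add_one (by positivity)
  have hk3 : (k:ℝ) ≤ 3 * Z := by
    have : Z / Real.log 2 ≤ 2 * Z := by
      rw [div_le_iff₀ hlog20]; nlinarith
    linarith
  have hsub : P ⊆ (Ioc 0 (2^k)).filter Nat.Prime := by
    intro p hp
    obtain ⟨h1, h2⟩ := hP p hp
    rw [mem_filter, mem_Ioc]
    refine ⟨⟨h1.pos, ?_⟩, h1⟩
    have hp0 : (0:ℝ) < p := by exact_mod_cast h1.pos
    rw [div_le_iff₀ hlog20] at hk1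
    have : Real.log p ≤ Real.log ((2:ℝ)^k) := by rw [Real.log_pow]; linarith
    have h3 : (p:ℝ) ≤ 2^k := (Real.log_le_log_iff hp0 (by positivity)).mp this
    exact_mod_cast h3
  have h1 := sum_le_sum_of_subset_of_nonneg (f := fun p : ℕ => (Real.log p)^2 / (p:ℝ)) hsub (fun _ _ _ => by positivity)
  have h2 := log_sq_dyadic k
  have hk0 : (0:ℝ) ≤ k := Nat.cast_nonneg k
  nlinarith

end Pool.Agent.helper76
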