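import Pool.Agent.helper76.Spread
import Pool.Agent.helper76.Primes
import Pool.Agent.helper76.Primes2

/-! Centres of concentration. -/

namespace Pool.Agent.helper76

open Finset

lemma propD0 (f : ℕ → ℝ) (hf : IsAdd f) (hd : SmallDesc f) (η : ℝ) (hη : 0 < η) :
    ∃ K N₀ : ℕ, 1 ≤ K ∧ ∀ N : ℕ, N₀ ≤ N → ∀ (ψ : ℝ → ℝ), (∀ x, |ψ x| ≤ 1) → Monotone ψ →
      ∀ P : Finset ℕ, (∀ p ∈ P, p.Prime ∧ K ≤ p ∧ p^3 ≤ N) →
      ∑ p ∈ P, (E (N / p) (fun m => ψ (f m + f p)) - E N (fun n => ψ (f n)))^2 / p ≤ η := by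
  obtain ⟨K, N₀, hK, h⟩ := propD f hf hd η hη 0 le_rfl
  refine ⟨K, N₀, hK, fun N hN ψ hψ hmono P hP => ?_⟩
  have := h N hN 0 ψ hψ hmono (fun x n _ => by simp) P hP
  simpa using this

lemma bad_mass (f : ℕ → ℝ) (hf : IsAdd f) (hd : SmallDesc f) (η : ℝ) (hη : 0 < η) :
    ∃ K M₀ : ℕ, 1 ≤ K ∧ ∀ M : ℕ, M₀ ≤ M → ∀ (lam : ℝ) (c : ℕ → ℝ), 0 ≤ lam →
      3/4 ≤ prI f M (c M) lam →
      ∀ P : Finset ℕ, (∀ p ∈ P, p.Prime ∧ K ≤ p ∧ p^3 ≤ M ∧ 3/4 ≤ prI f (M / p) (c (M / p)) lam ∧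
        lam < |c M - c (M / p) - f p|) →
      ∑ p ∈ P, 1 / (p:ℝ) ≤ η := by
  obtain ⟨K, M₀, hK, h⟩ := propD0 f hf hd (η / 16) (by positivity)
  refine ⟨K, M₀, hK, fun M hM lam c hlam hcM P hP => ?_⟩
  have h1 := h M hM (fun x => if c M ≤ x then (1:ℝ) else 0) (fun x => by split_ifs <;> norm_num) (mono_ge _)
    P (fun p hp => ⟨(hP p hp).1, (hP p hp).2.1, (hP p hp).2.2.1⟩)
  have h2 := h M hM (fun x => if c M + lam < x then (1:ℝ) else 0) (fun x => by split_ifs <;> norm_num) (mono_gt _)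
    P (fun p hp => ⟨(hP p hp).1, (hP p hp).2.1, (hP p hp).2.2.1⟩)
  have key : ∀ p ∈ P, 1 / (p:ℝ) ≤ 8 * ((E (M / p) (fun m => if c M ≤ f m + f p then (1:ℝ) else 0) -
        E M (fun n => if c M ≤ f n then (1:ℝ) else 0))^2 / p) +
      8 * ((E (M / p) (fun m => if c M + lam < f m + f p then (1:ℝ) else 0) -
        E M (fun n => if c M + lam < f n then (1:ℝ) else 0))^2 / p) := by
    intro p hp
    obtain ⟨hpp, hKp, hp3, hcp, hbad⟩ := hP p hp
    have hp0 : (0:ℝ) < p := by exact_mod_cast hpp.pos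
    have e1 : E (M / p) (fun m => if c M ≤ f m + f p then (1:ℝ) else 0) -
        E (M / p) (fun m => if c M + lam < f m + f p then (1:ℝ) else 0) = prI f (M / p) (c M - f p) lam := by
      rw [prI_eq _ _ _ _ hlam]
      congr 1
      · apply E_congr; intro n _ _
        have : (c M ≤ f n + f p) ↔ (c M - f p ≤ f n) := by constructor <;> intro h <;> linarith
        simp only [this]
      · apply E_congr; intro n _ _
        have : (c M + lam < f n + f p) ↔ (c M - f p + lam < f n) := by constructor <;> intro h <;> linarith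
        simp only [this]
    have e2 : E M (fun n => if c M ≤ f n then (1:ℝ) else 0) -
        E M (fun n => if c M + lam < f n then (1:ℝ) else 0) = prI f M (c M) lam := by
      rw [prI_eq _ _ _ _ hlam]
    have h3 : prI f (M / p) (c M - f p) lam ≤ 1/4 := by
      by_contra hcon
      have := overlap f (M / p) (c M - f p) (c (M / p)) lam (by linarith [not_le.mp hcon])
      have e3 : c M - f p - c (M / p) = c M - c (M / p) - f p := by ring
      rw [e3] at this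
      linarith
    set A1 := E (M / p) (fun m => if c M ≤ f m + f p then (1:ℝ) else 0)
    set A2 := E M (fun n => if c M ≤ f n then (1:ℝ) else 0)
    set A3 := E (M / p) (fun m => if c M + lam < f m + f p then (1:ℝ) else 0)
    set A4 := E M (fun n => if c M + lam < f n then (1:ℝ) else 0)
    have h4 : (A1 - A2) - (A3 - A4) ≤ -(1/2) := by linarith
    have h5 : 1 ≤ 8 * (A1 - A2)^2 + 8 * (A3 - A4)^2 := by
      nlinarith [sq_nonneg ((A1 - A2) + (A3 - A4)), sq_nonneg ((A1 - A2) - (A3 - A4) + 1/2)]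
    have e4 : 8 * ((A1 - A2)^2 / p) + 8 * ((A3 - A4)^2 / p) = (8 * (A1 - A2)^2 + 8 * (A3 - A4)^2) / p := by ring
    rw [e4]
    gcongr
  refine (sum_le_sum key).trans ?_
  rw [sum_add_distrib, ← mul_sum, ← mul_sum]
  linarith

lemma fixed_center (f : ℕ → ℝ) (hf : IsAdd f) (hd : SmallDesc f) (a : ℕ) (ha : 1 ≤ a) :
    ∃ M₀ : ℕ, ∀ M : ℕ, M₀ ≤ M → ∀ (lam : ℝ) (c : ℕ → ℝ), 0 ≤ lam →
      3/4 ≤ prI f M (c M) lam → 3/4 ≤ prI f (M / a) (c (M / a)) lam →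
      |c M - c (M / a) - f a| ≤ lam := by
  obtain ⟨M₀, h⟩ := fixed_interval f hf hd a ha (1/8) (by norm_num)
  refine ⟨M₀, fun M hM lam c hlam h1 h2 => ?_⟩
  have h3 := (abs_le.mp (h M hM (c M) lam hlam)).2
  have := overlap f (M / a) (c M - f a) (c (M / a)) lam (by linarith)
  have e3 : c M - f a - c (M / a) = c M - c (M / a) - f a := by ring
  rwa [e3] at this

lemma local_center (f : ℕ → ℝ) (M M' : ℕ) (hM' : 1 ≤ M') (h1 : M' ≤ M) (h2 : M ≤ 2 * M')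
    (lam c c' : ℝ) (hc : 3/4 ≤ prI f M c lam) (hc' : 3/4 ≤ prI f M' c' lam) : |c - c'| ≤ lam := by
  apply overlap f M'
  have hMr' : (0:ℝ) < M' := by exact_mod_cast hM'
  have hMr : (0:ℝ) < M := by exact_mod_cast lt_of_lt_of_le hM' h1
  have hM2 : (M:ℝ) ≤ 2 * M' := by exact_mod_cast h2
  have hMM : (M':ℝ) ≤ M := by exact_mod_cast h1
  set g : ℕ → ℝ := fun n => if c ≤ f n ∧ f n ≤ c + lam then 1 else 0 with hg
  have hg1 : ∀ n, g n ≤ 1 := fun n => by simp only [hg]; split_ifs <;> norm_num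
  have hs : ∑ n ∈ Ioc 0 M, g n = ∑ n ∈ Ioc 0 M', g n + ∑ n ∈ Ioc M' M, g n :=
    (Finset.sum_Ioc_consecutive g (Nat.zero_le _) h1).symm
  have hs2 : ∑ n ∈ Ioc M' M, g n ≤ M - M' := by
    calc ∑ n ∈ Ioc M' M, g n ≤ ∑ n ∈ Ioc M' M, (1:ℝ) := sum_le_sum fun n _ => hg1 n
      _ = M - M' := by simp [Nat.cast_sub h1]
  have hc1 : 3/4 * (M:ℝ) ≤ ∑ n ∈ Ioc 0 M, g n := by
    unfold prI E at hc
    rw [le_div_iff₀ hMr] at hc
    exact hc
  have hkey : 1/2 ≤ prI f M' c lam := by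
    unfold prI E
    rw [le_div_iff₀ hMr']
    change 1/2 * (M':ℝ) ≤ ∑ n ∈ Ioc 0 M', g n
    linarith
  linarith

lemma ratio_center (f : ℕ → ℝ) (hf : IsAdd f) (hd : SmallDesc f) (C : ℕ) :
    ∃ (M₀ : ℕ) (Λ : ℝ), 0 ≤ Λ ∧ ∀ (lam : ℝ) (c : ℕ → ℝ) (N : ℕ), Λ ≤ lam →
      (∀ M, 1 ≤ M → M < N → 3/4 ≤ prI f M (c M) lam) →
      ∀ M M' : ℕ, M₀ ≤ M' → M' ≤ M → M < N → M ≤ C * M' → |c M - c M'| ≤ 3 * lam := by
  have hex : ∀ a : ℕ, ∃ M₀ : ℕ, 1 ≤ a → ∀ M : ℕ, M₀ ≤ M → ∀ (lam : ℝ) (c : ℕ → ℝ), 0 ≤ lam →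
      3/4 ≤ prI f M (c M) lam → 3/4 ≤ prI f (M / a) (c (M / a)) lam →
      |c M - c (M / a) - f a| ≤ lam := by
    intro a
    by_cases ha : 1 ≤ a
    · obtain ⟨M₀, h⟩ := fixed_center f hf hd a ha
      exact ⟨M₀, fun _ => h⟩
    · exact ⟨0, fun h => absurd h ha⟩
  choose M₀ hM₀ using hex
  refine ⟨(∑ a ∈ range (C + 1), M₀ a) + 1, ∑ a ∈ range (C + 1), |f a|, sum_nonneg fun _ _ => abs_nonneg _, ?_⟩
  intro lam c N hlam hcen M M' hMM₀ hM'M hMN hMC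
  have hM'1 : 1 ≤ M' := by omega
  have hM1 : 1 ≤ M := by omega
  have hlam0 : 0 ≤ lam := le_trans (sum_nonneg fun _ _ => abs_nonneg _) hlam
  set a := M / M' with ha
  have ha1 : 1 ≤ a := by rw [ha, Nat.le_div_iff_mul_le (by omega)]; omega
  have haC : a ≤ C := by
    rw [ha]; exact Nat.div_le_of_le_mul (by rw [mul_comm]; exact hMC)
  have hfa : |f a| ≤ lam := by
    refine le_trans ?_ hlam
    exact single_le_sum (f := fun a => |f a|) (fun _ _ => abs_nonneg _) (by rw [mem_range]; omega)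
  have hM₀a : M₀ a ≤ M := by
    have : M₀ a ≤ ∑ a ∈ range (C + 1), M₀ a :=
      single_le_sum (f := fun a => M₀ a) (fun _ _ => Nat.zero_le _) (by rw [mem_range]; omega)
    omega
  have h3 : M' ≤ M / a := by
    rw [Nat.le_div_iff_mul_le (by omega), ha]
    rw [mul_comm]; exact Nat.div_mul_le_self M M'
  have h4 : M / a ≤ 2 * M' := by
    -- M < (a+1) * M'
    have h5 : M < M' * (a + 1) := by rw [ha]; exact Nat.lt_mul_div_succ M (by omega)
    apply Nat.div_le_of_le_mul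
    nlinarith
  have h5 : M / a ≤ M := Nat.div_le_self _ _
  have h6 := hM₀ a ha1 M hM₀a lam c hlam0 (hcen M hM1 hMN) (hcen (M / a) (by omega) (by omega))
  have h7 := local_center f (M / a) M' hM'1 h3 h4 lam (c (M / a)) (c M') (hcen _ (by omega) (by omega))
    (hcen _ hM'1 (by omega))
  rw [abs_le] at h6 h7 hfa ⊢
  constructor <;> linarith

end Pool.Agent.helper76
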