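import Pool.Agent.helper76.SieveEps

/-! Dilation by primes. -/

namespace Pool.Agent.helper76

open Finset

/-- additive over coprime factors -/
def IsAdd (f : ℕ → ℝ) : Prop :=
  ∀ a b : ℕ, 1 ≤ a → 1 ≤ b → Nat.Coprime a b → f (a * b) = f a + f b

lemma sum_multiples (N d : ℕ) (hd : 0 < d) (F : ℕ → ℝ) :
    ∑ n ∈ Ioc 0 N, (if d ∣ n then F n else 0) = ∑ m ∈ Ioc 0 (N / d), F (d * m) := by
  rw [← sum_filter]
  have : (Ioc 0 N).filter (fun n => d ∣ n) = (Ioc 0 (N / d)).image (fun m => d * m) := by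
    ext n
    rw [mem_filter, mem_Ioc, mem_image]
    constructor
    · rintro ⟨⟨h1, h2⟩, ⟨k, rfl⟩⟩
      refine ⟨k, ?_, rfl⟩
      rw [mem_Ioc, Nat.le_div_iff_mul_le hd]
      refine ⟨Nat.pos_of_mul_pos_left h1 |> fun h => ?_, by linarith⟩
      rcases Nat.eq_zero_or_pos k with rfl | hk
      · simp at h1
      · exact hk
    · rintro ⟨k, hk, rfl⟩
      rw [mem_Ioc, Nat.le_div_iff_mul_le hd] at hk
      exact ⟨⟨Nat.mul_pos hd hk.1, by linarith [hk.2]⟩, dvd_mul_right _ _⟩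
  rw [this, sum_image]
  intro a _ b _ h
  exact Nat.eq_of_mul_eq_mul_left hd h

lemma card_multiples (N d : ℕ) : ((Ioc 0 N).filter (fun n => d ∣ n)).card = N / d :=
  Nat.Ioc_filter_dvd_card_eq_div N d

lemma dilate_prime (g : ℕ → ℝ) (hg : IsAdd g) (ψ : ℝ → ℝ) (hψ : ∀ x, |ψ x| ≤ 1) (N p : ℕ)
    (hp : p.Prime) (hN : p^2 ≤ N) :
    |E N (fun n => ψ (g n) * ((if p ∣ n then (p:ℝ) else 0) - 1)) -
      (E (N / p) (fun m => ψ (g m + g p)) - E N (fun n => ψ (g n)))| ≤ 3 / p := by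
  have hp0 : 0 < p := hp.pos
  have hpr : (0:ℝ) < p := by exact_mod_cast hp0
  have hNpos : 0 < N := lt_of_lt_of_le (pow_pos hp0 2) hN
  have hNr : (0:ℝ) < N := by exact_mod_cast hNpos
  set M := N / p with hM
  have hMp : p ≤ M := by
    rw [hM, Nat.le_div_iff_mul_le hp0]; nlinarith
  have hMr : (0:ℝ) < M := by exact_mod_cast lt_of_lt_of_le hp0 hMp
  set S1 : ℝ := ∑ m ∈ Ioc 0 M, ψ (g (p * m)) with hS1
  set S2 : ℝ := ∑ m ∈ Ioc 0 M, ψ (g m + g p) with hS2
  have e1 : E N (fun n => ψ (g n) * ((if p ∣ n then (p:ℝ) else 0) - 1)) =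
      (p / N) * S1 - E N (fun n => ψ (g n)) := by
    have : ∀ n, ψ (g n) * ((if p ∣ n then (p:ℝ) else 0) - 1) =
      p * (if p ∣ n then ψ (g n) else 0) - ψ (g n) := by
      intro n; split_ifs <;> ring
    simp_rw [this]
    rw [E_sub, E_smul]
    congr 1
    unfold E
    rw [sum_multiples N p hp0 (fun n => ψ (g n))]
    simp only [hS1]; ring
  rw [e1]
  have e2 : E M (fun m => ψ (g m + g p)) = (1 / M) * S2 := by
    unfold E; rw [hS2]; ring
  rw [e2]
  have hd : |S1 - S2| ≤ 2 * (M / p) := by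
    rw [hS1, hS2, ← sum_sub_distrib]
    refine (abs_sum_le_sum_abs _ _).trans ?_
    calc ∑ m ∈ Ioc 0 M, |ψ (g (p * m)) - ψ (g m + g p)|
        ≤ ∑ m ∈ Ioc 0 M, (if p ∣ m then (2:ℝ) else 0) := by
          apply sum_le_sum
          intro m hm
          rw [mem_Ioc] at hm
          split_ifs with h
          · have a1 := abs_le.mp (hψ (g (p * m)))
            have a2 := abs_le.mp (hψ (g m + g p))
            rw [abs_le]; constructor <;> linarith
          · have hc : Nat.Coprime p m := (Nat.Prime.coprime_iff_not_dvd hp).mpr h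
            rw [hg p m hp0 hm.1 hc, add_comm (g p)]; simp
      _ = 2 * ((M / p : ℕ) : ℝ) := by
          rw [← sum_filter, sum_const, card_multiples, nsmul_eq_mul, mul_comm]
      _ ≤ 2 * (M / p) := by
          have := @Nat.cast_div_le ℝ _ _ _ M p
          linarith
  have hS2b : |S2| ≤ M := by
    rw [hS2]
    refine (abs_sum_le_sum_abs _ _).trans ?_
    calc ∑ m ∈ Ioc 0 M, |ψ (g m + g p)| ≤ ∑ m ∈ Ioc 0 M, (1:ℝ) := sum_le_sum fun m _ => hψ _
      _ = M := by simp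
  have hMle : (p:ℝ) * M ≤ N := by
    have : p * (N / p) ≤ N := Nat.mul_div_le N p
    exact_mod_cast this
  have hMge : (N:ℝ) ≤ p * M + p := by
    have : N < p * (N / p + 1) := Nat.lt_mul_div_succ N hp0
    have h2 : N ≤ p * (N/p) + p := by nlinarith
    exact_mod_cast h2
  have hpN : (p:ℝ) / N ≤ 1 / p := by
    rw [div_le_div_iff₀ hNr hpr]
    have : (p:ℝ)^2 ≤ N := by exact_mod_cast hN
    nlinarith
  have key : (p / N) * S1 - E N (fun n => ψ (g n)) - ((1 / M) * S2 - E N (fun n => ψ (g n)))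
      = (p / N) * (S1 - S2) + (p / N - 1 / M) * S2 := by ring
  rw [key]
  refine (abs_add_le _ _).trans ?_
  rw [abs_mul, abs_mul]
  have t1 : |(p:ℝ) / N| * |S1 - S2| ≤ 2 / p := by
    rw [abs_of_nonneg (by positivity)]
    calc (p:ℝ) / N * |S1 - S2| ≤ p / N * (2 * (M / p)) := by gcongr
      _ = 2 * M / N := by field_simp
      _ ≤ 2 / p := by
        rw [div_le_div_iff₀ hNr hpr]; nlinarith
  have t2 : |(p:ℝ) / N - 1 / M| * |S2| ≤ 1 / p := by
    have : |(p:ℝ) / N - 1 / M| ≤ (1 / p) / M := by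
      have e : (p:ℝ) / N - 1 / M = - ((N - p * M) / (N * M)) := by field_simp; ring
      rw [e, abs_neg, abs_of_nonneg (by apply div_nonneg; linarith; positivity)]
      calc ((N:ℝ) - p * M) / (N * M) ≤ p / (N * M) := by gcongr; linarith
        _ = (p / N) / M := by field_simp
        _ ≤ (1 / p) / M := by gcongr
    calc |(p:ℝ) / N - 1 / M| * |S2| ≤ (1 / p) / M * M := by gcongr
      _ = 1 / p := by field_simp
  have : (3:ℝ) / p = 2 / p + 1 / p := by ring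
  linarith

lemma sum_inv_sq_tail (P : Finset ℕ) (K : ℕ) (hK : 1 ≤ K) (hP : ∀ p ∈ P, K ≤ p) :
    ∑ p ∈ P, 1 / (p:ℝ)^2 ≤ (2:ℝ) / K := by
  have hKr : (0:ℝ) < K := by exact_mod_cast hK
  obtain ⟨M, hM⟩ : ∃ M, ∀ p ∈ P, p < M := by
    refine ⟨P.sup id + 1, fun p hp => ?_⟩
    have := Finset.le_sup (f := id) hp
    simp at this; omega
  have hsub : P ⊆ Ico K M := fun p hp => by rw [mem_Ico]; exact ⟨hP p hp, hM p hp⟩
  refine (sum_le_sum_of_subset_of_nonneg hsub (fun _ _ _ => by positivity)).trans ?_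
  have gen : ∀ n : ℕ, K ≤ n → ∑ p ∈ Ico K n, 1 / (p:ℝ)^2 ≤ (2:ℝ) / K - 2 / n := by
    intro n hn
    induction n, hn using Nat.le_induction with
    | base => simp
    | succ k hk ih =>
      rw [sum_Ico_succ_top hk]
      have hkr : (0:ℝ) < k := lt_of_lt_of_le hKr (by exact_mod_cast hk)
      have hk1 : (1:ℝ) ≤ k := by exact_mod_cast le_trans hK hk
      have : 1 / (k:ℝ)^2 ≤ 2 / k - 2 / (k + 1) := by
        have e : 2 / (k:ℝ) - 2 / (k + 1) = 2 / (k * (k+1)) := by field_simp; ring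
        rw [e, div_le_div_iff₀ (by positivity) (by positivity)]
        nlinarith
      push_cast
      linarith
  rcases le_total K M with h | h
  · have h1 := gen M h
    have : (0:ℝ) ≤ 2 / M := by positivity
    linarith
  · rw [Finset.Ico_eq_empty_of_le h, sum_empty]; positivity

/-- Proposition D. -/
lemma propD (f : ℕ → ℝ) (hf : IsAdd f) (hd : SmallDesc f) (η : ℝ) (hη : 0 < η) (B : ℝ) (hB : 0 ≤ B) :
    ∃ K N₀ : ℕ, 1 ≤ K ∧ ∀ N : ℕ, N₀ ≤ N → ∀ (b : ℝ) (ψ : ℝ → ℝ), (∀ x, |ψ x| ≤ 1) → Monotone ψ →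
      (∀ (x : ℝ) (n : ℕ), 1 ≤ n → ψ x - B / n ≤ ψ (x - b * (Real.log (n + 1) - Real.log n))) →
      ∀ P : Finset ℕ, (∀ p ∈ P, p.Prime ∧ K ≤ p ∧ p^3 ≤ N) →
      ∑ p ∈ P, (E (N / p) (fun m => ψ ((f m - b * Real.log m) + (f p - b * Real.log p))) -
        E N (fun n => ψ (f n - b * Real.log n)))^2 / p ≤ η := by
  obtain ⟨ε, N₁, hε, hN₁, h1⟩ := sieve_cube (η / 4) (by positivity)
  obtain ⟨N₂, h2⟩ := var_small f hd ε hε B hB
  obtain ⟨K, hK⟩ : ∃ K : ℕ, 72 / η < K := exists_nat_gt _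
  have hK0 : (0:ℝ) < K := lt_trans (by positivity) hK
  have hK1 : 1 ≤ K := by exact_mod_cast Nat.one_le_iff_ne_zero.mpr (by rintro rfl; simp at hK0)
  refine ⟨K, max N₁ N₂, hK1, ?_⟩
  intro N hN b ψ hψ hmono hlip P hP
  have hN1 : N₁ ≤ N := le_trans (le_max_left _ _) hN
  have hN2 : N₂ ≤ N := le_trans (le_max_right _ _) hN
  set g : ℕ → ℝ := fun n => f n - b * Real.log n with hg
  have hgadd : IsAdd g := by
    intro x y hx hy hxy
    simp only [hg]
    rw [hf x y hx hy hxy]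
    have hx' : (x:ℝ) ≠ 0 := by positivity
    have hy' : (y:ℝ) ≠ 0 := by positivity
    push_cast
    rw [Real.log_mul hx' hy']; ring
  set w : ℕ → ℝ := fun n => ψ (g n) with hw
  have hwb : ∀ n, |w n| ≤ 1 := fun n => hψ _
  have hV : V (2 * N) w ≤ ε * N := by
    apply h2 N hN2 w hwb
    intro n hn hdn
    simp only [hw, hg]
    have hdn := not_lt.mp hdn
    have a1 := hlip (f n - b * Real.log n) n hn
    refine a1.trans (hmono ?_)
    push_cast
    linarith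
  have h3 := h1 N hN1 w hwb hV P (fun p hp => ⟨(hP p hp).1, (hP p hp).2.2⟩)
  have h4 : ∀ p ∈ P, (E (N / p) (fun m => ψ (g m + g p)) - E N (fun n => ψ (g n)))^2 / p ≤
      2 * ((E N (fun n => w n * ((if p ∣ n then (p:ℝ) else 0) - 1)))^2 / p) + 18 * (1 / (p:ℝ)^2) := by
    intro p hp
    obtain ⟨hpp, hKp, hp3⟩ := hP p hp
    have hpr : (1:ℝ) ≤ p := by exact_mod_cast hpp.one_lt.le
    have hp2 : p^2 ≤ N := le_trans (Nat.pow_le_pow_right hpp.pos (by norm_num)) hp3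
    have h5 := dilate_prime g hgadd ψ hψ N p hpp hp2
    set A := E N (fun n => ψ (g n) * ((if p ∣ n then (p:ℝ) else 0) - 1)) with hA
    set D := (E (N / p) (fun m => ψ (g m + g p)) - E N (fun n => ψ (g n))) with hD
    have h6 : D^2 ≤ 2 * A^2 + 2 * (3 / p)^2 := by
      have h7 : (A - D)^2 ≤ (3 / (p:ℝ))^2 := by
        rw [← sq_abs]; gcongr
      nlinarith [sq_nonneg (2 * A - D), sq_nonneg (A - (A - D)), sq_nonneg (A + (A - D))]
    have h8 : D^2 / p ≤ (2 * A^2 + 2 * (3 / p)^2) / p := by gcongr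
    refine h8.trans ?_
    have h9 : (2 * A^2 + 2 * (3 / (p:ℝ))^2) / p = 2 * (A^2 / p) + 18 * (1 / (p:ℝ)^3) := by
      field_simp; ring
    rw [h9]
    have h10 : 1 / (p:ℝ)^3 ≤ 1 / (p:ℝ)^2 := by
      apply one_div_le_one_div_of_le (by positivity)
      nlinarith [sq_nonneg (p:ℝ)]
    linarith
  have h5 := sum_le_sum h4
  rw [sum_add_distrib, ← mul_sum, ← mul_sum] at h5
  have h6 := sum_inv_sq_tail P K hK1 (fun p hp => (hP p hp).2.1)
  have h7 : 18 * ((2:ℝ) / K) ≤ η / 2 := by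
    rw [div_lt_iff₀ hη] at hK
    rw [← mul_div_assoc, div_le_iff₀ hK0]
    nlinarith
  calc _ ≤ _ := h5
    _ ≤ 2 * (η / 4) + 18 * ((2:ℝ) / K) := by gcongr
    _ ≤ η := by linarith

end Pool.Agent.helper76
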