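import Pool.Agent.helper76.Dilate

/-! Dilation by a fixed integer. -/

namespace Pool.Agent.helper76

open Finset

lemma block_lemma (w : ℕ → ℝ) (hw : ∀ n, |w n| ≤ 1) (q r N : ℕ) (hq : 1 ≤ q) (hr : 1 ≤ r) (hrq : r ≤ q) :
    |∑ n ∈ Ioc 0 N, w n - q * ∑ k ∈ range (N / q), w (q * k + r)| ≤ q * V N w + q := by
  have hblock : ∀ K : ℕ, |∑ n ∈ Ioc 0 (q * K), w n - q * ∑ k ∈ range K, w (q * k + r)| ≤ q * V (q * K) w := by
    intro K
    induction K with
    | zero => simp [V]
    | succ K ih =>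
      have e1 : q * (K + 1) = q * K + q := by ring
      have s1 : ∑ n ∈ Ioc 0 (q * (K+1)), w n = ∑ n ∈ Ioc 0 (q * K), w n + ∑ n ∈ Ioc (q * K) (q * K + q), w n := by
        rw [e1]; exact (Finset.sum_Ioc_consecutive w (Nat.zero_le _) (Nat.le_add_right _ _)).symm
      have s2 : V (q * (K+1)) w = V (q * K) w + ∑ n ∈ Ioc (q * K) (q * K + q), |w (n+1) - w n| := by
        unfold V
        rw [e1]; exact (Finset.sum_Ioc_consecutive _ (Nat.zero_le _) (Nat.le_add_right _ _)).symm
      rw [s1, s2, sum_range_succ]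
      set D := ∑ n ∈ Ioc (q * K) (q * K + q), |w (n+1) - w n| with hD
      -- each value in the block is within D of w (q*K + r)
      have hval : ∀ n ∈ Ioc (q * K) (q * K + q), |w n - w (q * K + r)| ≤ D := by
        intro n hn
        rw [mem_Ioc] at hn
        have step : ∀ a b : ℕ, q * K < a → a ≤ b → b ≤ q * K + q → |w b - w a| ≤ D := by
          intro a b ha hab hb
          have tele : ∀ c, a ≤ c → |w c - w a| ≤ ∑ n ∈ Ico a c, |w (n+1) - w n| := by
            intro c hc
            induction c, hc using Nat.le_induction with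
            | base => simp
            | succ m hm ihm =>
              rw [sum_Ico_succ_top hm]
              have : w (m+1) - w a = (w m - w a) + (w (m+1) - w m) := by ring
              rw [this]
              exact (abs_add_le _ _).trans (by linarith)
          refine (tele b hab).trans ?_
          apply sum_le_sum_of_subset_of_nonneg
          · intro m hm
            rw [mem_Ico] at hm
            rw [mem_Ioc]; omega
          · intro _ _ _; exact abs_nonneg _
        rcases le_total n (q * K + r) with h | h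
        · rw [abs_sub_comm]; exact step n (q*K+r) hn.1 h (by omega)
        · exact step (q*K+r) n (by omega) h hn.2
      have hsum : |∑ n ∈ Ioc (q * K) (q * K + q), w n - q * w (q * K + r)| ≤ q * D := by
        have : (q:ℝ) * w (q * K + r) = ∑ n ∈ Ioc (q * K) (q * K + q), w (q * K + r) := by simp
        rw [this, ← sum_sub_distrib]
        refine (abs_sum_le_sum_abs _ _).trans ((sum_le_sum hval).trans ?_)
        simp
      have : ∑ n ∈ Ioc 0 (q * K), w n + ∑ n ∈ Ioc (q * K) (q * K + q), w n - q * (∑ k ∈ range K, w (q * k + r) + w (q * K + r))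
        = (∑ n ∈ Ioc 0 (q * K), w n - q * ∑ k ∈ range K, w (q * k + r)) + (∑ n ∈ Ioc (q * K) (q * K + q), w n - q * w (q * K + r)) := by ring
      rw [this]
      refine (abs_add_le _ _).trans ?_
      linarith
  have h1 := hblock (N / q)
  have hle : q * (N / q) ≤ N := Nat.mul_div_le N q
  have s1 : ∑ n ∈ Ioc 0 N, w n = ∑ n ∈ Ioc 0 (q * (N / q)), w n + ∑ n ∈ Ioc (q * (N/q)) N, w n :=
    (Finset.sum_Ioc_consecutive w (Nat.zero_le _) hle).symm
  have h2 : |∑ n ∈ Ioc (q * (N/q)) N, w n| ≤ q := by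
    refine (abs_sum_le_sum_abs _ _).trans ?_
    calc ∑ n ∈ Ioc (q * (N/q)) N, |w n| ≤ ∑ n ∈ Ioc (q * (N/q)) N, (1:ℝ) := sum_le_sum fun n _ => hw n
      _ = ((N - q * (N / q) : ℕ) : ℝ) := by simp
      _ ≤ q := by
        have : N - q * (N/q) ≤ q := by
          have := Nat.lt_mul_div_succ N (by omega : 0 < q)
          have h3 : q * (N / q + 1) = q * (N/q) + q := by ring
          omega
        exact_mod_cast this
  have h3 : V (q * (N / q)) w ≤ V N w := V_mono hle w
  rw [s1]
  have : ∑ n ∈ Ioc 0 (q * (N / q)), w n + ∑ n ∈ Ioc (q * (N/q)) N, w n - q * ∑ k ∈ range (N / q), w (q * k + r)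
    = (∑ n ∈ Ioc 0 (q * (N / q)), w n - q * ∑ k ∈ range (N / q), w (q * k + r)) + ∑ n ∈ Ioc (q * (N/q)) N, w n := by ring
  rw [this]
  refine (abs_add_le _ _).trans ?_
  have : (q:ℝ) * V (q * (N / q)) w ≤ q * V N w := by gcongr
  linarith

lemma fixed_dilate (f : ℕ → ℝ) (hf : IsAdd f) (hd : SmallDesc f) (a : ℕ) (ha : 1 ≤ a) (ρ : ℝ) (hρ : 0 < ρ) :
    ∃ N₀ : ℕ, ∀ N : ℕ, N₀ ≤ N → ∀ ψ : ℝ → ℝ, (∀ x, |ψ x| ≤ 1) → Monotone ψ →
      |E N (fun n => ψ (f n)) - E (N / a) (fun m => ψ (f m + f a))| ≤ ρ := by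
  have har : (1:ℝ) ≤ a := by exact_mod_cast ha
  have har0 : (0:ℝ) < a := by linarith
  obtain ⟨N₁, h1⟩ := var_small f hd (ρ / (8 * a^2)) (by positivity) 0 le_rfl
  obtain ⟨N₂, h2⟩ : ∃ N₂ : ℕ, 16 * (a:ℝ)^2 / ρ < N₂ := exists_nat_gt _
  refine ⟨a * (N₁ + N₂ + 1), ?_⟩
  intro N hN ψ hψ hmono
  set M := N / a with hM
  have hMge : N₁ + N₂ + 1 ≤ M := by
    rw [hM, Nat.le_div_iff_mul_le (by omega)]; linarith
  have hNM : M ≤ N := Nat.div_le_self _ _
  have hMr : (0:ℝ) < M := by exact_mod_cast (by omega : 0 < M)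
  have hNr : (0:ℝ) < N := by exact_mod_cast (by omega : 0 < N)
  have hNbig : 16 * (a:ℝ)^2 / ρ < M := lt_of_lt_of_le h2 (by exact_mod_cast (by omega : N₂ ≤ M))
  set w : ℕ → ℝ := fun n => ψ (f n) with hw
  set u : ℕ → ℝ := fun m => ψ (f m + f a) with hu
  have hVw : V N w ≤ ρ / (8 * a^2) * N := by
    refine (V_mono (by omega) w).trans (h1 N (by omega) w (fun n => hψ _) ?_)
    intro n _ hdn
    simp only [hw, zero_div, sub_zero]
    exact hmono (not_lt.mp hdn)
  have hVu : V M u ≤ ρ / (8 * a^2) * M := by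
    refine (V_mono (by omega) u).trans (h1 M (by omega) u (fun n => hψ _) ?_)
    intro n _ hdn
    simp only [hu, zero_div, sub_zero]
    exact hmono (by linarith [not_lt.mp hdn])
  have b1 := block_lemma w (fun n => hψ _) (a * a) a N (by nlinarith) ha (by nlinarith)
  have b2 := block_lemma u (fun n => hψ _) a 1 M ha le_rfl ha
  have hK : M / a = N / (a * a) := by rw [hM, Nat.div_div_eq_div_mul]
  have hX : ∑ k ∈ range (N / (a * a)), w (a * a * k + a) = ∑ k ∈ range (M / a), u (a * k + 1) := by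
    rw [hK]
    apply sum_congr rfl
    intro k _
    simp only [hw, hu]
    have e : a * a * k + a = (a * k + 1) * a := by ring
    have hc : Nat.Coprime (a * k + 1) a := by
      rw [Nat.coprime_comm]; simp
    rw [e, hf (a * k + 1) a (by omega) ha hc]
  rw [hX] at b1
  set X := ∑ k ∈ range (M / a), u (a * k + 1) with hXd
  have hXb : |X| ≤ M := by
    refine (abs_sum_le_sum_abs _ _).trans ?_
    calc ∑ k ∈ range (M / a), |u (a * k + 1)| ≤ ∑ k ∈ range (M / a), (1:ℝ) := sum_le_sum fun n _ => hψ _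
      _ = ((M / a : ℕ) : ℝ) := by simp
      _ ≤ M := by exact_mod_cast Nat.div_le_self _ _
  push_cast at b1
  -- E N w vs a^2 X / N
  have c1 : |E N w - (a * a) * X / N| ≤ ρ / 4 := by
    have : E N w - (a * a) * X / N = (∑ n ∈ Ioc 0 N, w n - (a * a) * X) / N := by unfold E; ring
    rw [this, abs_div, abs_of_pos hNr, div_le_iff₀ hNr]
    refine b1.trans ?_
    have : (a:ℝ) * a * V N w ≤ a * a * (ρ / (8 * a^2) * N) := by gcongr
    have e : (a:ℝ) * a * (ρ / (8 * a^2) * N) = ρ / 8 * N := by field_simp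
    have h3 : (a:ℝ) * a ≤ ρ / 8 * N := by
      rw [div_lt_iff₀ hρ] at hNbig
      have : (M:ℝ) ≤ N := by exact_mod_cast hNM
      nlinarith
    linarith
  have c2 : |E M u - a * X / M| ≤ ρ / 4 := by
    have : E M u - a * X / M = (∑ n ∈ Ioc 0 M, u n - a * X) / M := by unfold E; ring
    rw [this, abs_div, abs_of_pos hMr, div_le_iff₀ hMr]
    refine b2.trans ?_
    have : (a:ℝ) * V M u ≤ a * a * (ρ / (8 * a^2) * M) := by
      have h0 : (0:ℝ) ≤ ρ / (8 * a^2) * M := by positivity
      calc (a:ℝ) * V M u ≤ a * (ρ / (8 * a^2) * M) := by gcongr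
        _ ≤ a * a * (ρ / (8 * a^2) * M) := by
            rw [mul_assoc]
            apply mul_le_mul_of_nonneg_left _ har0.le
            exact le_mul_of_one_le_left h0 har
    have e : (a:ℝ) * a * (ρ / (8 * a^2) * M) = ρ / 8 * M := by field_simp
    have h3 : (a:ℝ) ≤ ρ / 8 * M := by
      rw [div_lt_iff₀ hρ] at hNbig
      nlinarith
    linarith
  have c3 : |(a * a) * X / N - a * X / M| ≤ ρ / 4 := by
    have e : (a * a) * X / N - a * X / M = - (a * (N - a * M) / (N * M) * X) := by field_simp; ring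
    rw [e, abs_neg, abs_mul]
    have hMle : (a:ℝ) * M ≤ N := by
      have : a * (N / a) ≤ N := Nat.mul_div_le N a
      exact_mod_cast this
    have hMge' : (N:ℝ) ≤ a * M + a := by
      have : N < a * (N / a + 1) := Nat.lt_mul_div_succ N (by omega)
      have h2 : N ≤ a * (N/a) + a := by nlinarith
      exact_mod_cast h2
    rw [abs_of_nonneg (by apply div_nonneg; apply mul_nonneg har0.le; linarith; positivity)]
    calc (a:ℝ) * (N - a * M) / (N * M) * |X| ≤ a * a / (N * M) * M := by
          gcongr; linarith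
      _ = a * a / N := by field_simp
      _ ≤ ρ / 4 := by
        rw [div_le_iff₀ hNr]
        rw [div_lt_iff₀ hρ] at hNbig
        have : (M:ℝ) ≤ N := by exact_mod_cast hNM
        nlinarith
  have := abs_sub_le (E N w) ((a * a) * X / N) (E M u)
  have t2 := abs_sub_le ((a * a) * X / N) (a * X / M) (E M u)
  rw [abs_sub_comm (a * X / M)] at t2
  change |E N w - E M u| ≤ ρ
  linarith

end Pool.Agent.helper76
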