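import Mathlib

/-! A Hyers-Ulam type statement on an interval. -/

namespace Pool.Agent.helper76

/-- If increments of `h` on `[A, A+T]` are translation invariant up to `K`, then `h` is affine
up to `3K` there. -/
lemma hyers_ulam (h : ℝ → ℝ) (A T K B₀ : ℝ) (hT : 0 < T) (hK : 0 ≤ K)
    (hB₀ : ∀ V, A ≤ V → V ≤ A + T → |h V| ≤ B₀)
    (hinv : ∀ V₁ V₂ v, V₁ ≤ A + T → V₂ ≤ A + T → 0 ≤ v → A ≤ V₁ - v → A ≤ V₂ - v →
      |(h V₁ - h (V₁ - v)) - (h V₂ - h (V₂ - v))| ≤ K) :
    ∃ β : ℝ, ∀ v, 0 ≤ v → v ≤ T → |h (A + T) - h (A + T - v) - β * v| ≤ 3 * K := by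
  set β := (h (A + T) - h A) / T with hβ
  have hβT : β * T = h (A + T) - h A := by rw [hβ]; field_simp
  refine ⟨β, ?_⟩
  set r : ℝ → ℝ := fun v => h (A + T) - h (A + T - v) with hr
  have hrT : r T = β * T := by simp only [hr]; rw [hβT]; ring_nf
  -- doubling
  have hdouble : ∀ v, 0 ≤ v → v ≤ T / 2 → |r (2 * v) - 2 * r v| ≤ K := by
    intro v hv hv2
    have := hinv (A + T - v) (A + T) v (by linarith) le_rfl hv (by linarith) (by linarith)
    have e : r (2 * v) - 2 * r v = (h (A + T - v) - h (A + T - v - v)) - (h (A + T) - h (A + T - v)) := by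
      simp only [hr]
      have : A + T - 2 * v = A + T - v - v := by ring
      rw [this]; ring
    rw [e]; exact this
  have hsplit : ∀ v, 0 ≤ v → v ≤ T → |r T - r v - r (T - v)| ≤ K := by
    intro v hv hv2
    have := hinv (A + T - v) (A + T) (T - v) (by linarith) le_rfl (by linarith) (by linarith) (by linarith)
    have e : r T - r v - r (T - v) = (h (A + T - v) - h (A + T - v - (T - v))) - (h (A + T) - h (A + T - (T - v))) := by
      simp only [hr]
      have : A + T - T = A + T - v - (T - v) := by ring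
      rw [this]; ring
    rw [e]; exact this
  have hiter : ∀ k : ℕ, ∀ v, 0 ≤ v → v ≤ T → |r v - β * v| ≤ (2 * B₀ + |β| * T) / 2^k + 3 * K := by
    intro k
    induction k with
    | zero =>
      intro v hv hvT
      have h1 := hB₀ (A + T) (by linarith) le_rfl
      have h2 := hB₀ (A + T - v) (by linarith) (by linarith)
      have h3 : |β * v| ≤ |β| * T := by
        rw [abs_mul, abs_of_nonneg hv]
        exact mul_le_mul_of_nonneg_left hvT (abs_nonneg _)
      simp only [hr, pow_zero, div_one]
      rw [abs_le] at h1 h2 h3 ⊢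
      constructor <;> linarith
    | succ k ih =>
      -- small v
      have hsmall : ∀ v, 0 ≤ v → v ≤ T / 2 → |r v - β * v| ≤ ((2 * B₀ + |β| * T) / 2^k + 3 * K + K) / 2 := by
        intro v hv hv2
        have h1 := ih (2 * v) (by linarith) (by linarith)
        have h2 := hdouble v hv hv2
        rw [abs_le] at h1 h2 ⊢
        constructor <;> linarith
      have e : (2 * B₀ + |β| * T) / 2^(k+1) = (2 * B₀ + |β| * T) / 2^k / 2 := by
        rw [pow_succ]; field_simp
      intro v hv hvT
      rw [e]
      rcases le_total v (T / 2) with h | h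
      · refine (hsmall v hv h).trans ?_
        linarith
      · have h1 := hsmall (T - v) (by linarith) (by linarith)
        have h2 := hsplit v hv hvT
        rw [abs_le] at h1 h2 ⊢
        have e2 : β * (T - v) = β * T - β * v := by ring
        rw [e2] at h1
        constructor <;> linarith
  intro v hv hvT
  change |r v - β * v| ≤ 3 * K
  apply le_of_forall_pos_le_add
  intro ε hε
  have hlim : Filter.Tendsto (fun k : ℕ => (2 * B₀ + |β| * T) / (2:ℝ)^k) Filter.atTop (nhds 0) := by
    have h1 : Filter.Tendsto (fun k : ℕ => ((1:ℝ)/2)^k) Filter.atTop (nhds 0) :=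
      tendsto_pow_atTop_nhds_zero_of_lt_one (by norm_num) (by norm_num)
    have h2 := h1.const_mul (2 * B₀ + |β| * T)
    rw [mul_zero] at h2
    refine h2.congr (fun k => ?_)
    rw [one_div, inv_pow]; rfl
  obtain ⟨k, hk⟩ := (hlim.eventually (gt_mem_nhds hε)).exists
  have := hiter k v hv hvT
  linarith

end Pool.Agent.helper76
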