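import Pool.Agent.helper76.Centers

/-! Increments of the centre function are almost translation invariant on the log scale. -/

namespace Pool.Agent.helper76

open Finset

lemma log4_bounds : 1.38 < Real.log 4 ∧ Real.log 4 < 1.4 := by
  have hlog4 : Real.log 4 = 2 * Real.log 2 := by
    rw [show (4:ℝ) = 2^2 by norm_num, Real.log_pow]; norm_num
  have h1 := Real.log_two_gt_d9
  have h2 := Real.log_two_lt_d9
  constructor <;> linarith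

lemma window_numeric (T : ℝ) (hT : 10 ≤ T) :
    Real.exp (2 * T) * 4^⌊2 * T / Real.log 4⌋₊ ≤ Real.exp (4 * T) ∧
    4 * (1/300 : ℝ) < (⌊2 * T / Real.log 4⌋₊ : ℝ) *
      ((1/8) / Real.log (Real.exp (2 * T) * 4^⌊2 * T / Real.log 4⌋₊)) := by
  obtain ⟨hl1, hl2⟩ := log4_bounds
  have hlog4p : 0 < Real.log 4 := by linarith
  set J := ⌊2 * T / Real.log 4⌋₊ with hJ
  have hJ1 : (J:ℝ) ≤ 2 * T / Real.log 4 := Nat.floor_le (by positivity)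
  have hJ2 : 2 * T / Real.log 4 < J + 1 := Nat.lt_floor_add_one _
  have hJT : (J:ℝ) * Real.log 4 ≤ 2 * T := by rwa [le_div_iff₀ hlog4p] at hJ1
  have hJT2 : 2 * T - Real.log 4 < J * Real.log 4 := by
    rw [div_lt_iff₀ hlog4p] at hJ2; linarith
  have hz4J : Real.exp (2 * T) * 4^J ≤ Real.exp (4 * T) := by
    have h1 : (4:ℝ)^J = Real.exp (J * Real.log 4) := by
      rw [mul_comm, Real.exp_mul, Real.exp_log (by norm_num), Real.rpow_natCast]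
    rw [h1, ← Real.exp_add]
    apply Real.exp_le_exp.mpr; linarith
  refine ⟨hz4J, ?_⟩
  have hlogz : Real.log (Real.exp (2 * T) * 4^J) ≤ 4 * T := by
    have := Real.log_le_log (by positivity) hz4J
    rwa [Real.log_exp] at this
  have hlogz0 : 0 < Real.log (Real.exp (2 * T) * 4^J) := by
    rw [Real.log_mul (Real.exp_pos _).ne' (by positivity), Real.log_exp, Real.log_pow]
    positivity
  have h1 : (1/8) / (4 * T) ≤ (1/8) / Real.log (Real.exp (2 * T) * 4^J) := by gcongr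
  have h3 : T ≤ J * 1.4 := by
    have : (J:ℝ) * Real.log 4 ≤ J * 1.4 := by gcongr
    linarith
  calc 4 * (1/300 : ℝ) < (T / 1.4) * ((1/8) / (4 * T)) := by
        have : (T / 1.4) * ((1/8) / (4 * T)) = 1 / 44.8 := by field_simp; norm_num
        rw [this]; norm_num
    _ ≤ J * ((1/8) / (4 * T)) := by
        apply mul_le_mul_of_nonneg_right _ (by positivity)
        rw [div_le_iff₀ (by norm_num)]; exact h3
    _ ≤ _ := by gcongr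

lemma exp_floor_big (T : ℝ) (hT : 1 ≤ T) (V : ℝ) (hV : 19 * T ≤ V) : Real.exp (12 * T) ≤ ⌊Real.exp V⌋₊ := by
  have h1 : Real.exp V < ⌊Real.exp V⌋₊ + 1 := Nat.lt_floor_add_one _
  have h2 : Real.exp (19 * T) ≤ Real.exp V := Real.exp_le_exp.mpr hV
  have h3 : Real.exp (19 * T) = Real.exp (12 * T) * Real.exp (7 * T) := by rw [← Real.exp_add]; ring_nf
  have h4 : 2 ≤ Real.exp (7 * T) := by have := Real.add_one_le_exp (7 * T); linarith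
  have h5 : 1 ≤ Real.exp (12 * T) := by have := Real.add_one_le_exp (12 * T); linarith
  nlinarith

lemma floor_ratio (y y' : ℝ) (h1 : y ≤ 4 * y') (h2 : y' ≤ 4 * y) (h3 : 10 ≤ y) (h4 : 10 ≤ y') :
    ⌊y⌋₊ ≤ 5 * ⌊y'⌋₊ ∧ ⌊y'⌋₊ ≤ 5 * ⌊y⌋₊ := by
  have f1 : (⌊y⌋₊ : ℝ) ≤ y := Nat.floor_le (by linarith)
  have f2 : y < ⌊y⌋₊ + 1 := Nat.lt_floor_add_one _
  have f3 : (⌊y'⌋₊ : ℝ) ≤ y' := Nat.floor_le (by linarith)
  have f4 : y' < ⌊y'⌋₊ + 1 := Nat.lt_floor_add_one _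
  have c1 : (⌊y⌋₊:ℝ) ≤ 5 * ⌊y'⌋₊ := by linarith
  have c2 : (⌊y'⌋₊:ℝ) ≤ 5 * ⌊y⌋₊ := by linarith
  exact ⟨by exact_mod_cast c1, by exact_mod_cast c2⟩

/-- comparison at the bottom scale -/
lemma bottom_cmp (c : ℕ → ℝ) (lam : ℝ) (N M₂ : ℕ)
    (hr : ∀ M M' : ℕ, M₂ ≤ M' → M' ≤ M → M < N → M ≤ 5 * M' → |c M - c M'| ≤ 3 * lam)
    (T V v Z : ℝ) (p₁ p₂ : ℕ) (hp₁ : p₁.Prime) (hp₂ : p₂.Prime) (hT : 10 ≤ T) (hM₂ : (M₂:ℝ) + 10 ≤ T)
    (hN : Real.exp (20 * T) < N) (hV : V ≤ 20 * T) (hv : 0 ≤ v) (hVv : 19 * T ≤ V - v)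
    (hZ : 4 * Z ≤ Real.exp (4 * T))
    (h1 : Z < p₁) (h2 : (p₁:ℝ) ≤ 4 * Z) (h3 : Z < Real.exp v * p₂) (h4 : Real.exp v * (p₂:ℝ) ≤ 4 * Z) :
    |c (⌊Real.exp V⌋₊ / p₁) - c (⌊Real.exp (V - v)⌋₊ / p₂)| ≤ 3 * lam := by
  have e1 : ⌊Real.exp V⌋₊ / p₁ = ⌊Real.exp V / p₁⌋₊ := (Nat.floor_div_natCast _ _).symm
  have e2 : ⌊Real.exp (V - v)⌋₊ / p₂ = ⌊Real.exp (V - v) / p₂⌋₊ := (Nat.floor_div_natCast _ _).symm
  rw [e1, e2]
  have hp₁0 : (0:ℝ) < p₁ := by exact_mod_cast hp₁.pos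
  have hp₂0 : (0:ℝ) < p₂ := by exact_mod_cast hp₂.pos
  set y := Real.exp V / p₁ with hy
  set r := Real.exp v with hrdef
  have hr0 : 0 < r := Real.exp_pos v
  have hr1 : 1 ≤ r := by have := Real.add_one_le_exp v; linarith
  set y' := Real.exp (V - v) / p₂ with hy'
  have ey' : y' = Real.exp V / (r * p₂) := by
    rw [hy', hrdef, Real.exp_sub, div_div]
  have hV0 := Real.exp_pos V
  have hrp : 0 < r * p₂ := by positivity
  have hyy' : y ≤ 4 * y' := by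
    rw [ey', hy, ← mul_div_assoc, div_le_div_iff₀ hp₁0 hrp]
    have : r * (p₂:ℝ) ≤ 4 * p₁ := by linarith only [h1, h4]
    nlinarith only [this, hV0]
  have hy'y : y' ≤ 4 * y := by
    rw [ey', hy, ← mul_div_assoc, div_le_div_iff₀ hrp hp₁0]
    have : (p₁:ℝ) ≤ 4 * (r * p₂) := by linarith only [h2, h3]
    nlinarith only [this, hV0]
  have hexpT : T + 1 ≤ Real.exp T := Real.add_one_le_exp T
  have hbase : Real.exp T * Real.exp (4 * T) ≤ Real.exp V := by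
    rw [← Real.exp_add]; exact Real.exp_le_exp.mpr (by linarith only [hVv, hv, hT])
  have hylb : Real.exp T ≤ y := by
    rw [hy, le_div_iff₀ hp₁0]
    refine le_trans ?_ hbase
    exact mul_le_mul_of_nonneg_left (h2.trans hZ) (Real.exp_pos T).le
  have hy'lb : Real.exp T ≤ y' := by
    rw [ey', le_div_iff₀ hrp]
    refine le_trans ?_ hbase
    exact mul_le_mul_of_nonneg_left (h4.trans hZ) (Real.exp_pos T).le
  obtain ⟨c1, c2⟩ := floor_ratio y y' hyy' hy'y (by linarith only [hylb, hexpT, hT]) (by linarith only [hy'lb, hexpT, hT])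
  have m1 : M₂ ≤ ⌊y⌋₊ := by
    apply Nat.le_floor; linarith only [hylb, hexpT, hM₂]
  have m2 : M₂ ≤ ⌊y'⌋₊ := by
    apply Nat.le_floor; linarith only [hy'lb, hexpT, hM₂]
  have hVN : Real.exp V < N := lt_of_le_of_lt (Real.exp_le_exp.mpr hV) hN
  have n1 : ⌊y⌋₊ < N := by
    rw [Nat.floor_lt (by positivity)]
    exact lt_of_le_of_lt (div_le_self hV0.le (by exact_mod_cast hp₁.one_lt.le)) hVN
  have n2 : ⌊y'⌋₊ < N := by
    rw [Nat.floor_lt (by positivity), ey']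
    refine lt_of_le_of_lt (div_le_self hV0.le ?_) hVN
    have : (1:ℝ) ≤ p₂ := by exact_mod_cast hp₂.one_lt.le
    nlinarith only [this, hr1]
  rcases le_total ⌊y'⌋₊ ⌊y⌋₊ with h | h
  · exact hr ⌊y⌋₊ ⌊y'⌋₊ m2 h n1 c1
  · rw [abs_sub_comm]; exact hr ⌊y'⌋₊ ⌊y⌋₊ m1 h n2 c2

lemma sum_union_le_real (A B : Finset ℕ) :
    ∑ p ∈ A ∪ B, 1 / (p:ℝ) ≤ ∑ p ∈ A, 1 / (p:ℝ) + ∑ p ∈ B, 1 / (p:ℝ) := by
  have := sum_union_inter (s₁ := A) (s₂ := B) (f := fun p : ℕ => 1 / (p:ℝ))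
  have h2 : 0 ≤ ∑ p ∈ A ∩ B, 1 / (p:ℝ) := sum_nonneg fun _ _ => by positivity
  linarith

lemma incr (f : ℕ → ℝ) (hf : IsAdd f) (hd : SmallDesc f) :
    ∃ (T₀ Λ : ℝ), 1 ≤ T₀ ∧ 0 ≤ Λ ∧ ∀ (lam : ℝ) (c : ℕ → ℝ) (N : ℕ) (T : ℝ), Λ ≤ lam → T₀ ≤ T →
      Real.exp (20 * T) < N →
      (∀ M, 1 ≤ M → M < N → 3/4 ≤ prI f M (c M) lam) →
      ∀ V₁ V₂ v : ℝ, V₁ ≤ 20 * T → V₂ ≤ 20 * T → 0 ≤ v → 19 * T ≤ V₁ - v → 19 * T ≤ V₂ - v →
      |(c ⌊Real.exp V₁⌋₊ - c ⌊Real.exp (V₁ - v)⌋₊) - (c ⌊Real.exp V₂⌋₊ - c ⌊Real.exp (V₂ - v)⌋₊)| ≤ 10 * lam := by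
  obtain ⟨K, M₁, hK, hbad⟩ := bad_mass f hf hd (1/300) (by norm_num)
  obtain ⟨M₂, Λ, hΛ, hratio⟩ := ratio_center f hf hd 5
  obtain ⟨z₀, hz₀, hsel⟩ := window_select
  have k1 : (0:ℝ) ≤ K := Nat.cast_nonneg K
  have k2 : (0:ℝ) ≤ M₁ := Nat.cast_nonneg M₁
  have k3 : (0:ℝ) ≤ M₂ := Nat.cast_nonneg M₂
  refine ⟨(K:ℝ) + M₁ + M₂ + z₀ + 10, Λ, by linarith, hΛ, ?_⟩
  intro lam c N T hlam hT hN hcen V₁ V₂ v hV1 hV2 hv hV1' hV2'
  have hlam0 : 0 ≤ lam := hΛ.trans hlam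
  have hT10 : 10 ≤ T := by linarith only [hT, k1, k2, k3, hz₀]
  have hexpT : T + 1 ≤ Real.exp T := Real.add_one_le_exp T
  have hTz₀ : z₀ ≤ Real.exp T := by linarith only [hT, k1, k2, k3, hexpT]
  have hTK : (K:ℝ) ≤ Real.exp T := by linarith only [hT, k1, k2, k3, hexpT, hz₀]
  have hTM₁ : (M₁:ℝ) ≤ Real.exp (12 * T) := by
    have := Real.add_one_le_exp (12 * T); linarith only [hT, k1, k2, k3, this, hz₀]
  have hTM₂ : (M₂:ℝ) + 10 ≤ T := by linarith only [hT, k1, k2, k3, hz₀]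
  clear hT
  -- floor facts
  have hfl : ∀ V, V ≤ 20 * T → ⌊Real.exp V⌋₊ < N := by
    intro V hV
    rw [Nat.floor_lt (Real.exp_pos V).le]
    exact lt_of_le_of_lt (Real.exp_le_exp.mpr hV) hN
  have hfl1 : ∀ V, 19 * T ≤ V → 1 ≤ ⌊Real.exp V⌋₊ := by
    intro V hV
    rw [Nat.one_le_floor_iff]
    have := Real.add_one_le_exp V; linarith only [this, hV, hT10]
  -- bad sets
  set Bad : ℕ → Finset ℕ := fun M => (range (M + 1)).filter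
    (fun p => p.Prime ∧ K ≤ p ∧ p^3 ≤ M ∧ lam < |c M - c (M / p) - f p|) with hBad
  have hMp : ∀ M p : ℕ, p.Prime → p^3 ≤ M → 1 ≤ M / p := by
    intro M p hp h3
    rw [Nat.le_div_iff_mul_le hp.pos, one_mul]
    exact le_trans (Nat.le_self_pow (by norm_num) p) h3
  have hBadmass : ∀ M, 1 ≤ M → M < N → M₁ ≤ M → ∑ p ∈ Bad M, 1 / (p:ℝ) ≤ 1/300 := by
    intro M hM1 hMN hMM
    apply hbad M hMM lam c hlam0 (hcen M hM1 hMN)
    intro p hp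
    rw [hBad, mem_filter] at hp
    obtain ⟨_, h1, h2, h3, h4⟩ := hp
    refine ⟨h1, h2, h3, hcen (M / p) (hMp M p h1 h3) ?_, h4⟩
    exact lt_of_le_of_lt (Nat.div_le_self _ _) hMN
  have hgood : ∀ M p : ℕ, p.Prime → K ≤ p → p^3 ≤ M → p ∉ Bad M → |c M - c (M / p) - f p| ≤ lam := by
    intro M p h1 h2 h3 h4
    by_contra hcon
    apply h4
    rw [hBad, mem_filter, mem_range]
    refine ⟨?_, h1, h2, h3, not_le.mp hcon⟩
    have := le_trans (Nat.le_self_pow (by norm_num : 3 ≠ 0) p) h3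
    omega
  have hbig : ∀ V, 19 * T ≤ V → Real.exp (12 * T) ≤ ⌊Real.exp V⌋₊ :=
    fun V hV => exp_floor_big T (by linarith only [hT10]) V hV
  have hM₁big : ∀ V, 19 * T ≤ V → M₁ ≤ ⌊Real.exp V⌋₊ := by
    intro V hV
    exact_mod_cast hTM₁.trans (hbig V hV)
  -- windows
  obtain ⟨hz4J, hmass⟩ := window_numeric T hT10
  set z := Real.exp (2 * T) with hz
  set J := ⌊2 * T / Real.log 4⌋₊ with hJ
  set r := Real.exp v with hr
  have hvT : v ≤ T := by linarith only [hV1, hV1']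
  have hr1 : 1 ≤ r := by have := Real.add_one_le_exp v; linarith only [this, hv]
  have hr0 : 0 < r := Real.exp_pos v
  have hz0 : 0 < z := Real.exp_pos _
  have hzr : Real.exp T ≤ z / r := by
    rw [le_div_iff₀ hr0, hz, hr, ← Real.exp_add]
    apply Real.exp_le_exp.mpr; linarith only [hvT]
  have w1 : 19 * T ≤ V₁ := by linarith only [hV1', hv]
  have w2 : 19 * T ≤ V₂ := by linarith only [hV2', hv]
  have w3 : V₁ - v ≤ 20 * T := by linarith only [hV1, hv]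
  have w4 : V₂ - v ≤ 20 * T := by linarith only [hV2, hv]
  have b1 := hBadmass _ (hfl1 _ w1) (hfl _ hV1) (hM₁big _ w1)
  have b2 := hBadmass _ (hfl1 _ w2) (hfl _ hV2) (hM₁big _ w2)
  have b3 := hBadmass _ (hfl1 _ hV1') (hfl _ w3) (hM₁big _ hV1')
  have b4 := hBadmass _ (hfl1 _ hV2') (hfl _ w4) (hM₁big _ hV2')
  have u1 := sum_union_le_real (Bad ⌊Real.exp V₁⌋₊) (Bad ⌊Real.exp V₂⌋₊)
  have u2 := sum_union_le_real (Bad ⌊Real.exp (V₁ - v)⌋₊) (Bad ⌊Real.exp (V₂ - v)⌋₊)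
  obtain ⟨j, hj, p₁, p₂, hp₁, hp₂, hnb₁, hnb₂, ha1, ha2, ha3, ha4⟩ :=
    hsel z r J hr1 (hTz₀.trans hzr) (Bad ⌊Real.exp V₁⌋₊ ∪ Bad ⌊Real.exp V₂⌋₊)
      (Bad ⌊Real.exp (V₁ - v)⌋₊ ∪ Bad ⌊Real.exp (V₂ - v)⌋₊)
      (lt_of_le_of_lt (by linarith only [b1, b2, b3, b4, u1, u2]) hmass)
  rw [mem_union, not_or] at hnb₁ hnb₂
  have h4j : (1:ℝ) ≤ 4^j := one_le_pow₀ (by norm_num)
  have h4jJ : (4:ℝ)^(j+1) ≤ 4^J := pow_le_pow_right₀ (by norm_num) (by omega)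
  have hZ4 : z * 4^(j+1) = 4 * (z * 4^j) := by rw [pow_succ]; ring
  have hZle : 4 * (z * 4^j) ≤ Real.exp (4 * T) := by
    rw [← hZ4]; exact (mul_le_mul_of_nonneg_left h4jJ hz0.le).trans hz4J
  rw [hZ4] at ha2 ha4
  have hZ0 : 0 < z * 4^j := by positivity
  have hp2nn : (0:ℝ) ≤ p₂ := Nat.cast_nonneg _
  have hp2r : (p₂:ℝ) ≤ r * p₂ := le_mul_of_one_le_left hp2nn hr1
  have hzZ : z ≤ z * 4^j := le_mul_of_one_le_right hz0.le h4j
  have hp1lb : Real.exp T ≤ p₁ := by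
    have h2 : z / r ≤ z := div_le_self hz0.le hr1
    linarith only [h2, hzr, hzZ, ha1]
  have hp2lb : Real.exp T ≤ p₂ := by
    have h1 : z / r < p₂ := by
      rw [div_lt_iff₀ hr0]
      linarith only [hzZ, ha3]
    linarith only [h1, hzr]
  have hK1 : K ≤ p₁ := by exact_mod_cast hTK.trans hp1lb
  have hK2 : K ≤ p₂ := by exact_mod_cast hTK.trans hp2lb
  have hcube : ∀ (p : ℕ) (V : ℝ), (p:ℝ) ≤ Real.exp (4 * T) → 19 * T ≤ V → p^3 ≤ ⌊Real.exp V⌋₊ := by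
    intro p V hp hV
    have h1 := hbig V hV
    have h2 : (p:ℝ)^3 ≤ Real.exp (12 * T) := by
      have : Real.exp (12 * T) = (Real.exp (4 * T))^3 := by
        rw [← Real.exp_nat_mul]; congr 1; push_cast; ring
      rw [this]; gcongr
    exact_mod_cast h2.trans h1
  have g1 := hgood _ p₁ hp₁ hK1 (hcube p₁ _ (ha2.trans hZle) w1) hnb₁.1
  have g2 := hgood _ p₁ hp₁ hK1 (hcube p₁ _ (ha2.trans hZle) w2) hnb₁.2
  have g3 := hgood _ p₂ hp₂ hK2 (hcube p₂ _ (hp2r.trans (ha4.trans hZle)) hV1') hnb₂.1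
  have g4 := hgood _ p₂ hp₂ hK2 (hcube p₂ _ (hp2r.trans (ha4.trans hZle)) hV2') hnb₂.2
  have g5 := bottom_cmp c lam N M₂ (hratio lam c N hlam hcen) T V₁ v (z * 4^j) p₁ p₂ hp₁ hp₂ hT10 hTM₂ hN hV1 hv hV1'
    hZle ha1 ha2 ha3 ha4
  have g6 := bottom_cmp c lam N M₂ (hratio lam c N hlam hcen) T V₂ v (z * 4^j) p₁ p₂ hp₁ hp₂ hT10 hTM₂ hN hV2 hv hV2'
    hZle ha1 ha2 ha3 ha4
  rw [abs_le] at g1 g2 g3 g4 g5 g6 ⊢
  constructor
  · linarith only [g1.1, g1.2, g2.1, g2.2, g3.1, g3.2, g4.1, g4.2, g5.1, g5.2, g6.1, g6.2]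
  · linarith only [g1.1, g1.2, g2.1, g2.2, g3.1, g3.2, g4.1, g4.2, g5.1, g5.2, g6.1, g6.2]

end Pool.Agent.helper76
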