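import Pool.Agent.helper76.Linear

/-! The `l^2` bound for `f p - b log p`. -/

namespace Pool.Agent.helper76

open Finset MeasureTheory

lemma Ex_intInt (g : ℕ → ℝ) (B : ℝ) (hB : 0 ≤ B) (hg : ∀ n, |g n| ≤ B) (a b : ℝ) :
    IntervalIntegrable (fun V => E ⌊Real.exp V⌋₊ g) volume a b := by
  have hmeas : Measurable (fun V : ℝ => E ⌊Real.exp V⌋₊ g) :=
    (measurable_from_nat (f := fun M => E M g)).comp (Nat.measurable_floor.comp Real.measurable_exp)
  apply (intervalIntegrable_const (c := B)).mono_fun' hmeas.aestronglyMeasurable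
  filter_upwards with V
  rw [Real.norm_eq_abs]
  exact E_abs_le _ _ _ hB (fun n _ _ => hg n)

lemma shift_integral (g : ℝ → ℝ) (B : ℝ) (hint : ∀ a b, IntervalIntegrable g volume a b)
    (hg : ∀ x, |g x| ≤ B) (a b d : ℝ) (hd : 0 ≤ d) :
    |(∫ V in a..b, g (V - d)) - ∫ V in a..b, g V| ≤ 2 * (B * d) := by
  rw [intervalIntegral.integral_comp_sub_right,
    intervalIntegral.integral_interval_sub_interval_comm (hint _ _) (hint _ _) (hint _ _)]
  have h1 : ‖∫ x in (a - d)..a, g x‖ ≤ B * |a - (a - d)| :=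
    intervalIntegral.norm_integral_le_of_norm_le_const (fun x _ => by rw [Real.norm_eq_abs]; exact hg x)
  have h2 : ‖∫ x in (b - d)..b, g x‖ ≤ B * |b - (b - d)| :=
    intervalIntegral.norm_integral_le_of_norm_le_const (fun x _ => by rw [Real.norm_eq_abs]; exact hg x)
  have e1 : |a - (a - d)| = d := by rw [sub_sub_cancel, abs_of_nonneg hd]
  have e2 : |b - (b - d)| = d := by rw [sub_sub_cancel, abs_of_nonneg hd]
  rw [e1, Real.norm_eq_abs] at h1
  rw [e2, Real.norm_eq_abs] at h2
  refine (abs_sub _ _).trans ?_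
  linarith

lemma cs_integral (g : ℝ → ℝ) (a b : ℝ) (hab : a < b) (hg : IntervalIntegrable g volume a b)
    (hg2 : IntervalIntegrable (fun x => (g x)^2) volume a b) :
    (∫ x in a..b, g x)^2 ≤ (b - a) * ∫ x in a..b, (g x)^2 := by
  set m := (∫ x in a..b, g x) / (b - a) with hm
  have hba : 0 < b - a := by linarith
  have h0 : 0 ≤ ∫ x in a..b, (g x - m)^2 := by
    apply intervalIntegral.integral_nonneg hab.le
    intro x _; positivity
  have e : ∫ x in a..b, (g x - m)^2 = (∫ x in a..b, (g x)^2) - 2 * m * (∫ x in a..b, g x) + m^2 * (b - a) := by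
    have : ∀ x, (g x - m)^2 = (g x)^2 - 2 * m * g x + m^2 := by intro x; ring
    simp_rw [this]
    rw [intervalIntegral.integral_add, intervalIntegral.integral_sub, intervalIntegral.integral_const_mul,
      intervalIntegral.integral_const, smul_eq_mul]
    · ring
    · exact hg2
    · exact hg.const_mul _
    · exact hg2.sub (hg.const_mul _)
    · exact intervalIntegrable_const
  rw [e] at h0
  have hm' : m * (b - a) = ∫ x in a..b, g x := by rw [hm]; field_simp
  set I := ∫ x in a..b, g x
  set I2 := ∫ x in a..b, (g x)^2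
  have : 0 ≤ (b - a) * (I2 - 2 * m * I + m^2 * (b - a)) := mul_nonneg hba.le h0
  have e3 : (b - a) * (I2 - 2 * m * I + m^2 * (b - a)) = (b - a) * I2 - 2 * (m * (b - a)) * I + (m * (b - a))^2 := by ring
  rw [e3, hm'] at this
  nlinarith

/-- clipping to `[-1,1]` -/
noncomputable def clip (t : ℝ) : ℝ := max (-1) (min 1 t)

lemma clip_mono : Monotone clip := fun _ _ h => max_le_max le_rfl (min_le_min le_rfl h)

lemma clip_abs (t : ℝ) : |clip t| ≤ 1 := by
  rw [abs_le]; exact ⟨le_max_left _ _, max_le (by norm_num) (min_le_left _ _)⟩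

lemma clip_of_mem (t : ℝ) (h1 : -1 ≤ t) (h2 : t ≤ 1) : clip t = t := by
  unfold clip; rw [min_eq_right h2, max_eq_right h1]

lemma clip_sub (t d : ℝ) (hd : 0 ≤ d) : clip t - d ≤ clip (t - d) := by
  unfold clip
  rcases le_total t (-1) with h | h
  · rw [min_eq_right (by linarith : t ≤ 1), max_eq_left h]
    have := le_max_left (-1) (min 1 (t - d)); linarith
  · rcases le_total t 1 with h' | h'
    · rw [min_eq_right h', max_eq_right h, min_eq_right (by linarith : t - d ≤ 1)]
      exact le_max_right _ _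
    · rw [min_eq_left h', max_eq_right (by norm_num)]
      rcases le_total (t - d) 1 with h2 | h2
      · rw [min_eq_right h2]
        have := le_max_right (-1) (t - d); linarith
      · rw [min_eq_left h2]
        have := le_max_right (-1) (1:ℝ); linarith

lemma clip_incr (t d m : ℝ) (ht : |t| ≤ 1/2) (hm : 0 ≤ m) (hm2 : m ≤ 1/2) (hd : m ≤ d) :
    clip t + m ≤ clip (t + d) := by
  obtain ⟨h1, h2⟩ := abs_le.mp ht
  rw [clip_of_mem t (by linarith) (by linarith)]
  have : clip (t + m) = t + m := clip_of_mem _ (by linarith) (by linarith)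
  rw [← this]; exact clip_mono (by linarith)

lemma clip_decr (t d m : ℝ) (ht : |t| ≤ 1/2) (hm : 0 ≤ m) (hm2 : m ≤ 1/2) (hd : d ≤ -m) :
    clip (t + d) + m ≤ clip t := by
  obtain ⟨h1, h2⟩ := abs_le.mp ht
  rw [clip_of_mem t (by linarith) (by linarith)]
  have : clip (t - m) = t - m := clip_of_mem _ (by linarith) (by linarith)
  have h3 : clip (t + d) ≤ clip (t - m) := clip_mono (by linarith)
  linarith

lemma log_succ_sub (n : ℕ) (hn : 1 ≤ n) : 0 ≤ Real.log (n + 1) - Real.log n ∧ Real.log (n + 1) - Real.log n ≤ 1 / n := by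
  have hn0 : (0:ℝ) < n := by exact_mod_cast hn
  constructor
  · have := Real.log_le_log hn0 (by linarith : (n:ℝ) ≤ n + 1); linarith
  · rw [← Real.log_div (by positivity) hn0.ne']
    have := Real.log_le_sub_one_of_pos (by positivity : (0:ℝ) < (n + 1) / n)
    have e : ((n:ℝ) + 1) / n - 1 = 1 / n := by field_simp; ring
    linarith

open Classical in
/-- Lower bound for the effect of a shift on the clipped average. -/
lemma shift_effect (g : ℕ → ℝ) (M : ℕ) (c0 lam u : ℝ) (hlam : 0 < lam)
    (hconc : 3/5 ≤ E M (fun n => if |g n - c0| ≤ 40 * lam then (1:ℝ) else 0)) :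
    (0 ≤ u → 3/400 * min 1 (|u| / lam) ≤
      E M (fun n => clip ((g n + u - c0) / (80 * lam))) - E M (fun n => clip ((g n - c0) / (80 * lam)))) ∧
    (u ≤ 0 → 3/400 * min 1 (|u| / lam) ≤
      E M (fun n => clip ((g n - c0) / (80 * lam))) - E M (fun n => clip ((g n + u - c0) / (80 * lam)))) := by
  set m := min 1 (|u| / lam) / 80 with hm
  have hmin0 : 0 ≤ min 1 (|u| / lam) := le_min (by norm_num) (by positivity)
  have hm0 : 0 ≤ m := by rw [hm]; positivity
  have hm1 : m ≤ 1/2 := by
    have : min 1 (|u| / lam) ≤ 1 := min_le_left _ _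
    rw [hm]; linarith
  have hmu : m ≤ |u| / (80 * lam) := by
    have : min 1 (|u| / lam) ≤ |u| / lam := min_le_right _ _
    rw [hm]
    have e : |u| / (80 * lam) = |u| / lam / 80 := by field_simp
    rw [e]; gcongr
  have e400 : 3/400 * min 1 (|u| / lam) = 3/5 * m := by rw [hm]; ring
  have hgood : ∀ n, |g n - c0| ≤ 40 * lam → |(g n - c0) / (80 * lam)| ≤ 1/2 := by
    intro n hn
    rw [abs_div, abs_of_pos (by positivity : 0 < 80 * lam), div_le_iff₀ (by positivity)]
    linarith
  have hEm : 3/5 * m ≤ E M (fun n => m * (if |g n - c0| ≤ 40 * lam then (1:ℝ) else 0)) := by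
    rw [E_smul]
    nlinarith
  constructor
  · intro hu
    rw [e400, ← E_sub]
    refine hEm.trans (E_mono _ _ _ fun n _ _ => ?_)
    have e : (g n + u - c0) / (80 * lam) = (g n - c0) / (80 * lam) + u / (80 * lam) := by ring
    rw [e]
    have hu' : 0 ≤ u / (80 * lam) := by positivity
    split_ifs with h
    · have := clip_incr _ (u / (80 * lam)) m (hgood n h) hm0 hm1 (by rwa [abs_of_nonneg hu] at hmu)
      linarith
    · have := clip_mono (by linarith : (g n - c0) / (80 * lam) ≤ (g n - c0) / (80 * lam) + u / (80 * lam))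
      linarith
  · intro hu
    rw [e400, ← E_sub]
    refine hEm.trans (E_mono _ _ _ fun n _ _ => ?_)
    have e : (g n + u - c0) / (80 * lam) = (g n - c0) / (80 * lam) + u / (80 * lam) := by ring
    rw [e]
    have hu' : u / (80 * lam) ≤ 0 := div_nonpos_of_nonpos_of_nonneg hu (by positivity)
    split_ifs with h
    · have := clip_decr _ (u / (80 * lam)) m (hgood n h) hm0 hm1 (by
        rw [abs_of_nonpos hu, neg_div] at hmu; linarith)
      linarith
    · have := clip_mono (by linarith : (g n - c0) / (80 * lam) + u / (80 * lam) ≤ (g n - c0) / (80 * lam))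
      linarith

end Pool.Agent.helper76
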