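import Pool.Agent.helper76.L2

/-! The `l^2` bound for `f p - b log p`. -/

namespace Pool.Agent.helper76

open Finset MeasureTheory

lemma bdd_intInt (g : ℝ → ℝ) (hmeas : Measurable g) (B : ℝ) (hg : ∀ x, |g x| ≤ B) (a b : ℝ) :
    IntervalIntegrable g volume a b := by
  apply (intervalIntegrable_const (c := B)).mono_fun' hmeas.aestronglyMeasurable
  filter_upwards with V
  rw [Real.norm_eq_abs]
  exact hg V

lemma Ex_meas (g : ℕ → ℝ) : Measurable (fun V : ℝ => E ⌊Real.exp V⌋₊ g) :=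
  (measurable_from_nat (f := fun M => E M g)).comp (Nat.measurable_floor.comp Real.measurable_exp)

/-- one prime: lower bound of `|∫ A|` -/
lemma one_prime (g : ℕ → ℝ) (c0 lam u T : ℝ) (p : ℕ) (hp : 1 ≤ p) (hlam : 0 < lam) (hT : 0 ≤ T)
    (hconc : ∀ V, 19 * T ≤ V → V ≤ 20 * T →
      3/5 ≤ E ⌊Real.exp V⌋₊ (fun n => by classical exact if |g n - c0| ≤ 40 * lam then (1:ℝ) else 0)) :
    3/400 * min 1 (|u| / lam) * T ≤
      |∫ V in (19 * T)..(20 * T), (E (⌊Real.exp V⌋₊ / p) (fun n => clip ((g n + u - c0) / (80 * lam))) -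
        E ⌊Real.exp V⌋₊ (fun n => clip ((g n - c0) / (80 * lam))))| + 2 * Real.log p := by
  classical
  set gu : ℕ → ℝ := fun n => clip ((g n + u - c0) / (80 * lam)) with hgu
  set g0 : ℕ → ℝ := fun n => clip ((g n - c0) / (80 * lam)) with hg0
  have hgu1 : ∀ n, |gu n| ≤ 1 := fun n => clip_abs _
  have hg01 : ∀ n, |g0 n| ≤ 1 := fun n => clip_abs _
  have hp0 : (0:ℝ) < p := by exact_mod_cast hp
  have hlogp : 0 ≤ Real.log p := Real.log_nonneg (by exact_mod_cast hp)
  have hfl : ∀ V : ℝ, E (⌊Real.exp V⌋₊ / p) gu = E ⌊Real.exp (V - Real.log p)⌋₊ gu := by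
    intro V
    rw [Real.exp_sub, Real.exp_log hp0, Nat.floor_div_natCast]
  have hGint : ∀ a b, IntervalIntegrable (fun V => E ⌊Real.exp V⌋₊ gu) volume a b :=
    fun a b => bdd_intInt _ (Ex_meas gu) 1 (fun x => E_abs_le _ _ _ (by norm_num) (fun n _ _ => hgu1 n)) a b
  have hG0int : ∀ a b, IntervalIntegrable (fun V => E ⌊Real.exp V⌋₊ g0) volume a b :=
    fun a b => bdd_intInt _ (Ex_meas g0) 1 (fun x => E_abs_le _ _ _ (by norm_num) (fun n _ _ => hg01 n)) a b
  have hGsint : ∀ a b, IntervalIntegrable (fun V => E ⌊Real.exp (V - Real.log p)⌋₊ gu) volume a b :=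
    fun a b => bdd_intInt _ ((Ex_meas gu).comp (measurable_id.sub_const _)) 1
      (fun x => E_abs_le _ _ _ (by norm_num) (fun n _ _ => hgu1 n)) a b
  simp_rw [hfl]
  rw [intervalIntegral.integral_sub (hGsint _ _) (hG0int _ _)]
  have hshift := shift_integral (fun V => E ⌊Real.exp V⌋₊ gu) 1 hGint
    (fun x => E_abs_le _ _ _ (by norm_num) (fun n _ _ => hgu1 n)) (19 * T) (20 * T) (Real.log p) hlogp
  set I1 := ∫ V in (19 * T)..(20 * T), E ⌊Real.exp (V - Real.log p)⌋₊ gu with hI1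
  set I2 := ∫ V in (19 * T)..(20 * T), E ⌊Real.exp V⌋₊ gu with hI2
  set I3 := ∫ V in (19 * T)..(20 * T), E ⌊Real.exp V⌋₊ g0 with hI3
  have hab : 19 * T ≤ 20 * T := by linarith
  have hkey : 3/400 * min 1 (|u| / lam) * T ≤ |I2 - I3| := by
    have hconst : ∫ V in (19 * T)..(20 * T), (3/400 * min 1 (|u| / lam)) = 3/400 * min 1 (|u| / lam) * T := by
      rw [intervalIntegral.integral_const, smul_eq_mul]; ring
    rcases le_total 0 u with hu | hu
    · have h1 : 3/400 * min 1 (|u| / lam) * T ≤ I2 - I3 := by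
        rw [← hconst, hI2, hI3, ← intervalIntegral.integral_sub (hGint _ _) (hG0int _ _)]
        apply intervalIntegral.integral_mono_on hab intervalIntegrable_const ((hGint _ _).sub (hG0int _ _))
        intro V hV
        exact (shift_effect g ⌊Real.exp V⌋₊ c0 lam u hlam (hconc V hV.1 hV.2)).1 hu
      exact h1.trans (le_abs_self _)
    · have h1 : 3/400 * min 1 (|u| / lam) * T ≤ I3 - I2 := by
        rw [← hconst, hI2, hI3, ← intervalIntegral.integral_sub (hG0int _ _) (hGint _ _)]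
        apply intervalIntegral.integral_mono_on hab intervalIntegrable_const ((hG0int _ _).sub (hGint _ _))
        intro V hV
        exact (shift_effect g ⌊Real.exp V⌋₊ c0 lam u hlam (hconc V hV.1 hV.2)).2 hu
      rw [abs_sub_comm]
      exact h1.trans (le_abs_self _)
  have h3 : |I2 - I3| ≤ |I1 - I3| + |I1 - I2| := by
    have : I2 - I3 = (I1 - I3) - (I1 - I2) := by ring
    rw [this]; exact abs_sub _ _
  rw [one_mul] at hshift
  linarith

lemma l2_bound (f : ℕ → ℝ) (hf : IsAdd f) (hd : SmallDesc f) (ϑ : ℝ) (hϑ : 0 < ϑ) :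
    ∃ K : ℕ, 1 ≤ K ∧ ∀ γ : ℝ, 0 < γ → ∃ (δ T₀ Λ : ℝ), 0 < δ ∧ 1 ≤ T₀ ∧ 0 < Λ ∧
      ∀ (lam : ℝ) (c : ℕ → ℝ) (N : ℕ) (T : ℝ), Λ ≤ lam → T₀ ≤ T → Real.exp (20 * T) < N →
      (∀ M, 1 ≤ M → M < N → 3/4 ≤ prI f M (c M) lam) →
      ∃ b : ℝ, |b| ≤ γ * lam ∧ ∀ P : Finset ℕ, (∀ p ∈ P, p.Prime ∧ K ≤ p ∧ Real.log p ≤ δ * T) →
        ∑ p ∈ P, (min 1 (|f p - b * Real.log p| / lam))^2 / (p:ℝ) ≤ ϑ := by
  classical
  set η := ϑ / 72000 with hη
  have hη0 : 0 < η := by positivity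
  obtain ⟨K, N₀, hK, hD⟩ := propD f hf hd η hη0 1 (by norm_num)
  refine ⟨K, hK, fun γ hγ => ?_⟩
  set γ' := min γ (1/4) with hγ'
  have hγ'0 : 0 < γ' := lt_min hγ (by norm_num)
  obtain ⟨T₁, Λ, hT₁, hΛ, hlin⟩ := linear_centers f hf hd γ' hγ'0
  set δ := min (1/10) (Real.sqrt ϑ / 2000) with hδ
  have hδ0 : 0 < δ := lt_min (by norm_num) (by positivity)
  have hδ1 : δ ≤ 1/10 := min_le_left _ _
  have hδ2 : 1728000 * δ^2 ≤ ϑ / 2 := by
    have h1 : δ ≤ Real.sqrt ϑ / 2000 := min_le_right _ _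
    have h2 : δ^2 ≤ (Real.sqrt ϑ / 2000)^2 := by gcongr
    rw [div_pow, Real.sq_sqrt hϑ.le] at h2
    linarith
  refine ⟨δ, T₁ + N₀ + 1 / δ + 10, Λ, hδ0, ?_, hΛ, ?_⟩
  · have : (0:ℝ) ≤ N₀ := Nat.cast_nonneg _
    have : 0 < 1 / δ := by positivity
    linarith
  intro lam c N T hlam hT hN hcen
  have hN₀0 : (0:ℝ) ≤ N₀ := Nat.cast_nonneg _
  have h1δ : 0 < 1 / δ := by positivity
  have hT10 : 10 ≤ T := by linarith only [hT, hT₁, hN₀0, h1δ]
  have hTT₁ : T₁ ≤ T := by linarith only [hT, hT₁, hN₀0, h1δ]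
  have hTN₀ : (N₀:ℝ) ≤ T := by linarith only [hT, hT₁, hN₀0, h1δ]
  have hδT : 1 ≤ δ * T := by
    have : 1 / δ ≤ T := by linarith only [hT, hT₁, hN₀0, h1δ]
    rw [div_le_iff₀ hδ0] at this
    linarith
  have hlam0 : 0 < lam := lt_of_lt_of_le hΛ hlam
  obtain ⟨b, hb, hlinb⟩ := hlin lam c N T hlam hTT₁ hN hcen
  have hb4 : |b| ≤ lam / 4 := by
    have : γ' ≤ 1/4 := min_le_right _ _
    have h2 : γ' * lam ≤ 1/4 * lam := by gcongr
    linarith
  refine ⟨b, hb.trans (by have : γ' ≤ γ := min_le_left _ _; gcongr), ?_⟩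
  intro P hP
  set g : ℕ → ℝ := fun n => f n - b * Real.log n with hg
  set c0 := c ⌊Real.exp (20 * T)⌋₊ - b * (20 * T) with hc0
  set ψ : ℝ → ℝ := fun x => clip ((x - c0) / (80 * lam)) with hψ
  have hψ1 : ∀ x, |ψ x| ≤ 1 := fun x => clip_abs _
  have hψm : Monotone ψ := fun x y hxy => clip_mono (by gcongr)
  have hψl : ∀ (x : ℝ) (n : ℕ), 1 ≤ n → ψ x - 1 / n ≤ ψ (x - b * (Real.log (n + 1) - Real.log n)) := by
    intro x n hn
    obtain ⟨l1, l2⟩ := log_succ_sub n hn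
    have hn0 : (0:ℝ) < n := by exact_mod_cast hn
    have h1 : b * (Real.log (n + 1) - Real.log n) ≤ 80 * lam * (1 / n) := by
      calc b * (Real.log (n + 1) - Real.log n) ≤ |b| * (Real.log (n + 1) - Real.log n) := by
            gcongr; exact le_abs_self b
        _ ≤ (lam / 4) * (1 / n) := by gcongr
        _ ≤ 80 * lam * (1 / n) := by
            have : 0 < 1 / (n:ℝ) := by positivity
            nlinarith
    have h2 : ψ (x - 80 * lam * (1 / n)) ≤ ψ (x - b * (Real.log (n + 1) - Real.log n)) := hψm (by linarith)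
    refine le_trans ?_ h2
    simp only [hψ]
    have e : (x - 80 * lam * (1 / n) - c0) / (80 * lam) = (x - c0) / (80 * lam) - 1 / n := by
      field_simp; ring
    rw [e]
    exact clip_sub _ _ (by positivity)
  -- concentration on each scale
  have hfl : ∀ V, V ≤ 20 * T → ⌊Real.exp V⌋₊ < N := by
    intro V hV
    rw [Nat.floor_lt (Real.exp_pos V).le]
    exact lt_of_le_of_lt (Real.exp_le_exp.mpr hV) hN
  have hfl1 : ∀ V, 0 ≤ V → 1 ≤ ⌊Real.exp V⌋₊ := by
    intro V hV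
    rw [Nat.one_le_floor_iff]
    have := Real.add_one_le_exp V; linarith only [this, hV]
  have hconc : ∀ V, 19 * T ≤ V → V ≤ 20 * T →
      3/5 ≤ E ⌊Real.exp V⌋₊ (fun n => if |g n - c0| ≤ 40 * lam then (1:ℝ) else 0) := by
    intro V hV1 hV2
    exact conc_centered f lam b V (c ⌊Real.exp V⌋₊) (c ⌊Real.exp (20 * T)⌋₊) (20 * T) hlam0.le hb4
      (by linarith) (hcen _ (hfl1 V (by linarith)) (hfl V hV2)) (hlinb V hV1 hV2)
  -- the functions A
  set A : ℕ → ℝ → ℝ := fun p V => E (⌊Real.exp V⌋₊ / p) (fun m => ψ (g m + g p)) -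
    E ⌊Real.exp V⌋₊ (fun n => ψ (g n)) with hA
  have hAmeas : ∀ p, Measurable (A p) := by
    intro p
    have h1 : Measurable (fun V : ℝ => E (⌊Real.exp V⌋₊ / p) (fun m => ψ (g m + g p))) :=
      (measurable_from_nat (f := fun M => E (M / p) (fun m => ψ (g m + g p)))).comp
        (Nat.measurable_floor.comp Real.measurable_exp)
    exact h1.sub (Ex_meas _)
  have hAb : ∀ p V, |A p V| ≤ 2 := by
    intro p V
    have h1 : |E (⌊Real.exp V⌋₊ / p) (fun m => ψ (g m + g p))| ≤ 1 :=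
      E_abs_le _ _ _ (by norm_num) (fun n _ _ => hψ1 _)
    have h2 : |E ⌊Real.exp V⌋₊ (fun n => ψ (g n))| ≤ 1 :=
      E_abs_le _ _ _ (by norm_num) (fun n _ _ => hψ1 _)
    refine (abs_sub _ _).trans (by linarith)
  have hAint : ∀ p, IntervalIntegrable (A p) volume (19 * T) (20 * T) :=
    fun p => bdd_intInt _ (hAmeas p) 2 (hAb p) _ _
  have hA2int : ∀ p, IntervalIntegrable (fun V => (A p V)^2) volume (19 * T) (20 * T) := by
    intro p
    apply bdd_intInt _ ((hAmeas p).pow_const 2) 4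
    intro V
    rw [abs_pow]
    have := hAb p V
    have h0 := abs_nonneg (A p V)
    nlinarith
  have hpt : ∀ V, 19 * T ≤ V → V ≤ 20 * T → ∑ p ∈ P, (A p V)^2 / p ≤ η := by
    intro V hV1 hV2
    have hMbig := exp_floor_big T (by linarith) V hV1
    have hN₀M : N₀ ≤ ⌊Real.exp V⌋₊ := by
      have : (N₀:ℝ) ≤ ⌊Real.exp V⌋₊ := by
        have := Real.add_one_le_exp (12 * T)
        linarith only [this, hMbig, hTN₀, hT10]
      exact_mod_cast this
    apply hD ⌊Real.exp V⌋₊ hN₀M b ψ hψ1 hψm (by simpa using hψl) P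
    intro p hp
    obtain ⟨h1, h2, h3⟩ := hP p hp
    refine ⟨h1, h2, ?_⟩
    have hp0 : (0:ℝ) < p := by exact_mod_cast h1.pos
    have h4 : (p:ℝ) ≤ Real.exp (δ * T) := by
      rw [← Real.log_le_iff_le_exp hp0]; exact h3
    have h5 : (p:ℝ)^3 ≤ Real.exp (12 * T) := by
      calc (p:ℝ)^3 ≤ (Real.exp (δ * T))^3 := by gcongr
        _ = Real.exp (3 * (δ * T)) := by rw [← Real.exp_nat_mul]; norm_num
        _ ≤ Real.exp (12 * T) := by
          apply Real.exp_le_exp.mpr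
          nlinarith
    exact_mod_cast h5.trans hMbig
  have hab : 19 * T < 20 * T := by linarith
  have hsumint : ∑ p ∈ P, (∫ V in (19 * T)..(20 * T), (A p V)^2) / p ≤ T * η := by
    have e1 : ∑ p ∈ P, (∫ V in (19 * T)..(20 * T), (A p V)^2) / p =
        ∫ V in (19 * T)..(20 * T), ∑ p ∈ P, (A p V)^2 / p := by
      rw [intervalIntegral.integral_finsetSum]
      · apply sum_congr rfl
        intro p _
        rw [intervalIntegral.integral_div]
      · intro p _
        exact (hA2int p).div_const _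
    rw [e1]
    have e2 : T * η = ∫ V in (19 * T)..(20 * T), η := by
      rw [intervalIntegral.integral_const, smul_eq_mul]; ring
    rw [e2]
    apply intervalIntegral.integral_mono_on hab.le
    · have e3 : (fun V => ∑ p ∈ P, (A p V)^2 / (p:ℝ)) = ∑ p ∈ P, (fun V => (A p V)^2 / (p:ℝ)) := by
        funext V; rw [Finset.sum_apply]
      rw [e3]
      exact IntervalIntegrable.sum P (fun p _ => (hA2int p).div_const _)
    · exact intervalIntegrable_const
    · intro V hV; exact hpt V hV.1 hV.2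
  have hterm : ∀ p ∈ P, (min 1 (|f p - b * Real.log p| / lam))^2 / (p:ℝ) ≤
      18000 * (2 * ((∫ V in (19 * T)..(20 * T), (A p V)^2) / p) / T + 8 * ((Real.log p)^2 / p) / T^2) := by
    intro p hp
    obtain ⟨h1, h2, h3⟩ := hP p hp
    have hp0 : (0:ℝ) < p := by exact_mod_cast h1.pos
    have hlogp : 0 ≤ Real.log p := Real.log_nonneg (by exact_mod_cast h1.one_lt.le)
    have k1 := one_prime g c0 lam (g p) T p h1.one_lt.le hlam0 (by linarith) (by simpa using hconc)
    have k2 := cs_integral (A p) (19 * T) (20 * T) hab (hAint p) (hA2int p)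
    set m := min 1 (|f p - b * Real.log p| / lam) with hm
    have hm0 : 0 ≤ m := le_min (by norm_num) (by positivity)
    set I := ∫ V in (19 * T)..(20 * T), A p V with hI
    set I2 := ∫ V in (19 * T)..(20 * T), (A p V)^2 with hI2
    have k3 : 3/400 * m * T ≤ |I| + 2 * Real.log p := k1
    have k4 : I^2 ≤ T * I2 := by
      have e : 20 * T - 19 * T = T := by ring
      rw [e] at k2; exact k2
    have hT0 : 0 < T := by linarith
    have k5 : (3/400 * m * T)^2 ≤ 2 * (T * I2) + 8 * (Real.log p)^2 := by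
      have h4 : (3/400 * m * T)^2 ≤ (|I| + 2 * Real.log p)^2 := by gcongr
      have h5 : (|I| + 2 * Real.log p)^2 ≤ 2 * I^2 + 8 * (Real.log p)^2 := by
        rw [← sq_abs I]
        nlinarith only [sq_nonneg (|I| - 2 * Real.log p)]
      linarith
    have k6 : m^2 ≤ 18000 * (2 * I2 / T + 8 * (Real.log p)^2 / T^2) := by
      have e : 2 * I2 / T + 8 * (Real.log p)^2 / T^2 = (2 * (T * I2) + 8 * (Real.log p)^2) / T^2 := by
        field_simp
      rw [e, ← mul_div_assoc, le_div_iff₀ (by positivity)]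
      have h6 : 0 ≤ m^2 * T^2 := by positivity
      nlinarith only [k5, h6]
    calc m^2 / p ≤ 18000 * (2 * I2 / T + 8 * (Real.log p)^2 / T^2) / p := by gcongr
      _ = _ := by field_simp
  refine (sum_le_sum hterm).trans ?_
  rw [← mul_sum, sum_add_distrib, ← sum_div, ← sum_div, ← mul_sum, ← mul_sum]
  have hlogsq := log_sq_sum P (δ * T) hδT (fun p hp => ⟨(hP p hp).1, (hP p hp).2.2⟩)
  have hT0 : 0 < T := by linarith
  have f1 : 2 * (∑ p ∈ P, (∫ V in (19 * T)..(20 * T), (A p V)^2) / p) / T ≤ 2 * η := by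
    rw [div_le_iff₀ hT0]; linarith
  have f2 : 8 * (∑ p ∈ P, (Real.log p)^2 / p) / T^2 ≤ 96 * δ^2 := by
    rw [div_le_iff₀ (by positivity)]
    nlinarith only [hlogsq]
  calc 18000 * (2 * (∑ p ∈ P, (∫ V in (19 * T)..(20 * T), (A p V)^2) / p) / T + 8 * (∑ p ∈ P, (Real.log p)^2 / p) / T^2)
      ≤ 18000 * (2 * η + 96 * δ^2) := by gcongr
    _ ≤ ϑ := by rw [hη]; linarith

end Pool.Agent.helper76
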