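import Pool.Agent.helper76.Incr
import Pool.Agent.helper76.HyersUlam

/-! Linear form of the centres on the log scale. -/

namespace Pool.Agent.helper76

open Finset

lemma linear_centers (f : ℕ → ℝ) (hf : IsAdd f) (hd : SmallDesc f) (γ : ℝ) (hγ : 0 < γ) :
    ∃ (T₀ Λ : ℝ), 1 ≤ T₀ ∧ 0 < Λ ∧ ∀ (lam : ℝ) (c : ℕ → ℝ) (N : ℕ) (T : ℝ), Λ ≤ lam → T₀ ≤ T →
      Real.exp (20 * T) < N →
      (∀ M, 1 ≤ M → M < N → 3/4 ≤ prI f M (c M) lam) →
      ∃ b : ℝ, |b| ≤ γ * lam ∧ ∀ V, 19 * T ≤ V → V ≤ 20 * T →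
        |c ⌊Real.exp (20 * T)⌋₊ - c ⌊Real.exp V⌋₊ - b * (20 * T - V)| ≤ 30 * lam := by
  obtain ⟨T₁, Λ₁, hT₁, hΛ₁, hincr⟩ := incr f hf hd
  obtain ⟨a, ha⟩ : ∃ a : ℕ, Real.exp (32 / γ) < a := exists_nat_gt _
  have ha0 : (0:ℝ) < a := lt_trans (Real.exp_pos _) ha
  have ha1 : 1 ≤ a := by
    have : (1:ℝ) ≤ a := by
      have := Real.add_one_le_exp (32 / γ)
      have h2 : 0 < 32 / γ := by positivity
      linarith
    exact_mod_cast this
  have hloga : 32 / γ < Real.log a := by
    rw [Real.lt_log_iff_exp_lt ha0]; exact ha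
  have hloga0 : 0 < Real.log a := lt_trans (by positivity) hloga
  obtain ⟨M₀, hfix⟩ := fixed_center f hf hd a ha1
  refine ⟨T₁ + M₀ + Real.log a + a, Λ₁ + |f a| + 1, by
    have : (0:ℝ) ≤ M₀ := Nat.cast_nonneg _
    linarith, by positivity, ?_⟩
  intro lam c N T hlam hT hN hcen
  have hM₀0 : (0:ℝ) ≤ M₀ := Nat.cast_nonneg _
  have hfa0 := abs_nonneg (f a)
  have hlam0 : 0 ≤ lam := by linarith only [hlam, hΛ₁, hfa0]
  have hT1 : 1 ≤ T := by linarith only [hT, hT₁, hM₀0, hloga0, ha0]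
  -- boundedness
  have hfl : ∀ V, V ≤ 20 * T → ⌊Real.exp V⌋₊ < N := by
    intro V hV
    rw [Nat.floor_lt (Real.exp_pos V).le]
    exact lt_of_le_of_lt (Real.exp_le_exp.mpr hV) hN
  have hfl1 : ∀ V, 0 ≤ V → 1 ≤ ⌊Real.exp V⌋₊ := by
    intro V hV
    rw [Nat.one_le_floor_iff]
    have := Real.add_one_le_exp V; linarith only [this, hV]
  obtain ⟨b, hb⟩ := hyers_ulam (fun V => c ⌊Real.exp V⌋₊) (19 * T) T (10 * lam) (∑ M ∈ range N, |c M|)
    (by linarith) (by linarith)
    (fun V _ hV2 => single_le_sum (f := fun M => |c M|) (fun _ _ => abs_nonneg _)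
      (mem_range.mpr (hfl V (by linarith))))
    (fun V₁ V₂ v h1 h2 h3 h4 h5 => hincr lam c N T (by linarith) (by linarith) hN hcen V₁ V₂ v
      (by linarith) (by linarith) h3 (by linarith) (by linarith))
  have e20 : 19 * T + T = 20 * T := by ring
  rw [e20] at hb
  refine ⟨b, ?_, ?_⟩
  · -- bound for b
    have h1 := hb (Real.log a) hloga0.le (by linarith only [hT, hT₁, hM₀0, ha0])
    have e1 : ⌊Real.exp (20 * T - Real.log a)⌋₊ = ⌊Real.exp (20 * T)⌋₊ / a := by
      rw [Real.exp_sub, Real.exp_log ha0, Nat.floor_div_natCast]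
    simp only [e1] at h1
    set M := ⌊Real.exp (20 * T)⌋₊ with hM
    have hMlt : M < N := hfl _ le_rfl
    have hM1 : 1 ≤ M := hfl1 _ (by linarith)
    have hMbig : M₀ ≤ M := by
      apply Nat.le_floor
      have := Real.add_one_le_exp (20 * T)
      linarith only [this, hT, hT₁, hM₀0, ha0, hloga0]
    have hMa : 1 ≤ M / a := by
      rw [Nat.le_div_iff_mul_le (by omega), one_mul]
      apply Nat.le_floor
      have := Real.add_one_le_exp (20 * T)
      linarith only [this, hT, hT₁, hM₀0, ha0, hloga0]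
    have h2 := hfix M hMbig lam c hlam0 (hcen M hM1 hMlt) (hcen (M / a) hMa (lt_of_le_of_lt (Nat.div_le_self _ _) hMlt))
    have h3 : |b| * Real.log a ≤ 32 * lam := by
      rw [← abs_of_pos hloga0, ← abs_mul]
      rw [abs_le] at h1 h2 ⊢
      have h4 := abs_le.mp (le_refl (|f a|))
      constructor
      · linarith only [h1.1, h1.2, h2.1, h2.2, h4.1, h4.2, hlam, hΛ₁]
      · linarith only [h1.1, h1.2, h2.1, h2.2, h4.1, h4.2, hlam, hΛ₁]
    have h5 : |b| * (32 / γ) ≤ 32 * lam := by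
      refine le_trans ?_ h3
      exact mul_le_mul_of_nonneg_left hloga.le (abs_nonneg _)
    rw [← mul_div_assoc, div_le_iff₀ hγ] at h5
    nlinarith
  · intro V hV1 hV2
    have h1 := hb (20 * T - V) (by linarith) (by linarith)
    have e1 : 20 * T - (20 * T - V) = V := by ring
    simp only [e1] at h1
    linarith

/-- proportion of `n ≤ N` satisfying a property -/
noncomputable def pr (N : ℕ) (S : ℕ → Prop) [DecidablePred S] : ℝ := E N (fun n => if S n then 1 else 0)

open Classical in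
lemma conc_centered (f : ℕ → ℝ) (lam b V cM ctop t20 : ℝ) (hlam : 0 ≤ lam) (hb : |b| ≤ lam / 4) (hV : 10 ≤ V)
    (hc : 3/4 ≤ prI f ⌊Real.exp V⌋₊ cM lam)
    (hlin : |ctop - cM - b * (t20 - V)| ≤ 30 * lam) :
    3/5 ≤ E ⌊Real.exp V⌋₊ (fun n => if |f n - b * Real.log n - (ctop - b * t20)| ≤ 40 * lam then (1:ℝ) else 0) := by
  set M := ⌊Real.exp V⌋₊ with hM
  have hexp : 11 ≤ Real.exp V := by have := Real.add_one_le_exp V; linarith
  have hM10 : 10 ≤ M := Nat.le_floor (by push_cast; linarith)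
  have hMr : (10:ℝ) ≤ M := by exact_mod_cast hM10
  have hMle : (M:ℝ) ≤ Real.exp V := Nat.floor_le (Real.exp_pos V).le
  have hMlt : Real.exp V < M + 1 := Nat.lt_floor_add_one _
  -- number of small n
  have hsmall : E M (fun n => if (n:ℝ) < Real.exp (V - 3) then (1:ℝ) else 0) ≤ 3/20 := by
    unfold E
    rw [div_le_iff₀ (by linarith)]
    have h1 : ∑ n ∈ Ioc 0 M, (if (n:ℝ) < Real.exp (V - 3) then (1:ℝ) else 0) ≤ Real.exp (V - 3) := by
      rw [← sum_filter, sum_const, nsmul_eq_mul, mul_one]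
      have hsub : (Ioc 0 M).filter (fun n : ℕ => (n:ℝ) < Real.exp (V - 3)) ⊆ Ioc 0 ⌊Real.exp (V - 3)⌋₊ := by
        intro n hn
        rw [mem_filter, mem_Ioc] at hn
        rw [mem_Ioc]
        exact ⟨hn.1.1, Nat.le_floor hn.2.le⟩
      have := card_le_card hsub
      rw [Nat.card_Ioc, Nat.sub_zero] at this
      calc (((Ioc 0 M).filter (fun n : ℕ => (n:ℝ) < Real.exp (V - 3))).card : ℝ) ≤ (⌊Real.exp (V - 3)⌋₊ : ℝ) := by exact_mod_cast this
        _ ≤ Real.exp (V - 3) := Nat.floor_le (Real.exp_pos _).le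
    have h2 : Real.exp (V - 3) ≤ Real.exp V / 8 := by
      rw [Real.exp_sub]
      apply div_le_div_of_nonneg_left (Real.exp_pos V).le (by norm_num)
      have e3 : Real.exp 3 = (Real.exp 1)^3 := by rw [← Real.exp_nat_mul]; norm_num
      rw [e3]
      have := Real.add_one_le_exp (1:ℝ)
      have h5 : (2:ℝ) ≤ Real.exp 1 := by linarith
      calc (8:ℝ) = 2^3 := by norm_num
        _ ≤ (Real.exp 1)^3 := by gcongr
    linarith
  have hmain : prI f M cM lam ≤
      E M (fun n => if |f n - b * Real.log n - (ctop - b * t20)| ≤ 40 * lam then (1:ℝ) else 0) +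
      E M (fun n => if (n:ℝ) < Real.exp (V - 3) then (1:ℝ) else 0) := by
    unfold prI
    rw [← E_add]
    apply E_mono
    intro n hn1 hnM
    by_cases h1 : cM ≤ f n ∧ f n ≤ cM + lam
    · rw [if_pos h1]
      by_cases h2 : (n:ℝ) < Real.exp (V - 3)
      · rw [if_pos h2]; split_ifs <;> norm_num
      · have h3 : |f n - b * Real.log n - (ctop - b * t20)| ≤ 40 * lam := by
          have hn0 : (0:ℝ) < n := by exact_mod_cast hn1
          have hl1 : V - 3 ≤ Real.log n := by
            rw [Real.le_log_iff_exp_le hn0]; exact not_lt.mp h2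
          have hl2 : Real.log n ≤ V := by
            have h5 : (n:ℝ) ≤ Real.exp V := le_trans (by exact_mod_cast hnM) hMle
            have := Real.log_le_log hn0 h5
            rwa [Real.log_exp] at this
          have h4 : |b * (V - Real.log n)| ≤ 3/4 * lam := by
            rw [abs_mul]
            have h5 : |V - Real.log n| ≤ 3 := by rw [abs_le]; constructor <;> linarith
            calc |b| * |V - Real.log n| ≤ lam / 4 * 3 := by gcongr
              _ = 3/4 * lam := by ring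
          rw [abs_le] at h4 hlin ⊢
          constructor
          · linarith only [h4.1, h4.2, hlin.1, hlin.2, h1.1, h1.2, hlam]
          · linarith only [h4.1, h4.2, hlin.1, hlin.2, h1.1, h1.2, hlam]
        rw [if_pos h3]; split_ifs <;> norm_num
    · rw [if_neg h1]; split_ifs <;> norm_num
  linarith

end Pool.Agent.helper76
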