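import Pool.Agent.helper76.Basic

/-! Second moment estimates for divisibility by primes. -/

namespace Pool.Agent.helper76

open Finset

lemma count_modEq (N m v : ℕ) (hm : 0 < m) :
    |(((Ioc 0 N).filter (fun n => n ≡ v [MOD m])).card : ℝ) - N / m| ≤ 1 := by
  have h := Nat.Ioc_filter_modEq_card 0 N hm v
  have hmq : (0:ℚ) < m := by exact_mod_cast hm
  rw [max_eq_left] at h
  · have h' : ((((Ioc 0 N).filter (fun n => n ≡ v [MOD m])).card : ℤ) : ℚ) =
      ((⌊((N:ℚ) - v) / m⌋ - ⌊(((0:ℕ):ℚ) - v) / m⌋ : ℤ) : ℚ) := by rw [h]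
    have h1 := Int.floor_le (((N:ℚ) - v) / m)
    have h2 := Int.lt_floor_add_one (((N:ℚ) - v) / m)
    have h3 := Int.floor_le ((((0:ℕ):ℚ) - v) / m)
    have h4 := Int.lt_floor_add_one ((((0:ℕ):ℚ) - v) / m)
    have h5 : ((N:ℚ) - v) / m - (((0:ℕ):ℚ) - v) / m = N / m := by
      field_simp; push_cast; ring
    have h6 : |((((Ioc 0 N).filter (fun n => n ≡ v [MOD m])).card : ℤ) : ℚ) - N / m| ≤ 1 := by
      rw [h', abs_le]; push_cast at *; constructor <;> linarith
    have h7 : |(((((Ioc 0 N).filter (fun n => n ≡ v [MOD m])).card : ℤ) : ℚ) : ℝ) - ((N / m : ℚ) : ℝ)| ≤ 1 := by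
      exact_mod_cast h6
    push_cast at h7
    exact h7
  · rw [sub_nonneg]
    apply Int.floor_mono
    push_cast
    gcongr
    positivity

lemma cross_bound (N p q a b : ℕ) (hp : 2 ≤ p) (hq : 2 ≤ q) (hpq : Nat.Coprime p q) :
    |∑ n ∈ Ioc 0 N, ((if p ∣ n + a then (p:ℝ) else 0) - 1) * ((if q ∣ n + b then (q:ℝ) else 0) - 1)|
      ≤ 2 * p * q := by
  set x : ℕ := (p - 1) * a with hx
  set y : ℕ := (q - 1) * b with hy
  have hxa : p ∣ x + a := by
    have : x + a = p * a := by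
      rw [hx]; obtain ⟨k, rfl⟩ : ∃ k, p = k + 1 := ⟨p - 1, by omega⟩
      simp; ring
    rw [this]; exact dvd_mul_right _ _
  have hyb : q ∣ y + b := by
    have : y + b = q * b := by
      rw [hy]; obtain ⟨k, rfl⟩ : ∃ k, q = k + 1 := ⟨q - 1, by omega⟩
      simp; ring
    rw [this]; exact dvd_mul_right _ _
  have hP : ∀ n, p ∣ n + a ↔ n ≡ x [MOD p] := by
    intro n
    constructor
    · intro h
      have h1 : n + a ≡ x + a [MOD p] :=
        ((Nat.modEq_zero_iff_dvd).mpr h).trans ((Nat.modEq_zero_iff_dvd).mpr hxa).symm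
      exact Nat.ModEq.add_right_cancel' a h1
    · intro h
      have h1 : n + a ≡ x + a [MOD p] := Nat.ModEq.add_right a h
      exact (Nat.modEq_zero_iff_dvd).mp (h1.trans ((Nat.modEq_zero_iff_dvd).mpr hxa))
  have hQ : ∀ n, q ∣ n + b ↔ n ≡ y [MOD q] := by
    intro n
    constructor
    · intro h
      have h1 : n + b ≡ y + b [MOD q] :=
        ((Nat.modEq_zero_iff_dvd).mpr h).trans ((Nat.modEq_zero_iff_dvd).mpr hyb).symm
      exact Nat.ModEq.add_right_cancel' b h1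
    · intro h
      have h1 : n + b ≡ y + b [MOD q] := Nat.ModEq.add_right b h
      exact (Nat.modEq_zero_iff_dvd).mp (h1.trans ((Nat.modEq_zero_iff_dvd).mpr hyb))
  obtain ⟨k, hk1, hk2⟩ := Nat.chineseRemainder hpq x y
  have hPQ : ∀ n, (p ∣ n + a ∧ q ∣ n + b) ↔ n ≡ k [MOD (p * q)] := by
    intro n
    rw [hP, hQ, ← Nat.modEq_and_modEq_iff_modEq_mul hpq]
    exact ⟨fun h => ⟨h.1.trans hk1.symm, h.2.trans hk2.symm⟩, fun h => ⟨h.1.trans hk1, h.2.trans hk2⟩⟩
  have c1 := count_modEq N p x (by omega)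
  have c2 := count_modEq N q y (by omega)
  have c3 := count_modEq N (p * q) k (by positivity)
  have e1 : ∑ n ∈ Ioc 0 N, (if p ∣ n + a then (p:ℝ) else 0)
      = p * (((Ioc 0 N).filter (fun n => n ≡ x [MOD p])).card : ℝ) := by
    rw [← sum_filter, sum_const, nsmul_eq_mul, mul_comm]
    simp only [hP]
  have e2 : ∑ n ∈ Ioc 0 N, (if q ∣ n + b then (q:ℝ) else 0)
      = q * (((Ioc 0 N).filter (fun n => n ≡ y [MOD q])).card : ℝ) := by
    rw [← sum_filter, sum_const, nsmul_eq_mul, mul_comm]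
    simp only [hQ]
  have e3 : ∑ n ∈ Ioc 0 N, (if p ∣ n + a then (p:ℝ) else 0) * (if q ∣ n + b then (q:ℝ) else 0)
      = (p * q) * (((Ioc 0 N).filter (fun n => n ≡ k [MOD (p*q)])).card : ℝ) := by
    have : ∀ n ∈ Ioc 0 N, (if p ∣ n + a then (p:ℝ) else 0) * (if q ∣ n + b then (q:ℝ) else 0)
      = if n ≡ k [MOD (p*q)] then (p:ℝ) * q else 0 := by
      intro n _
      simp only [← hPQ]
      split_ifs <;> simp_all
    rw [sum_congr rfl this, ← sum_filter, sum_const, nsmul_eq_mul, mul_comm]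
  have hexp : ∑ n ∈ Ioc 0 N, ((if p ∣ n + a then (p:ℝ) else 0) - 1) * ((if q ∣ n + b then (q:ℝ) else 0) - 1)
      = (p * q) * (((Ioc 0 N).filter (fun n => n ≡ k [MOD (p*q)])).card : ℝ)
        - p * (((Ioc 0 N).filter (fun n => n ≡ x [MOD p])).card : ℝ)
        - q * (((Ioc 0 N).filter (fun n => n ≡ y [MOD q])).card : ℝ) + N := by
    rw [← e1, ← e2, ← e3, ← sum_sub_distrib, ← sum_sub_distrib]
    have : (N:ℝ) = ∑ n ∈ Ioc 0 N, (1:ℝ) := by simp
    rw [this, ← sum_add_distrib]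
    apply sum_congr rfl
    intro n _
    ring
  rw [hexp]
  have hp0 : (2:ℝ) ≤ p := by exact_mod_cast hp
  have hq0 : (2:ℝ) ≤ q := by exact_mod_cast hq
  have d1 : |(p:ℝ) * (((Ioc 0 N).filter (fun n => n ≡ x [MOD p])).card : ℝ) - N| ≤ p := by
    have : (p:ℝ) * (((Ioc 0 N).filter (fun n => n ≡ x [MOD p])).card : ℝ) - N =
      p * ((((Ioc 0 N).filter (fun n => n ≡ x [MOD p])).card : ℝ) - N / p) := by field_simp
    rw [this, abs_mul, abs_of_nonneg (by positivity)]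
    nlinarith
  have d2 : |(q:ℝ) * (((Ioc 0 N).filter (fun n => n ≡ y [MOD q])).card : ℝ) - N| ≤ q := by
    have : (q:ℝ) * (((Ioc 0 N).filter (fun n => n ≡ y [MOD q])).card : ℝ) - N =
      q * ((((Ioc 0 N).filter (fun n => n ≡ y [MOD q])).card : ℝ) - N / q) := by field_simp
    rw [this, abs_mul, abs_of_nonneg (by positivity)]
    nlinarith
  have d3 : |(p * q : ℝ) * (((Ioc 0 N).filter (fun n => n ≡ k [MOD (p*q)])).card : ℝ) - N| ≤ p * q := by
    have : (p * q :ℝ) * (((Ioc 0 N).filter (fun n => n ≡ k [MOD (p*q)])).card : ℝ) - N =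
      (p * q) * ((((Ioc 0 N).filter (fun n => n ≡ k [MOD (p*q)])).card : ℝ) - N / ((p * q : ℕ) : ℝ)) := by
      push_cast; field_simp
    rw [this, abs_mul, abs_of_nonneg (by positivity)]
    have : (0:ℝ) ≤ p * q := by positivity
    nlinarith
  rw [abs_le] at *
  constructor <;> nlinarith

end Pool.Agent.helper76
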