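import Pool.Agent.helper76.Moment

/-! Second moment estimates for divisibility by primes, II. -/

namespace Pool.Agent.helper76

open Finset

/-- number of `j < H` with `p ∣ m + j`, compared with `H / p` -/
lemma count_window (p m H : ℕ) (hp : 0 < p) :
    |(p:ℝ) * (((range H).filter (fun j => p ∣ m + j)).card : ℝ) - H| ≤ p := by
  set x : ℕ := (p - 1) * m + (p - 1) with hx
  -- p ∣ m + j  iff  (j+1) ≡ x+1... we use shift j = i - 1
  have key : ((range H).filter (fun j => p ∣ m + j)).card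
      = ((Ioc 0 H).filter (fun n => n ≡ (p-1) * m + 1 [MOD p])).card := by
    apply card_bij (fun j _ => j + 1)
    · intro j hj
      rw [mem_filter, mem_range] at hj
      rw [mem_filter, mem_Ioc]
      refine ⟨⟨by omega, by omega⟩, ?_⟩
      apply Nat.ModEq.add_right
      have h1 : (p - 1) * m + m = p * m := by
        obtain ⟨k, rfl⟩ : ∃ k, p = k + 1 := ⟨p - 1, by omega⟩
        simp; ring
      have h2 : j + m ≡ (p-1) * m + m [MOD p] := by
        rw [h1]
        refine ((Nat.modEq_zero_iff_dvd).mpr (by rw [add_comm]; exact hj.2)).trans ?_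
        exact ((Nat.modEq_zero_iff_dvd).mpr (dvd_mul_right _ _)).symm
      exact Nat.ModEq.add_right_cancel' m h2
    · intro a _ b _ h
      simpa using h
    · intro n hn
      rw [mem_filter, mem_Ioc] at hn
      refine ⟨n - 1, ?_, by omega⟩
      rw [mem_filter, mem_range]
      refine ⟨by omega, ?_⟩
      have h1 : (p - 1) * m + m = p * m := by
        obtain ⟨k, rfl⟩ : ∃ k, p = k + 1 := ⟨p - 1, by omega⟩
        simp; ring
      have h2 : n + m ≡ (p-1) * m + 1 + m [MOD p] := Nat.ModEq.add_right m hn.2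
      have h3 : n - 1 + m + 1 ≡ (p-1)*m + m + 1 [MOD p] := by
        have e1 : n - 1 + m + 1 = n + m := by omega
        have e2 : (p-1)*m + m + 1 = (p-1) * m + 1 + m := by ring
        rw [e1, e2]; exact h2
      have h4 : n - 1 + m ≡ (p-1)*m + m [MOD p] := Nat.ModEq.add_right_cancel' 1 h3
      rw [h1] at h4
      have := (Nat.modEq_zero_iff_dvd).mp (h4.trans ((Nat.modEq_zero_iff_dvd).mpr (dvd_mul_right _ _)))
      rwa [add_comm] at this
  rw [key]
  have c := count_modEq H p ((p-1)*m+1) hp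
  have hp' : (0:ℝ) < p := by exact_mod_cast hp
  have : (p:ℝ) * (((Ioc 0 H).filter (fun n => n ≡ (p-1) * m + 1 [MOD p])).card : ℝ) - H =
      p * ((((Ioc 0 H).filter (fun n => n ≡ (p-1) * m + 1 [MOD p])).card : ℝ) - H / p) := by
    field_simp
  rw [this, abs_mul, abs_of_nonneg hp'.le]
  nlinarith

/-- the centred local divisibility function, averaged over a window of length `H` -/
noncomputable def gw (p H s n : ℕ) : ℝ :=
  (∑ j ∈ range H, ((if p ∣ n + (s + j) then (p:ℝ) else 0) - 1)) / H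

lemma sum_window_eq (p m H : ℕ) : ∑ j ∈ range H, ((if p ∣ m + j then (p:ℝ) else 0) - 1)
    = (p:ℝ) * (((range H).filter (fun j => p ∣ m + j)).card : ℝ) - H := by
  rw [sum_sub_distrib, ← sum_filter, sum_const, nsmul_eq_mul]; simp; ring

lemma gw_diag (N p H s : ℕ) (hp : 2 ≤ p) (hH : 1 ≤ H) :
    ∑ n ∈ Ioc 0 N, gw p H s n * gw p H s n ≤ (p / H) * (2 * N + p) := by
  have hH' : (0:ℝ) < H := by exact_mod_cast hH
  have hp' : (0:ℝ) < p := by exact_mod_cast (by omega : 0 < p)
  have h1 : ∀ n ∈ Ioc 0 N, gw p H s n * gw p H s n ≤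
      (p / H^2) * ((∑ j ∈ range H, (if p ∣ n + (s + j) then (p:ℝ) else 0)) + H) := by
    intro n _
    unfold gw
    have e := sum_window_eq p (n + s) H
    have e' : ∑ j ∈ range H, ((if p ∣ n + (s + j) then (p:ℝ) else 0) - 1) =
      (p:ℝ) * (((range H).filter (fun j => p ∣ (n + s) + j)).card : ℝ) - H := by
      rw [← e]; simp only [add_assoc]
    have e'' : ∑ j ∈ range H, (if p ∣ n + (s + j) then (p:ℝ) else 0) =
      (p:ℝ) * (((range H).filter (fun j => p ∣ (n + s) + j)).card : ℝ) := by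
      rw [← sum_filter, sum_const, nsmul_eq_mul, mul_comm]; simp only [add_assoc]
    have b := count_window p (n + s) H (by omega)
    rw [e', e'']
    set C := (p:ℝ) * (((range H).filter (fun j => p ∣ (n + s) + j)).card : ℝ) with hC
    have hC0 : 0 ≤ C := by positivity
    have h2 : (C - H) * (C - H) ≤ p * (C + H) := by
      rw [← abs_mul_abs_self (C - H)]
      have h3 : |C - H| ≤ C + H := by rw [abs_le]; constructor <;> linarith
      have h4 := abs_nonneg (C - H)
      nlinarith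
    have : (C - H) / H * ((C - H) / H) = (C - H) * (C - H) / H^2 := by field_simp
    rw [this]
    have : (p:ℝ) / H ^ 2 * (C + H) = (p * (C + H)) / H^2 := by ring
    rw [this]
    gcongr
  refine (sum_le_sum h1).trans ?_
  rw [← mul_sum, sum_add_distrib, sum_comm]
  have h2 : ∀ j ∈ range H, ∑ n ∈ Ioc 0 N, (if p ∣ n + (s + j) then (p:ℝ) else 0) ≤ N + p := by
    intro j _
    -- count of n ≤ N with p | n + a
    have hc : |(p:ℝ) * (((range N).filter (fun i => p ∣ (s + j + 1) + i)).card : ℝ) - N| ≤ p :=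
      count_window p (s + j + 1) N (by omega)
    have : ∑ n ∈ Ioc 0 N, (if p ∣ n + (s + j) then (p:ℝ) else 0) =
        (p:ℝ) * (((range N).filter (fun i => p ∣ (s + j + 1) + i)).card : ℝ) := by
      rw [mul_comm, ← nsmul_eq_mul, ← sum_const, sum_filter]
      rw [← Nat.Ico_zero_eq_range, Finset.sum_Ico_eq_sum_range]
      have : Ioc 0 N = Ico 1 (N + 1) := by ext; simp; omega
      rw [this, Finset.sum_Ico_eq_sum_range]
      simp only [Nat.add_sub_cancel, Nat.sub_zero, zero_add]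
      apply sum_congr rfl
      intro i _
      have : 1 + i + (s + j) = s + j + 1 + i := by ring
      rw [this]
    rw [this]
    have := (abs_le.mp hc).2
    linarith
  have h3 := sum_le_sum h2
  simp only [sum_const, card_range, nsmul_eq_mul, Nat.card_Ioc, Nat.sub_zero] at h3 ⊢
  have h4 : (p:ℝ) / H ^ 2 * (∑ j ∈ range H, ∑ n ∈ Ioc 0 N, (if p ∣ n + (s + j) then (p:ℝ) else 0) + N * H)
      ≤ (p:ℝ) / H^2 * (H * (N + p) + N * H) := by gcongr
  refine h4.trans (le_of_eq ?_)
  field_simp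
  ring

lemma gw_cross (N p q H s : ℕ) (hp : 2 ≤ p) (hq : 2 ≤ q) (hpq : Nat.Coprime p q) (hH : 1 ≤ H) :
    |∑ n ∈ Ioc 0 N, gw p H s n * gw q H s n| ≤ 2 * p * q := by
  have hH' : (0:ℝ) < H := by exact_mod_cast hH
  have h1 : ∑ n ∈ Ioc 0 N, gw p H s n * gw q H s n =
      (∑ i ∈ range H, ∑ j ∈ range H, ∑ n ∈ Ioc 0 N,
        ((if p ∣ n + (s + i) then (p:ℝ) else 0) - 1) * ((if q ∣ n + (s + j) then (q:ℝ) else 0) - 1)) / H^2 := by
    have : ∀ n, gw p H s n * gw q H s n = (∑ i ∈ range H, ∑ j ∈ range H,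
        ((if p ∣ n + (s + i) then (p:ℝ) else 0) - 1) * ((if q ∣ n + (s + j) then (q:ℝ) else 0) - 1)) / H^2 := by
      intro n
      unfold gw
      rw [← sum_mul_sum]
      field_simp
    simp_rw [this]
    rw [← sum_div, sum_comm]
    congr 1
    apply sum_congr rfl
    intro i _
    rw [sum_comm]
  rw [h1, abs_div, abs_of_nonneg (by positivity : (0:ℝ) ≤ (H:ℝ)^2), div_le_iff₀ (by positivity)]
  refine (abs_sum_le_sum_abs _ _).trans ?_
  have : ∀ i ∈ range H, |∑ j ∈ range H, ∑ n ∈ Ioc 0 N,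
        ((if p ∣ n + (s + i) then (p:ℝ) else 0) - 1) * ((if q ∣ n + (s + j) then (q:ℝ) else 0) - 1)|
      ≤ H * (2 * p * q) := by
    intro i _
    refine (abs_sum_le_sum_abs _ _).trans ?_
    have : ∀ j ∈ range H, |∑ n ∈ Ioc 0 N,
        ((if p ∣ n + (s + i) then (p:ℝ) else 0) - 1) * ((if q ∣ n + (s + j) then (q:ℝ) else 0) - 1)|
      ≤ 2 * p * q := fun j _ => cross_bound N p q (s+i) (s+j) hp hq hpq
    refine (sum_le_sum this).trans ?_
    simp
  refine (sum_le_sum this).trans ?_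
  simp only [sum_const, card_range, nsmul_eq_mul]
  apply le_of_eq; ring

/-- Main second moment estimate. -/
lemma moment (P : Finset ℕ) (Q N H s : ℕ) (hP : ∀ p ∈ P, p.Prime ∧ p ≤ Q) (hH : 1 ≤ H) (c : ℕ → ℝ) :
    ∑ n ∈ Ioc 0 N, (∑ p ∈ P, c p * gw p H s n)^2 ≤
      (∑ p ∈ P, p * (c p)^2) * ((2 * N + Q) / H + 2 * (Q:ℝ)^2) := by
  have hH' : (0:ℝ) < H := by exact_mod_cast hH
  have h1 : ∑ n ∈ Ioc 0 N, (∑ p ∈ P, c p * gw p H s n)^2 =
      ∑ p ∈ P, ∑ q ∈ P, c p * c q * ∑ n ∈ Ioc 0 N, gw p H s n * gw q H s n := by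
    simp_rw [sq, sum_mul_sum, mul_sum]
    rw [sum_comm]
    apply sum_congr rfl
    intro p _
    rw [sum_comm]
    apply sum_congr rfl
    intro q _
    apply sum_congr rfl
    intro n _
    ring
  rw [h1]
  have h2 : ∀ p ∈ P, ∑ q ∈ P, c p * c q * ∑ n ∈ Ioc 0 N, gw p H s n * gw q H s n ≤
      (p * (c p)^2) * ((2 * N + Q) / H) + ∑ q ∈ P, 2 * (p * |c p|) * (q * |c q|) := by
    intro p hp
    have hp2 : (0:ℝ) < p := by exact_mod_cast (hP p hp).1.pos
    rw [← add_sum_erase _ _ hp]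
    apply add_le_add
    · have := gw_diag N p H s (hP p hp).1.two_le hH
      have hpQ : (p:ℝ) ≤ Q := by exact_mod_cast (hP p hp).2
      calc c p * c p * ∑ n ∈ Ioc 0 N, gw p H s n * gw p H s n
          ≤ c p * c p * ((p / H) * (2 * N + p)) := by
            apply mul_le_mul_of_nonneg_left this (mul_self_nonneg _)
        _ ≤ c p * c p * ((p / H) * (2 * N + Q)) := by
            apply mul_le_mul_of_nonneg_left _ (mul_self_nonneg _)
            gcongr
        _ = (p * (c p)^2) * ((2 * N + Q) / H) := by ring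
    · calc ∑ q ∈ P.erase p, c p * c q * ∑ n ∈ Ioc 0 N, gw p H s n * gw q H s n
          ≤ ∑ q ∈ P.erase p, 2 * (p * |c p|) * (q * |c q|) := by
            apply sum_le_sum
            intro q hq
            rw [mem_erase] at hq
            have hcop : Nat.Coprime p q :=
              (Nat.coprime_primes (hP p hp).1 (hP q hq.2).1).mpr (Ne.symm hq.1)
            have := gw_cross N p q H s (hP p hp).1.two_le (hP q hq.2).1.two_le hcop hH
            calc c p * c q * ∑ n ∈ Ioc 0 N, gw p H s n * gw q H s n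
                ≤ |c p * c q * ∑ n ∈ Ioc 0 N, gw p H s n * gw q H s n| := le_abs_self _
              _ = |c p| * |c q| * |∑ n ∈ Ioc 0 N, gw p H s n * gw q H s n| := by
                  rw [abs_mul, abs_mul]
              _ ≤ |c p| * |c q| * (2 * p * q) := by gcongr
              _ = _ := by ring
        _ ≤ ∑ q ∈ P, 2 * (p * |c p|) * (q * |c q|) := by
            apply sum_le_sum_of_subset_of_nonneg (erase_subset _ _)
            intro q _ _
            positivity
  refine (sum_le_sum h2).trans ?_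
  rw [sum_add_distrib, ← sum_mul]
  have h3 : ∑ p ∈ P, ∑ q ∈ P, 2 * (p * |c p|) * (q * |c q|) = 2 * (∑ p ∈ P, p * |c p|)^2 := by
    rw [sq, sum_mul_sum, mul_sum]
    apply sum_congr rfl
    intro p _
    rw [mul_sum]
    apply sum_congr rfl
    intro q _
    ring
  rw [h3]
  have h4 : (∑ p ∈ P, (p:ℝ) * |c p|)^2 ≤ (∑ p ∈ P, (p:ℝ)) * (∑ p ∈ P, p * (c p)^2) := by
    have := Finset.sum_mul_sq_le_sq_mul_sq P (fun p => Real.sqrt p) (fun p => Real.sqrt p * |c p|)
    have e1 : ∀ p ∈ P, Real.sqrt (p:ℝ) * (Real.sqrt p * |c p|) = p * |c p| := by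
      intro p _
      rw [← mul_assoc, Real.mul_self_sqrt (Nat.cast_nonneg _)]
    have e2 : ∀ p ∈ P, Real.sqrt (p:ℝ) ^ 2 = p := fun p _ => Real.sq_sqrt (Nat.cast_nonneg _)
    have e3 : ∀ p ∈ P, (Real.sqrt (p:ℝ) * |c p|) ^ 2 = p * (c p)^2 := by
      intro p _
      rw [mul_pow, Real.sq_sqrt (Nat.cast_nonneg _), sq_abs]
    rw [sum_congr rfl e1, sum_congr rfl e2, sum_congr rfl e3] at this
    exact this
  have h5 : (∑ p ∈ P, (p:ℝ)) ≤ (Q:ℝ)^2 := by
    have hsub : P ⊆ Ioc 0 Q := by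
      intro p hp
      rw [mem_Ioc]
      exact ⟨(hP p hp).1.pos, (hP p hp).2⟩
    calc (∑ p ∈ P, (p:ℝ)) ≤ ∑ p ∈ P, (Q:ℝ) := by
          apply sum_le_sum; intro p hp; exact_mod_cast (hP p hp).2
      _ = P.card * Q := by simp
      _ ≤ Q * Q := by
          gcongr
          have := card_le_card hsub
          simpa using this
      _ = Q^2 := by ring
  have h6 : 0 ≤ ∑ p ∈ P, (p:ℝ) * (c p)^2 := sum_nonneg fun p _ => by positivity
  nlinarith

end Pool.Agent.helper76
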