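import Pool.Agent.helper76.Moment2

/-! Multiples of primes and almost shift-invariant functions. -/

namespace Pool.Agent.helper76

open Finset

lemma shift_var (w : ℕ → ℝ) (N j : ℕ) :
    ∑ n ∈ Ioc 0 N, |w (n + j) - w n| ≤ j * V (N + j) w := by
  induction j with
  | zero => simp
  | succ k ih =>
    have h1 : ∀ n ∈ Ioc 0 N, |w (n + (k+1)) - w n| ≤ |w (n + k) - w n| + |w (n + k + 1) - w (n + k)| := by
      intro n _
      have : w (n + (k+1)) - w n = (w (n + k) - w n) + (w (n + k + 1) - w (n + k)) := by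
        rw [← add_assoc]; ring
      rw [this]; exact abs_add_le _ _
    refine (sum_le_sum h1).trans ?_
    rw [sum_add_distrib]
    have h2 : ∑ n ∈ Ioc 0 N, |w (n + k + 1) - w (n + k)| ≤ V (N + (k+1)) w := by
      unfold V
      have : ∑ n ∈ Ioc 0 N, |w (n + k + 1) - w (n + k)| = ∑ n ∈ (Ioc 0 N).map (addRightEmbedding k), |w (n + 1) - w n| := by
        rw [sum_map]; rfl
      rw [this]
      apply sum_le_sum_of_subset_of_nonneg
      · intro m hm
        rw [mem_map] at hm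
        obtain ⟨n, hn, rfl⟩ := hm
        rw [mem_Ioc] at hn
        rw [mem_Ioc]
        simp only [addRightEmbedding_apply]
        omega
      · intro _ _ _; exact abs_nonneg _
    have h3 : (k:ℝ) * V (N + k) w ≤ k * V (N + (k+1)) w := by
      apply mul_le_mul_of_nonneg_left (V_mono (by omega) w) (Nat.cast_nonneg k)
    push_cast
    linarith

lemma window_split (g : ℕ → ℝ) (N j : ℕ) :
    ∑ n ∈ Ioc 0 N, g n - ∑ n ∈ Ioc 0 N, g (n + j) = ∑ n ∈ Ioc 0 j, g n - ∑ n ∈ Ioc N (N + j), g n := by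
  have h1 : ∑ n ∈ Ioc 0 N, g (n + j) = ∑ n ∈ Ioc j (N + j), g n := by
    have : (Ioc j (N+j)) = (Ioc 0 N).map (addRightEmbedding j) := by
      rw [Finset.map_add_right_Ioc]; simp
    rw [this, sum_map]; rfl
  have h2 := Finset.sum_Ioc_consecutive g (Nat.zero_le N) (Nat.le_add_right N j)
  have h3 := Finset.sum_Ioc_consecutive g (Nat.zero_le j) (Nat.le_add_left j N)
  rw [h1]; linarith

lemma sieve_core (P : Finset ℕ) (Q N H : ℕ) (hP : ∀ p ∈ P, p.Prime ∧ p ≤ Q) (hH : 1 ≤ H) (hN : 1 ≤ N)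
    (w : ℕ → ℝ) (hw : ∀ n, |w n| ≤ 1) :
    ∑ p ∈ P, (E N (fun n => w n * ((if p ∣ n then (p:ℝ) else 0) - 1)))^2 / p ≤
      3 * (N * ((2 * N + Q) / H + 2 * (Q:ℝ)^2) + 2 * H * V (N + H) w * (2 * N + Q + 2 * (Q:ℝ)^2)
        + 4 * (H:ℝ)^2 * (Q:ℝ)^2) / (N:ℝ)^2 := by
  set a : ℕ → ℝ := fun p => E N (fun n => w n * ((if p ∣ n then (p:ℝ) else 0) - 1)) with ha
  set c : ℕ → ℝ := fun p => a p / p with hc
  set T : ℝ := ∑ p ∈ P, p * (c p)^2 with hT
  have hN' : (0:ℝ) < N := by exact_mod_cast hN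
  have hH' : (0:ℝ) < H := by exact_mod_cast hH
  have hpp : ∀ p ∈ P, (0:ℝ) < p := fun p hp => by exact_mod_cast (hP p hp).1.pos
  have hTeq : ∑ p ∈ P, (a p)^2 / p = T := by
    apply sum_congr rfl
    intro p hp
    have := hpp p hp
    simp only [hc]; field_simp
  have hT0 : 0 ≤ T := sum_nonneg fun p _ => by positivity
  change ∑ p ∈ P, (a p)^2 / p ≤ _
  rw [hTeq]
  -- the function G
  set G : ℕ → ℝ := fun n => ∑ p ∈ P, c p * ((if p ∣ n then (p:ℝ) else 0) - 1) with hG
  have hX : ∑ n ∈ Ioc 0 N, w n * G n = N * T := by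
    have : ∀ n ∈ Ioc 0 N, w n * G n = ∑ p ∈ P, c p * (w n * ((if p ∣ n then (p:ℝ) else 0) - 1)) := by
      intro n _
      simp only [hG, mul_sum]
      apply sum_congr rfl; intro p _; ring
    rw [sum_congr rfl this, sum_comm, hT, mul_sum]
    apply sum_congr rfl
    intro p hp
    have hp0 := hpp p hp
    rw [← mul_sum]
    have : ∑ n ∈ Ioc 0 N, w n * ((if p ∣ n then (p:ℝ) else 0) - 1) = N * a p := by
      simp only [ha, E]; field_simp
    rw [this]
    simp only [hc]; field_simp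
  -- sup bound of G
  have hGsup : ∀ n, |G n| ≤ ∑ p ∈ P, p * |c p| := by
    intro n
    refine (abs_sum_le_sum_abs _ _).trans (sum_le_sum fun p hp => ?_)
    rw [abs_mul, mul_comm]
    apply mul_le_mul_of_nonneg_right _ (abs_nonneg _)
    have : (1:ℝ) ≤ p := by exact_mod_cast (hP p hp).1.one_lt.le
    rw [abs_le]; split_ifs <;> constructor <;> linarith
  have hS2 : (∑ p ∈ P, (p:ℝ) * |c p|)^2 ≤ (Q:ℝ)^2 * T := by
    have := Finset.sum_mul_sq_le_sq_mul_sq P (fun p => Real.sqrt p) (fun p => Real.sqrt p * |c p|)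
    have e1 : ∀ p ∈ P, Real.sqrt (p:ℝ) * (Real.sqrt p * |c p|) = p * |c p| := by
      intro p _
      rw [← mul_assoc, Real.mul_self_sqrt (Nat.cast_nonneg _)]
    have e2 : ∀ p ∈ P, Real.sqrt (p:ℝ) ^ 2 = p := fun p _ => Real.sq_sqrt (Nat.cast_nonneg _)
    have e3 : ∀ p ∈ P, (Real.sqrt (p:ℝ) * |c p|) ^ 2 = p * (c p)^2 := by
      intro p _
      rw [mul_pow, Real.sq_sqrt (Nat.cast_nonneg _), sq_abs]
    rw [sum_congr rfl e1, sum_congr rfl e2, sum_congr rfl e3] at this
    refine this.trans ?_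
    apply mul_le_mul_of_nonneg_right _ hT0
    have hsub : P ⊆ Ioc 0 Q := by
      intro p hp
      rw [mem_Ioc]
      exact ⟨(hP p hp).1.pos, (hP p hp).2⟩
    calc (∑ p ∈ P, (p:ℝ)) ≤ ∑ p ∈ P, (Q:ℝ) := by
          apply sum_le_sum; intro p hp; exact_mod_cast (hP p hp).2
      _ = P.card * Q := by simp
      _ ≤ Q * Q := by
          gcongr
          have := card_le_card hsub
          simpa using this
      _ = Q^2 := by ring
  -- three parts
  set X1 : ℕ → ℝ := fun j => ∑ n ∈ Ioc 0 N, w n * G (n + j) with hX1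
  set X2 : ℕ → ℝ := fun j => ∑ n ∈ Ioc 0 N, (w (n + j) - w n) * G (n + j) with hX2
  set X3 : ℕ → ℝ := fun j => ∑ n ∈ Ioc 0 j, w n * G n - ∑ n ∈ Ioc N (N + j), w n * G n with hX3
  have hdec : ∀ j, (N:ℝ) * T = X1 j + X2 j + X3 j := by
    intro j
    rw [← hX]
    have h1 : X1 j + X2 j = ∑ n ∈ Ioc 0 N, w (n + j) * G (n + j) := by
      simp only [hX1, hX2]; rw [← sum_add_distrib]; apply sum_congr rfl; intro n _; ring
    have h2 := window_split (fun n => w n * G n) N j
    rw [h1]; simp only [hX3]; linarith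
  -- part 1
  have hp1 : (∑ j ∈ range H, X1 j)^2 ≤ (H:ℝ)^2 * (N * (T * ((2 * N + Q) / H + 2 * (Q:ℝ)^2))) := by
    have e : ∑ j ∈ range H, X1 j = H * ∑ n ∈ Ioc 0 N, w n * (∑ p ∈ P, c p * gw p H 0 n) := by
      simp only [hX1]
      rw [sum_comm, mul_sum]
      apply sum_congr rfl
      intro n _
      rw [← mul_sum]
      have : ∑ j ∈ range H, G (n + j) = H * ∑ p ∈ P, c p * gw p H 0 n := by
        simp only [hG]
        rw [sum_comm, mul_sum]
        apply sum_congr rfl
        intro p _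
        unfold gw
        rw [← mul_sum]
        simp only [zero_add]
        field_simp
      rw [this]; ring
    rw [e, mul_pow]
    apply mul_le_mul_of_nonneg_left _ (by positivity)
    refine (Finset.sum_mul_sq_le_sq_mul_sq _ _ _).trans ?_
    have h1 : ∑ n ∈ Ioc 0 N, (w n)^2 ≤ N := by
      calc ∑ n ∈ Ioc 0 N, (w n)^2 ≤ ∑ n ∈ Ioc 0 N, (1:ℝ) := by
            apply sum_le_sum; intro n _
            have := hw n
            rw [← sq_abs]; have := abs_nonneg (w n); nlinarith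
        _ = N := by simp
    have h2 := moment P Q N H 0 hP hH c
    apply mul_le_mul h1 h2 (sum_nonneg fun _ _ => sq_nonneg _) hN'.le
  -- part 2
  have hV0 : 0 ≤ V (N + H) w := V_nonneg _ _
  have hp2 : ∀ j ∈ range H, (X2 j)^2 ≤ 2 * H * V (N + H) w * (T * (2 * N + Q + 2 * (Q:ℝ)^2)) := by
    intro j hj
    rw [mem_range] at hj
    refine (Finset.sum_mul_sq_le_sq_mul_sq _ _ _).trans ?_
    have h1 : ∑ n ∈ Ioc 0 N, (w (n + j) - w n)^2 ≤ 2 * H * V (N + H) w := by
      calc ∑ n ∈ Ioc 0 N, (w (n + j) - w n)^2 ≤ ∑ n ∈ Ioc 0 N, 2 * |w (n + j) - w n| := by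
            apply sum_le_sum; intro n _
            have h1 := abs_le.mp (hw n)
            have h2 := abs_le.mp (hw (n+j))
            have h3 : |w (n + j) - w n| ≤ 2 := by rw [abs_le]; constructor <;> linarith
            rw [← sq_abs]; have := abs_nonneg (w (n+j) - w n); nlinarith
        _ = 2 * ∑ n ∈ Ioc 0 N, |w (n + j) - w n| := by rw [mul_sum]
        _ ≤ 2 * (j * V (N + j) w) := by
            have := shift_var w N j; linarith
        _ ≤ 2 * (H * V (N + H) w) := by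
            have hjH : (j:ℝ) ≤ H := by exact_mod_cast hj.le
            have hVV : V (N + j) w ≤ V (N + H) w := V_mono (by omega) w
            have := V_nonneg (N + j) w
            gcongr
        _ = _ := by ring
    have h2 := moment P Q N 1 j hP le_rfl c
    have h3 : ∀ n ∈ Ioc 0 N, (∑ p ∈ P, c p * gw p 1 j n)^2 = (G (n + j))^2 := by
      intro n _
      simp only [hG, gw, range_one, sum_singleton, Nat.cast_one, div_one, add_zero]
    rw [sum_congr rfl h3] at h2
    simp only [Nat.cast_one, div_one] at h2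
    apply mul_le_mul h1 h2 (sum_nonneg fun _ _ => sq_nonneg _) (by positivity)
  -- part 3
  set S : ℝ := ∑ p ∈ P, (p:ℝ) * |c p| with hS
  have hS0 : 0 ≤ S := sum_nonneg fun p _ => by positivity
  have hp3 : ∀ j ∈ range H, |X3 j| ≤ 2 * H * S := by
    intro j hj
    rw [mem_range] at hj
    have hb : ∀ s : Finset ℕ, |∑ n ∈ s, w n * G n| ≤ s.card * S := by
      intro s
      refine (abs_sum_le_sum_abs _ _).trans ?_
      calc ∑ n ∈ s, |w n * G n| ≤ ∑ n ∈ s, S := by
            apply sum_le_sum; intro n _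
            rw [abs_mul]
            have h1 := hw n; have h2 := hGsup n; have h3 := abs_nonneg (w n)
            have h4 := abs_nonneg (G n)
            calc |w n| * |G n| ≤ 1 * S := by gcongr
              _ = S := one_mul _
        _ = s.card * S := by simp
    have h1 := hb (Ioc 0 j)
    have h2 := hb (Ioc N (N + j))
    simp only [Nat.card_Ioc, Nat.sub_zero, Nat.add_sub_cancel_left] at h1 h2
    have hjH : (j:ℝ) ≤ H := by exact_mod_cast hj.le
    have h3 : |X3 j| ≤ j * S + j * S := by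
      simp only [hX3]
      refine (abs_sub _ _).trans ?_
      linarith
    nlinarith
  -- combine
  have hall : (H:ℝ) * (N * T) = ∑ j ∈ range H, X1 j + ∑ j ∈ range H, X2 j + ∑ j ∈ range H, X3 j := by
    rw [← sum_add_distrib, ← sum_add_distrib]
    have : ∑ j ∈ range H, (N:ℝ) * T = ∑ j ∈ range H, (X1 j + X2 j + X3 j) :=
      sum_congr rfl fun j _ => hdec j
    rw [← this]; simp
  have q2 : (∑ j ∈ range H, X2 j)^2 ≤ (H:ℝ)^2 * (2 * H * V (N + H) w * (T * (2 * N + Q + 2 * (Q:ℝ)^2))) := by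
    have h := sq_sum_le_card_mul_sum_sq (s := range H) (f := X2)
    refine h.trans ?_
    rw [card_range]
    have := sum_le_sum hp2
    rw [sum_const, card_range, nsmul_eq_mul] at this
    nlinarith
  have q3 : (∑ j ∈ range H, X3 j)^2 ≤ (H:ℝ)^2 * (4 * (H:ℝ)^2 * ((Q:ℝ)^2 * T)) := by
    have h : |∑ j ∈ range H, X3 j| ≤ H * (2 * H * S) := by
      refine (abs_sum_le_sum_abs _ _).trans ?_
      have := sum_le_sum hp3
      rw [sum_const, card_range, nsmul_eq_mul] at this
      exact this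
    rw [← sq_abs]
    calc |∑ j ∈ range H, X3 j|^2 ≤ (H * (2 * H * S))^2 := by
          gcongr
      _ = (H:ℝ)^2 * (4 * H^2 * S^2) := by ring
      _ ≤ _ := by gcongr
  have hfin : ((H:ℝ) * (N * T))^2 ≤ (H:ℝ)^2 * (T * (3 * (N * ((2 * N + Q) / H + 2 * (Q:ℝ)^2) + 2 * H * V (N + H) w * (2 * N + Q + 2 * (Q:ℝ)^2)
        + 4 * (H:ℝ)^2 * (Q:ℝ)^2))) := by
    rw [hall]
    set A1 := ∑ j ∈ range H, X1 j
    set A2 := ∑ j ∈ range H, X2 j
    set A3 := ∑ j ∈ range H, X3 j
    have : (A1 + A2 + A3)^2 ≤ 3 * (A1^2 + A2^2 + A3^2) := by nlinarith [sq_nonneg (A1 - A2), sq_nonneg (A2 - A3), sq_nonneg (A1 - A3)]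
    refine this.trans ?_
    linarith
  set R := 3 * (N * ((2 * N + Q) / H + 2 * (Q:ℝ)^2) + 2 * H * V (N + H) w * (2 * N + Q + 2 * (Q:ℝ)^2)
        + 4 * (H:ℝ)^2 * (Q:ℝ)^2) with hR
  rw [le_div_iff₀ (by positivity)]
  rcases hT0.eq_or_lt with h0 | h0
  · rw [← h0]; simp; positivity
  · have : (H:ℝ)^2 * (T * (T * N^2)) ≤ (H:ℝ)^2 * (T * R) := by nlinarith
    have h2 := le_of_mul_le_mul_left this (by positivity)
    exact le_of_mul_le_mul_left h2 h0

end Pool.Agent.helper76
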