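import Pool.Agent.helper76.Sieve

/-! Epsilon versions of the sieve lemma. -/

namespace Pool.Agent.helper76

open Finset

lemma sieve_eps (η : ℝ) (hη : 0 < η) : ∃ (ε : ℝ) (B : ℕ), 0 < ε ∧ 1 ≤ B ∧ ∀ (N Q : ℕ), B ≤ N →
    B * Q^2 ≤ N → ∀ w : ℕ → ℝ, (∀ n, |w n| ≤ 1) → V (2*N) w ≤ ε * N →
    ∀ P : Finset ℕ, (∀ p ∈ P, p.Prime ∧ p ≤ Q) →
    ∑ p ∈ P, (E N (fun n => w n * ((if p ∣ n then (p:ℝ) else 0) - 1)))^2 / p ≤ η := by
  obtain ⟨H, hH⟩ : ∃ H : ℕ, 36 / η < H := exists_nat_gt _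
  have hH0 : (0:ℝ) < H := lt_trans (by positivity) hH
  have hH1 : 1 ≤ H := by exact_mod_cast Nat.one_le_iff_ne_zero.mpr (by rintro rfl; simp at hH0)
  obtain ⟨B, hB⟩ : ∃ B : ℕ, 48 * (H:ℝ)^2 / η + 24 / η + H < B := exists_nat_gt _
  have hB0 : (0:ℝ) < B := lt_trans (by positivity) hB
  have hB1 : 1 ≤ B := by exact_mod_cast Nat.one_le_iff_ne_zero.mpr (by rintro rfl; simp at hB0)
  refine ⟨η / (120 * H), B, by positivity, hB1, ?_⟩
  intro N Q hBN hBQ w hw hV P hP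
  have hN1 : 1 ≤ N := le_trans hB1 hBN
  have hN : (0:ℝ) < N := by exact_mod_cast hN1
  have hN1' : (1:ℝ) ≤ N := by exact_mod_cast hN1
  have hBN' : (B:ℝ) ≤ N := by exact_mod_cast hBN
  have hBQ' : (B:ℝ) * (Q:ℝ)^2 ≤ N := by exact_mod_cast hBQ
  have hHN : H ≤ N := by
    have h1 : (H:ℝ) < B := by
      have : 0 < 48 * (H:ℝ)^2 / η := by positivity
      have : 0 < 24 / η := by positivity
      linarith
    have h2 : (H:ℝ) ≤ N := by linarith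
    exact_mod_cast h2
  have hQ2 : (Q:ℝ)^2 ≤ N / B := by rw [le_div_iff₀ hB0]; linarith
  have hQN : (Q:ℝ) ≤ N := by
    have h1 : (Q:ℝ)^2 ≤ N := by
      refine hQ2.trans (div_le_self hN.le (by exact_mod_cast hB1))
    have h2 : Q ≤ Q^2 := Nat.le_self_pow (by norm_num) Q
    have h3 : (Q:ℝ) ≤ (Q:ℝ)^2 := by exact_mod_cast h2
    linarith
  have hQ2N : (Q:ℝ)^2 ≤ N := hQ2.trans (div_le_self hN.le (by exact_mod_cast hB1))
  refine (sieve_core P Q N H hP hH1 hN1 w hw).trans ?_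
  have hVV : V (N + H) w ≤ η / (120 * H) * N := (V_mono (by omega) w).trans hV
  have hV0 := V_nonneg (N + H) w
  rw [div_le_iff₀ (by positivity)]
  have t1 : (N:ℝ) * ((2 * N + Q) / H + 2 * (Q:ℝ)^2) ≤ N^2 * (3 / H + 2 / B) := by
    have : (2 * (N:ℝ) + Q) / H ≤ 3 * N / H := by gcongr; linarith
    calc (N:ℝ) * ((2 * N + Q) / H + 2 * (Q:ℝ)^2) ≤ N * (3 * N / H + 2 * (N / B)) := by gcongr
      _ = N^2 * (3 / H + 2 / B) := by ring
  have t2 : 2 * (H:ℝ) * V (N + H) w * (2 * N + Q + 2 * (Q:ℝ)^2) ≤ N^2 * (η / 12) := by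
    calc 2 * (H:ℝ) * V (N + H) w * (2 * N + Q + 2 * (Q:ℝ)^2)
        ≤ 2 * (H:ℝ) * (η / (120 * H) * N) * (2 * N + N + 2 * N) := by gcongr
      _ = N^2 * (η / 12) := by field_simp; ring
  have t3 : 4 * (H:ℝ)^2 * (Q:ℝ)^2 ≤ N^2 * (4 * H^2 / B) := by
    calc 4 * (H:ℝ)^2 * (Q:ℝ)^2 ≤ 4 * (H:ℝ)^2 * (N / B) := by gcongr
      _ = (N:ℝ) * (4 * (H:ℝ)^2 / B) := by ring
      _ ≤ (N:ℝ)^2 * (4 * (H:ℝ)^2 / B) := by
          apply mul_le_mul_of_nonneg_right _ (by positivity)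
          nlinarith
  have u1 : 3 / (H:ℝ) ≤ η / 12 := by
    rw [div_le_iff₀ hH0]
    have : 36 < η * H := by rw [div_lt_iff₀ hη] at hH; linarith
    linarith
  have hBη : 48 * (H:ℝ)^2 + 24 ≤ η * B := by
    have h1 : 48 * (H:ℝ)^2 / η + 24 / η < B := by linarith
    rw [← add_div, div_lt_iff₀ hη] at h1
    linarith
  have u2 : 2 / (B:ℝ) ≤ η / 12 := by
    rw [div_le_iff₀ hB0]; nlinarith
  have u3 : 4 * (H:ℝ)^2 / B ≤ η / 12 := by
    rw [div_le_iff₀ hB0]; nlinarith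
  have hN2 : (0:ℝ) ≤ (N:ℝ)^2 := by positivity
  nlinarith [mul_le_mul_of_nonneg_left u1 hN2, mul_le_mul_of_nonneg_left u2 hN2,
    mul_le_mul_of_nonneg_left u3 hN2]

lemma sieve_cube (η : ℝ) (hη : 0 < η) : ∃ (ε : ℝ) (N₀ : ℕ), 0 < ε ∧ 1 ≤ N₀ ∧ ∀ N : ℕ, N₀ ≤ N →
    ∀ w : ℕ → ℝ, (∀ n, |w n| ≤ 1) → V (2*N) w ≤ ε * N →
    ∀ P : Finset ℕ, (∀ p ∈ P, p.Prime ∧ p^3 ≤ N) →
    ∑ p ∈ P, (E N (fun n => w n * ((if p ∣ n then (p:ℝ) else 0) - 1)))^2 / p ≤ η := by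
  obtain ⟨ε, B, hε, hB, h⟩ := sieve_eps η hη
  refine ⟨ε, B^3, hε, Nat.one_le_pow _ _ hB, ?_⟩
  intro N hN w hw hV P hP
  rcases P.eq_empty_or_nonempty with rfl | hne
  · simp; exact hη.le
  · obtain ⟨q, hq, hmax⟩ := exists_max_image P id hne
    have hq3 := (hP q hq).2
    apply h N q _ _ w hw hV P (fun p hp => ⟨(hP p hp).1, hmax p hp⟩)
    · exact le_trans (Nat.le_self_pow (by norm_num) B) hN
    · rcases le_total B q with hBq | hBq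
      · calc B * q^2 ≤ q * q^2 := Nat.mul_le_mul_right _ hBq
          _ = q^3 := by ring
          _ ≤ N := hq3
      · calc B * q^2 ≤ B * B^2 := Nat.mul_le_mul_left _ (Nat.pow_le_pow_left hBq 2)
          _ = B^3 := by ring
          _ ≤ N := hN

lemma sum_inv_le (N : ℕ) : ∑ n ∈ Ioc 0 N, 1 / (n:ℝ) ≤ 2 * Real.sqrt N := by
  induction N with
  | zero => simp
  | succ k ih =>
    rw [sum_Ioc_succ_top (Nat.zero_le k)]
    have h1 : 1 / ((k+1 : ℕ):ℝ) ≤ 2 * Real.sqrt ((k+1:ℕ):ℝ) - 2 * Real.sqrt k := by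
      have hk : (0:ℝ) ≤ k := Nat.cast_nonneg k
      push_cast
      have s1 := Real.sq_sqrt hk
      have s2 := Real.sq_sqrt (by positivity : (0:ℝ) ≤ k + 1)
      have p1 := Real.sqrt_nonneg (k:ℝ)
      have p2 : 1 ≤ Real.sqrt ((k:ℝ) + 1) := by
        rw [Real.one_le_sqrt]; linarith
      have p3 : Real.sqrt (k:ℝ) ≤ Real.sqrt ((k:ℝ) + 1) := Real.sqrt_le_sqrt (by linarith)
      rw [div_le_iff₀ (by positivity)]
      set a := Real.sqrt (k:ℝ)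
      set b := Real.sqrt ((k:ℝ)+1)
      have e : (k:ℝ) + 1 = b^2 := s2.symm
      have e2 : b^2 - a^2 = 1 := by rw [s2, s1]; ring
      rw [e]
      have e3 : (b - a) * (b + a) = 1 := by nlinarith
      have e4 : (b - a) * (2 * b) ≥ 1 := by nlinarith
      nlinarith
    linarith

/-- the descents have density zero, in epsilon form -/
def SmallDesc (f : ℕ → ℝ) : Prop := ∀ ε : ℝ, 0 < ε → ∃ N₀ : ℕ, ∀ N : ℕ, N₀ ≤ N → (desc f N : ℝ) ≤ ε * N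

lemma var_small (f : ℕ → ℝ) (hf : SmallDesc f) (ε : ℝ) (hε : 0 < ε) (B : ℝ) (hB : 0 ≤ B) :
    ∃ N₀ : ℕ, ∀ N : ℕ, N₀ ≤ N → ∀ w : ℕ → ℝ, (∀ n, |w n| ≤ 1) →
      (∀ n, 1 ≤ n → ¬ (f (n + 1) < f n) → w n - B / n ≤ w (n + 1)) → V (2 * N) w ≤ ε * N := by
  obtain ⟨N₁, h1⟩ := hf (ε / 16) (by positivity)
  obtain ⟨N₂, h2⟩ : ∃ N₂ : ℕ, (16 / ε + (16 * B / ε)^2 * 2) < N₂ := exists_nat_gt _
  refine ⟨max N₁ (max N₂ 1), ?_⟩
  intro N hN w hw hmono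
  have hN1 : N₁ ≤ N := le_trans (le_max_left _ _) hN
  have hN2 : N₂ ≤ N := le_trans (le_trans (le_max_left _ _) (le_max_right _ _)) hN
  have hN3 : 1 ≤ N := le_trans (le_trans (le_max_right _ _) (le_max_right _ _)) hN
  have hV := var_bound f w (fun n => B / n) hw (fun n => by positivity) hmono (2 * N)
  have hd := h1 (2 * N) (by omega)
  have hs : ∑ n ∈ Ioc 0 (2 * N), B / (n:ℝ) ≤ B * (2 * Real.sqrt (2 * N)) := by
    have := sum_inv_le (2 * N)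
    have e : ∑ n ∈ Ioc 0 (2 * N), B / (n:ℝ) = B * ∑ n ∈ Ioc 0 (2 * N), 1 / (n:ℝ) := by
      rw [mul_sum]; apply sum_congr rfl; intro n _; ring
    rw [e]
    push_cast at this
    exact mul_le_mul_of_nonneg_left this hB
  have hNr : (16 / ε + (16 * B / ε)^2 * 2) ≤ N := by
    have : (N₂:ℝ) ≤ N := by exact_mod_cast hN2
    linarith
  have hNpos : (0:ℝ) < N := by exact_mod_cast hN3
  have k1 : 2 ≤ ε / 8 * N := by
    have : 16 / ε ≤ N := by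
      have : 0 ≤ (16 * B / ε)^2 * 2 := by positivity
      linarith
    rw [div_le_iff₀ hε] at this
    linarith
  have k2 : 4 * B * Real.sqrt (2 * N) ≤ ε / 4 * N := by
    have h3 : (16 * B / ε)^2 * 2 ≤ N := by
      have : 0 < 16 / ε := by positivity
      linarith
    have h4 : (16 * B)^2 * 2 ≤ ε^2 * N := by
      have e : (16 * B / ε)^2 * 2 = (16 * B)^2 * 2 / ε^2 := by field_simp
      rw [e, div_le_iff₀ (by positivity)] at h3
      linarith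
    have h5 : (4 * B * Real.sqrt (2 * N))^2 ≤ (ε / 4 * N)^2 := by
      rw [mul_pow, Real.sq_sqrt (by positivity)]
      have : (4 * B)^2 * (2 * N) * 16 ≤ ε^2 * N * N := by nlinarith
      nlinarith
    exact (abs_le_of_sq_le_sq' h5 (by positivity)).2
  push_cast at hd
  nlinarith

end Pool.Agent.helper76
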