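import Pool.Agent.helper76.TK
import Pool.Agent.helper76.L2Bound

/-! No spread on small scales. -/

namespace Pool.Agent.helper76

open Finset

lemma IsAdd.sub_log {f : ℕ → ℝ} (hf : IsAdd f) (b : ℝ) : IsAdd (fun n => f n - b * Real.log n) := by
  intro x y hx hy hxy
  have hx0 : (x:ℝ) ≠ 0 := by positivity
  have hy0 : (y:ℝ) ≠ 0 := by positivity
  simp only
  rw [hf x y hx hy hxy]
  push_cast
  rw [Real.log_mul hx0 hy0]
  ring

lemma E_small_n (y : ℕ) (hy : 1 ≤ y) (ρ : ℝ) (hρ : 0 ≤ ρ) :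
    E y (fun n => if (n:ℝ) < ρ * y then (1:ℝ) else 0) ≤ ρ := by
  classical
  have hyr : (0:ℝ) < y := by exact_mod_cast hy
  unfold E
  rw [div_le_iff₀ hyr, ← sum_filter, sum_const, nsmul_eq_mul, mul_one]
  have hsub : (Ioc 0 y).filter (fun n : ℕ => (n:ℝ) < ρ * y) ⊆ Ioc 0 ⌊ρ * y⌋₊ := by
    intro n hn
    rw [mem_filter, mem_Ioc] at hn
    rw [mem_Ioc]
    exact ⟨hn.1.1, Nat.le_floor hn.2.le⟩
  have h1 := card_le_card hsub
  rw [Nat.card_Ioc, Nat.sub_zero] at h1
  have h2 : (((Ioc 0 y).filter (fun n : ℕ => (n:ℝ) < ρ * y)).card : ℝ) ≤ ⌊ρ * y⌋₊ := by exact_mod_cast h1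
  exact h2.trans (Nat.floor_le (by positivity))

lemma no_spread_small (f : ℕ → ℝ) (hf : IsAdd f) (hd : SmallDesc f) :
    ∃ (δ T₀ Λ : ℝ), 0 < δ ∧ 1 ≤ T₀ ∧ 0 < Λ ∧
      ∀ (lam : ℝ) (c : ℕ → ℝ) (N : ℕ) (T : ℝ), Λ ≤ lam → T₀ ≤ T → Real.exp (20 * T) < N →
      (∀ M, 1 ≤ M → M < N → 3/4 ≤ prI f M (c M) lam) →
      ∀ y : ℕ, 1 ≤ y → Real.log y ≤ δ * T → ¬ Spread f y (1/16) lam := by
  classical
  obtain ⟨ϑ, K₁, hϑ, hK₁, htk⟩ := tk_conc (1/64) (by norm_num)
  obtain ⟨K₂, hK₂, hl2⟩ := l2_bound f hf hd ϑ hϑ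
  set K := max K₁ K₂ with hK
  have hK1 : 1 ≤ K := le_trans hK₁ (le_max_left _ _)
  have hKr : (1:ℝ) ≤ K := by exact_mod_cast hK1
  obtain ⟨k₀, hk₀⟩ := htk K (le_max_left _ _)
  set S := ∑ p ∈ range K, ∑ k ∈ range k₀, |f (p^k)| with hS
  have hS0 : 0 ≤ S := sum_nonneg fun _ _ => sum_nonneg fun _ _ => abs_nonneg _
  set γ := 1 / (80 * (K:ℝ)^2 * (k₀ + 1)) with hγ
  have hk₀r : (0:ℝ) ≤ k₀ := Nat.cast_nonneg _
  have hγ0 : 0 < γ := by positivity
  have hγ80 : γ ≤ 1/80 := by
    rw [hγ]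
    apply one_div_le_one_div_of_le (by norm_num)
    have : (1:ℝ) ≤ (K:ℝ)^2 := one_le_pow₀ hKr
    nlinarith
  obtain ⟨δ, T₀, Λ, hδ, hT₀, hΛ, h⟩ := hl2 γ hγ0
  refine ⟨δ, T₀, max Λ (32 * K * S), hδ, hT₀, lt_max_of_lt_left hΛ, ?_⟩
  intro lam c N T hlam hT hN hcen y hy hylog hspread
  have hlamΛ : Λ ≤ lam := (le_max_left _ _).trans hlam
  have hlamS : 32 * K * S ≤ lam := (le_max_right _ _).trans hlam
  have hlam0 : 0 < lam := lt_of_lt_of_le hΛ hlamΛ
  obtain ⟨b, hb, hsum⟩ := h lam c N T hlamΛ hT hN hcen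
  set g : ℕ → ℝ := fun n => f n - b * Real.log n with hg
  have hgadd : IsAdd g := hf.sub_log b
  have hsmall : ∀ p k : ℕ, p.Prime → p < K → 1 ≤ k → k < k₀ → |g (p^k)| ≤ lam / (16 * K) := by
    intro p k hp hpK _ hk
    have h1 : |f (p^k)| ≤ S := by
      calc |f (p^k)| ≤ ∑ k ∈ range k₀, |f (p^k)| :=
            single_le_sum (f := fun k => |f (p^k)|) (fun _ _ => abs_nonneg _) (mem_range.mpr hk)
        _ ≤ S := single_le_sum (f := fun p => ∑ k ∈ range k₀, |f (p^k)|)
            (fun _ _ => sum_nonneg fun _ _ => abs_nonneg _) (mem_range.mpr hpK)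
    have hp0 : (0:ℝ) < p := by exact_mod_cast hp.pos
    have hlogp0 : 0 ≤ Real.log p := Real.log_nonneg (by exact_mod_cast hp.one_lt.le)
    have hlogp : Real.log p ≤ K := by
      have h2 := Real.log_le_sub_one_of_pos hp0
      have h3 : (p:ℝ) ≤ K := by exact_mod_cast hpK.le
      linarith
    have e1 : g (p^k) = f (p^k) - b * (k * Real.log p) := by
      simp only [hg]
      push_cast
      rw [Real.log_pow]
    have hkr : (k:ℝ) ≤ k₀ + 1 := by
      have : (k:ℝ) ≤ k₀ := by exact_mod_cast hk.le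
      linarith
    have h4 : |b * (k * Real.log p)| ≤ lam / (80 * K) := by
      rw [abs_mul, abs_of_nonneg (by positivity : (0:ℝ) ≤ k * Real.log p)]
      calc |b| * (k * Real.log p) ≤ (γ * lam) * ((k₀ + 1) * K) := by gcongr
        _ = lam / (80 * K) := by rw [hγ]; field_simp
    have h5 : S ≤ lam / (32 * K) := by
      rw [le_div_iff₀ (by positivity)]; linarith
    rw [e1]
    have h6 : |f (p^k) - b * (k * Real.log p)| ≤ |f (p^k)| + |b * (k * Real.log p)| := abs_sub _ _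
    have h7 : lam / (80 * K) ≤ lam / (32 * K) := by
      apply div_le_div_of_nonneg_left hlam0.le (by positivity)
      linarith
    have h8 : lam / (32 * K) + lam / (32 * K) = lam / (16 * K) := by field_simp; norm_num
    linarith
  have hl : ∀ P : Finset ℕ, (∀ p ∈ P, p.Prime ∧ K ≤ p ∧ p ≤ y) →
      ∑ p ∈ P, (min 1 (|g p| / lam))^2 / (p:ℝ) ≤ ϑ := by
    intro P hP
    apply hsum P
    intro p hp
    obtain ⟨h1, h2, h3⟩ := hP p hp
    refine ⟨h1, le_trans (le_max_right _ _) h2, le_trans ?_ hylog⟩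
    exact Real.log_le_log (by exact_mod_cast h1.pos) (by exact_mod_cast h3)
  obtain ⟨A, hA⟩ := hk₀ g hgadd lam y hlam0 hy hsmall hl
  have hsn := E_small_n y hy (1/64) (by norm_num)
  obtain ⟨t, ht1, ht2⟩ := hspread
  set C := A + b * Real.log y with hC
  have hyr : (0:ℝ) < y := by exact_mod_cast hy
  have hlog64 : Real.log 64 ≤ 5 := by
    have h1 : Real.log 64 = 6 * Real.log 2 := by
      rw [show (64:ℝ) = 2^6 by norm_num, Real.log_pow]; norm_num
    have := Real.log_two_lt_d9; linarith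
  have hgood : ∀ n : ℕ, 1 ≤ n → n ≤ y → ¬ (lam / 4 < |g n - A|) → ¬ ((n:ℝ) < 1/64 * y) →
      |f n - C| ≤ 5 / 16 * lam := by
    intro n hn hny h1 h2
    have hn0 : (0:ℝ) < n := by exact_mod_cast hn
    have h1' := not_lt.mp h1
    have h2' := not_lt.mp h2
    have hnyr : (n:ℝ) ≤ y := by exact_mod_cast hny
    have h3 : Real.log y - Real.log n ≤ 5 := by
      rw [← Real.log_div hyr.ne' hn0.ne']
      refine le_trans (Real.log_le_log (by positivity) ?_) hlog64
      rw [div_le_iff₀ hn0]; linarith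
    have h4 : 0 ≤ Real.log y - Real.log n := by
      have := Real.log_le_log hn0 hnyr; linarith
    have e : f n - C = (g n - A) - b * (Real.log y - Real.log n) := by
      simp only [hg, hC]; ring
    have h5 : |b * (Real.log y - Real.log n)| ≤ lam / 16 := by
      rw [abs_mul, abs_of_nonneg h4]
      calc |b| * (Real.log y - Real.log n) ≤ (γ * lam) * 5 := by gcongr
        _ ≤ (1/80 * lam) * 5 := by gcongr
        _ = lam / 16 := by ring
    rw [e]
    have h6 := abs_sub (g n - A) (b * (Real.log y - Real.log n))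
    linarith
  have hbad : ∀ F : ℕ → ℝ, (∀ n, F n ≤ 1) → (∀ n : ℕ, 1 ≤ n → n ≤ y → |f n - C| ≤ 5 / 16 * lam → F n ≤ 0) →
      E y F ≤ 1/32 := by
    intro F hF1 hF0
    have h1 : E y F ≤ E y (fun n => (if lam / 4 < |g n - A| then (1:ℝ) else 0) +
        (if (n:ℝ) < 1/64 * y then (1:ℝ) else 0)) := by
      apply E_mono
      intro n hn hny
      by_cases c1 : lam / 4 < |g n - A|
      · rw [if_pos c1]
        have := hF1 n
        split_ifs <;> linarith
      · by_cases c2 : (n:ℝ) < 1/64 * y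
        · rw [if_neg c1, if_pos c2]
          have := hF1 n
          linarith
        · rw [if_neg c1, if_neg c2]
          have := hF0 n hn hny (hgood n hn hny c1 c2)
          linarith
    rw [E_add] at h1
    have hA' : E y (fun n => if lam / 4 < |g n - A| then (1:ℝ) else 0) ≤ 1/64 := by
      convert hA using 3
    linarith
  have hc1 : C - 5/16 * lam ≤ t := by
    by_contra hcon
    have hcon := not_le.mp hcon
    have := hbad (fun n => if f n ≤ t then (1:ℝ) else 0) (fun n => by split_ifs <;> norm_num)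
      (fun n _ _ hn => by
        have : ¬ (f n ≤ t) := by
          rw [abs_le] at hn
          intro h3; linarith [hn.1]
        rw [if_neg this])
    linarith
  have hc2 : t + lam ≤ C + 5/16 * lam := by
    by_contra hcon
    have hcon := not_le.mp hcon
    have := hbad (fun n => if t + lam ≤ f n then (1:ℝ) else 0) (fun n => by split_ifs <;> norm_num)
      (fun n _ _ hn => by
        have : ¬ (t + lam ≤ f n) := by
          rw [abs_le] at hn
          intro h3; linarith [hn.2]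
        rw [if_neg this])
    linarith
  linarith

end Pool.Agent.helper76
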