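import Pool.Agent.helper76.Fixed

/-! Interval probabilities, spread. -/

namespace Pool.Agent.helper76

open Finset

/-- proportion of `n ≤ N` with `f n ∈ [c, c+s]` -/
noncomputable def prI (f : ℕ → ℝ) (N : ℕ) (c s : ℝ) : ℝ :=
  E N (fun n => if c ≤ f n ∧ f n ≤ c + s then 1 else 0)

/-- the values of `f` on `1..N` are spread out by at least `s` at level `α` -/
def Spread (f : ℕ → ℝ) (N : ℕ) (α s : ℝ) : Prop :=
  ∃ t : ℝ, α ≤ E N (fun n => if f n ≤ t then 1 else 0) ∧
    α ≤ E N (fun n => if t + s ≤ f n then 1 else 0)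

lemma center_exists (f : ℕ → ℝ) (N : ℕ) (hN : 1 ≤ N) (α s : ℝ) (hα : 0 < α) (hα1 : α ≤ 1)
    (h : ¬ Spread f N α s) : ∃ c, 1 - 2 * α ≤ prI f N c s := by
  classical
  set T := (Ioc 0 N).filter (fun m => α ≤ E N (fun n => if f n ≤ f m then 1 else 0)) with hT
  have hne : (Ioc 0 N).Nonempty := ⟨1, by rw [mem_Ioc]; omega⟩
  have hTne : T.Nonempty := by
    obtain ⟨m, hm, hmax⟩ := exists_max_image (Ioc 0 N) f hne
    refine ⟨m, ?_⟩
    rw [hT, mem_filter]
    refine ⟨hm, ?_⟩
    have : E N (fun n => if f n ≤ f m then (1:ℝ) else 0) = E N (fun _ => (1:ℝ)) := by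
      apply E_congr
      intro n h1 h2
      rw [if_pos (hmax n (by rw [mem_Ioc]; omega))]
    rw [this, E_const N hN]; exact hα1
  obtain ⟨m0, hm0, hmin⟩ := exists_min_image T f hTne
  set t := f m0 with ht
  have hm0' := hm0
  rw [hT, mem_filter] at hm0'
  have hlt : E N (fun n => if f n < t then (1:ℝ) else 0) < α := by
    by_contra hcon
    have hcon := not_lt.mp hcon
    set U := (Ioc 0 N).filter (fun n => f n < t) with hU
    have hUne : U.Nonempty := by
      by_contra hemp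
      rw [not_nonempty_iff_eq_empty] at hemp
      have : E N (fun n => if f n < t then (1:ℝ) else 0) = 0 := by
        unfold E
        rw [← sum_filter]
        change (∑ n ∈ U, (1:ℝ)) / N = 0
        rw [hemp]; simp
      linarith
    obtain ⟨m1, hm1, hmax⟩ := exists_max_image U f hUne
    rw [hU, mem_filter] at hm1
    have hm1T : m1 ∈ T := by
      rw [hT, mem_filter]
      refine ⟨hm1.1, hcon.trans ?_⟩
      apply E_mono
      intro n h1 h2
      by_cases hlt : f n < t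
      · have := hmax n (by rw [hU, mem_filter, mem_Ioc]; exact ⟨⟨by omega, h2⟩, hlt⟩)
        rw [if_pos hlt, if_pos this]
      · rw [if_neg hlt]; split_ifs <;> norm_num
    have := hmin m1 hm1T
    linarith [hm1.2]
  have hge : E N (fun n => if t + s ≤ f n then (1:ℝ) else 0) < α := by
    by_contra hcon
    exact h ⟨t, hm0'.2, not_lt.mp hcon⟩
  refine ⟨t, ?_⟩
  have h1 : (1:ℝ) ≤ E N (fun n => if f n < t then (1:ℝ) else 0) + prI f N t s +
      E N (fun n => if t + s ≤ f n then (1:ℝ) else 0) := by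
    unfold prI
    rw [← E_add, ← E_add]
    refine (E_const N hN 1).symm.le.trans ?_
    apply E_mono
    intro n _ _
    by_cases c1 : f n < t
    · rw [if_pos c1]; split_ifs <;> norm_num
    · by_cases c2 : t + s ≤ f n
      · rw [if_pos c2]; split_ifs <;> norm_num
      · have : t ≤ f n ∧ f n ≤ t + s := ⟨not_lt.mp c1, (not_le.mp c2).le⟩
        rw [if_pos this]; split_ifs <;> norm_num
  linarith

lemma overlap (f : ℕ → ℝ) (N : ℕ) (c c' s : ℝ) (h : 1 < prI f N c s + prI f N c' s) : |c - c'| ≤ s := by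
  by_contra hcon
  have hN : 1 ≤ N := by
    rcases Nat.eq_zero_or_pos N with rfl | hN
    · simp [prI, E] at h; linarith
    · exact hN
  have : prI f N c s + prI f N c' s ≤ 1 := by
    unfold prI
    rw [← E_add]
    refine le_trans ?_ (E_const N hN 1).le
    apply E_mono
    intro n _ _
    by_cases c1 : c ≤ f n ∧ f n ≤ c + s
    · have c2 : ¬ (c' ≤ f n ∧ f n ≤ c' + s) := by
        rintro ⟨h3, h4⟩
        apply hcon
        rw [abs_le]; constructor <;> linarith [c1.1, c1.2]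
      rw [if_pos c1, if_neg c2]; norm_num
    · rw [if_neg c1]; split_ifs <;> norm_num
  linarith

lemma prI_le_one (f : ℕ → ℝ) (N : ℕ) (c s : ℝ) : prI f N c s ≤ 1 := by
  have := E_abs_le N (fun n => if c ≤ f n ∧ f n ≤ c + s then (1:ℝ) else 0) 1 (by norm_num)
    (fun n _ _ => by split_ifs <;> norm_num)
  exact (abs_le.mp this).2

lemma prI_eq (f : ℕ → ℝ) (N : ℕ) (c s : ℝ) (hs : 0 ≤ s) :
    prI f N c s = E N (fun n => (if c ≤ f n then (1:ℝ) else 0)) - E N (fun n => (if c + s < f n then (1:ℝ) else 0)) := by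
  rw [← E_sub]
  apply E_congr
  intro n _ _
  by_cases h1 : c ≤ f n
  · by_cases h2 : c + s < f n
    · rw [if_neg (fun h => absurd h.2 (not_le.mpr h2)), if_pos h1, if_pos h2]; norm_num
    · rw [if_pos ⟨h1, not_lt.mp h2⟩, if_pos h1, if_neg h2]; norm_num
  · have h2 : ¬ (c + s < f n) := by
      intro h; exact h1 (by linarith)
    rw [if_neg (fun h => h1 h.1), if_neg h1, if_neg h2]; norm_num

lemma mono_ge (c : ℝ) : Monotone (fun x : ℝ => if c ≤ x then (1:ℝ) else 0) := by
  intro x y hxy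
  simp only
  split_ifs with h1 h2
  · exact le_rfl
  · exact absurd (h1.trans hxy) h2
  · norm_num
  · exact le_rfl

lemma mono_gt (c : ℝ) : Monotone (fun x : ℝ => if c < x then (1:ℝ) else 0) := by
  intro x y hxy
  simp only
  split_ifs with h1 h2
  · exact le_rfl
  · exact absurd (lt_of_lt_of_le h1 hxy) h2
  · norm_num
  · exact le_rfl

lemma fixed_interval (f : ℕ → ℝ) (hf : IsAdd f) (hd : SmallDesc f) (a : ℕ) (ha : 1 ≤ a) (ρ : ℝ) (hρ : 0 < ρ) :
    ∃ N₀ : ℕ, ∀ N : ℕ, N₀ ≤ N → ∀ c s : ℝ, 0 ≤ s →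
      |prI f N c s - prI f (N / a) (c - f a) s| ≤ ρ := by
  obtain ⟨N₀, h⟩ := fixed_dilate f hf hd a ha (ρ / 2) (by positivity)
  refine ⟨N₀, fun N hN c s hs => ?_⟩
  have h1 := h N hN (fun x => if c ≤ x then (1:ℝ) else 0) (fun x => by split_ifs <;> norm_num) (mono_ge c)
  have h2 := h N hN (fun x => if c + s < x then (1:ℝ) else 0) (fun x => by split_ifs <;> norm_num) (mono_gt _)
  rw [prI_eq f N c s hs, prI_eq f (N / a) (c - f a) s hs]
  have e1 : E (N / a) (fun n => if c - f a ≤ f n then (1:ℝ) else 0) =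
      E (N / a) (fun m => if c ≤ f m + f a then (1:ℝ) else 0) := by
    apply E_congr; intro n _ _
    have : (c - f a ≤ f n) ↔ (c ≤ f n + f a) := by constructor <;> intro h <;> linarith
    simp only [this]
  have e2 : E (N / a) (fun n => if c - f a + s < f n then (1:ℝ) else 0) =
      E (N / a) (fun m => if c + s < f m + f a then (1:ℝ) else 0) := by
    apply E_congr; intro n _ _
    have : (c - f a + s < f n) ↔ (c + s < f n + f a) := by constructor <;> intro h <;> linarith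
    simp only [this]
  rw [e1, e2]
  rw [abs_le] at *
  constructor <;> linarith

lemma iter_interval (f : ℕ → ℝ) (hf : IsAdd f) (hd : SmallDesc f) (a : ℕ) (ha : 1 ≤ a) (k : ℕ) (ρ : ℝ) (hρ : 0 < ρ) :
    ∃ N₀ : ℕ, ∀ N : ℕ, N₀ ≤ N → ∀ c s : ℝ, 0 ≤ s →
      |prI f N c s - prI f (N / a^k) (c - k * f a) s| ≤ ρ := by
  induction k generalizing ρ with
  | zero => exact ⟨0, fun N _ c s _ => by simp; exact hρ.le⟩
  | succ k ih =>
    obtain ⟨N₁, h1⟩ := ih (ρ / 2) (by positivity)
    obtain ⟨N₂, h2⟩ := fixed_interval f hf hd a ha (ρ / 2) (by positivity)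
    refine ⟨max N₁ (a^k * N₂), fun N hN c s hs => ?_⟩
    have hN1 : N₁ ≤ N := le_trans (le_max_left _ _) hN
    have hN2 : a^k * N₂ ≤ N := le_trans (le_max_right _ _) hN
    have h3 := h1 N hN1 c s hs
    have h4 := h2 (N / a^k) (by rw [Nat.le_div_iff_mul_le (pow_pos (by omega) k)]; linarith) (c - k * f a) s hs
    have e1 : N / a^k / a = N / a^(k+1) := by rw [Nat.div_div_eq_div_mul, pow_succ]
    have e2 : c - k * f a - f a = c - ((k+1 : ℕ) : ℝ) * f a := by push_cast; ring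
    rw [e1, e2] at h4
    rw [abs_le] at *
    constructor <;> linarith

lemma E_close_aux (M M' : ℕ) (hM : 1 ≤ M) (hMM : M ≤ M') (g : ℕ → ℝ) (hg : ∀ n, |g n| ≤ 1) :
    |E M g - E M' g| ≤ 2 * ((M':ℝ) - M) / M' := by
  have hMr : (0:ℝ) < M := by exact_mod_cast hM
  have hMMr : (M:ℝ) ≤ M' := by exact_mod_cast hMM
  have hMr' : (0:ℝ) < M' := by linarith
  have hs : ∑ n ∈ Ioc 0 M', g n = ∑ n ∈ Ioc 0 M, g n + ∑ n ∈ Ioc M M', g n :=
    (Finset.sum_Ioc_consecutive g (Nat.zero_le _) hMM).symm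
  have h1 : |∑ n ∈ Ioc 0 M, g n| ≤ M := by
    refine (abs_sum_le_sum_abs _ _).trans ?_
    calc ∑ n ∈ Ioc 0 M, |g n| ≤ ∑ n ∈ Ioc 0 M, (1:ℝ) := sum_le_sum fun n _ => hg n
      _ = M := by simp
  have h2 : |∑ n ∈ Ioc M M', g n| ≤ M' - M := by
    refine (abs_sum_le_sum_abs _ _).trans ?_
    calc ∑ n ∈ Ioc M M', |g n| ≤ ∑ n ∈ Ioc M M', (1:ℝ) := sum_le_sum fun n _ => hg n
      _ = M' - M := by simp [Nat.cast_sub hMM]
  unfold E
  rw [hs]
  set A := ∑ n ∈ Ioc 0 M, g n
  set R := ∑ n ∈ Ioc M M', g n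
  have e : A / M - (A + R) / M' = (A * (M' - M) / M - R) / M' := by field_simp; ring
  rw [e, abs_div, abs_of_pos hMr']
  gcongr
  refine (abs_sub _ _).trans ?_
  have : |A * (M' - M) / M| ≤ M' - M := by
    rw [abs_div, abs_mul, abs_of_pos hMr, abs_of_nonneg (by linarith : (0:ℝ) ≤ (M':ℝ) - M), div_le_iff₀ hMr]
    nlinarith
  linarith

lemma E_close (M M' : ℕ) (hM : 1 ≤ M) (hM' : 1 ≤ M') (g : ℕ → ℝ) (hg : ∀ n, |g n| ≤ 1) :
    |E M g - E M' g| ≤ 2 * |Real.log M - Real.log M'| := by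
  have key : ∀ (M M' : ℕ), 1 ≤ M → M ≤ M' → |E M g - E M' g| ≤ 2 * |Real.log M - Real.log M'| := by
    intro M M' hM hMM
    refine (E_close_aux M M' hM hMM g hg).trans ?_
    have hMr : (0:ℝ) < M := by exact_mod_cast hM
    have hMMr : (M:ℝ) ≤ M' := by exact_mod_cast hMM
    have hMr' : (0:ℝ) < M' := by linarith
    rw [mul_div_assoc]
    apply mul_le_mul_of_nonneg_left _ (by norm_num)
    have h1 := Real.add_one_le_exp (Real.log M - Real.log M')
    rw [Real.exp_sub, Real.exp_log hMr, Real.exp_log hMr'] at h1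
    have h2 : ((M':ℝ) - M) / M' = 1 - M / M' := by field_simp
    rw [h2]
    have h3 := neg_abs_le (Real.log M - Real.log M')
    linarith
  rcases le_total M M' with h | h
  · exact key M M' hM h
  · have := key M' M hM' h
    rwa [abs_sub_comm (E M g), abs_sub_comm (Real.log M)]

end Pool.Agent.helper76
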