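import Pool.Agent.helper76.Dilate

/-! Turan-Kubilius type concentration. -/

namespace Pool.Agent.helper76

open Finset

lemma IsAdd.one {g : ℕ → ℝ} (hg : IsAdd g) : g 1 = 0 := by
  have := hg 1 1 le_rfl le_rfl (by norm_num)
  simp at this; linarith

lemma IsAdd.factorization {g : ℕ → ℝ} (hg : IsAdd g) {n : ℕ} (hn : n ≠ 0) :
    g n = ∑ p ∈ n.primeFactors, g (p ^ n.factorization p) := by
  have hg1 : g 1 = 0 := hg.one
  have key := Nat.multiplicative_factorization (β := Multiplicative ℝ) (fun n => Multiplicative.ofAdd (g n))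
    (by
      intro x y hxy
      rcases Nat.eq_zero_or_pos x with rfl | hx
      · have : y = 1 := by simpa using hxy
        subst this
        simp [hg1]
      · rcases Nat.eq_zero_or_pos y with rfl | hy
        · have : x = 1 := by simpa using hxy
          subst this
          simp [hg1]
        · rw [hg x y hx hy hxy]; rfl)
    (by rw [hg1]; rfl) hn
  rw [Finsupp.prod, Nat.support_factorization] at key
  have h2 := congrArg Multiplicative.toAdd key
  rw [toAdd_prod] at h2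
  exact h2

lemma E_dvd_sum (y : ℕ) (hy : 1 ≤ y) (D : Finset ℕ) (e : ℕ → ℕ) (he : ∀ p ∈ D, 1 ≤ e p) :
    E y (fun n => ∑ p ∈ D, (if e p ∣ n then (1:ℝ) else 0)) ≤ ∑ p ∈ D, 1 / (e p : ℝ) := by
  unfold E
  have hyr : (0:ℝ) < y := by exact_mod_cast hy
  rw [sum_comm, sum_div]
  apply sum_le_sum
  intro p hp
  rw [← sum_filter, sum_const, card_multiples, nsmul_eq_mul, mul_one]
  have h1 : ((y / e p : ℕ) : ℝ) ≤ y / e p := Nat.cast_div_le
  have h2 : (0:ℝ) < e p := by exact_mod_cast he p hp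
  rw [div_le_iff₀ hyr]
  calc ((y / e p : ℕ) : ℝ) ≤ y / e p := h1
    _ = 1 / (e p : ℝ) * y := by ring

lemma E_sq_small (y : ℕ) (hy : 1 ≤ y) (P : Finset ℕ) (g : ℕ → ℝ) (hP : ∀ p ∈ P, p.Prime ∧ p^2 ≤ y) :
    E y (fun n => (∑ p ∈ P, (if p ∣ n then g p else 0) - ∑ p ∈ P, g p / p)^2) ≤ 5 * ∑ p ∈ P, (g p)^2 / p := by
  set Q := Nat.sqrt y with hQ
  have hQy : Q^2 ≤ y := by rw [hQ, sq]; exact Nat.sqrt_le y
  have hPQ : ∀ p ∈ P, p.Prime ∧ p ≤ Q := by
    intro p hp
    refine ⟨(hP p hp).1, ?_⟩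
    rw [hQ, Nat.le_sqrt']; exact (hP p hp).2
  have hm := moment P Q y 1 0 hPQ le_rfl (fun p => g p / p)
  have hyr : (0:ℝ) < y := by exact_mod_cast hy
  unfold E
  rw [div_le_iff₀ hyr]
  have e1 : ∀ n ∈ Ioc 0 y, (∑ p ∈ P, (if p ∣ n then g p else 0) - ∑ p ∈ P, g p / p)^2 =
      (∑ p ∈ P, g p / p * gw p 1 0 n)^2 := by
    intro n _
    congr 1
    rw [← sum_sub_distrib]
    apply sum_congr rfl
    intro p hp
    have hp0 : (p:ℝ) ≠ 0 := by exact_mod_cast (hP p hp).1.pos.ne'
    simp only [gw, range_one, sum_singleton, Nat.cast_one, div_one, add_zero]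
    split_ifs <;> field_simp
    ring
  rw [sum_congr rfl e1]
  refine hm.trans ?_
  have e2 : ∑ p ∈ P, (p:ℝ) * (g p / p)^2 = ∑ p ∈ P, (g p)^2 / p := by
    apply sum_congr rfl
    intro p hp
    have hp0 : (p:ℝ) ≠ 0 := by exact_mod_cast (hP p hp).1.pos.ne'
    field_simp
  rw [e2]
  have h0 : 0 ≤ ∑ p ∈ P, (g p)^2 / (p:ℝ) := sum_nonneg fun p _ => by positivity
  have hQr : (Q:ℝ)^2 ≤ y := by exact_mod_cast hQy
  have hQr2 : (Q:ℝ) ≤ y := by
    have : Q ≤ Q^2 := Nat.le_self_pow (by norm_num) Q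
    exact_mod_cast this.trans hQy
  have h1 : (2 * (y:ℝ) + Q) / ((1:ℕ):ℝ) + 2 * (Q:ℝ)^2 ≤ 5 * y := by
    rw [Nat.cast_one, div_one]; linarith
  calc (∑ p ∈ P, (g p)^2 / (p:ℝ)) * ((2 * (y:ℝ) + Q) / ((1:ℕ):ℝ) + 2 * (Q:ℝ)^2)
      ≤ (∑ p ∈ P, (g p)^2 / (p:ℝ)) * (5 * y) := by gcongr
    _ = _ := by ring

lemma E_sq_large (y : ℕ) (hy : 1 ≤ y) (P : Finset ℕ) (g : ℕ → ℝ) (hP : ∀ p ∈ P, p.Prime ∧ y < p^2) :
    E y (fun n => (∑ p ∈ P, (if p ∣ n then g p else 0))^2) ≤ ∑ p ∈ P, (g p)^2 / p := by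
  have hyr : (0:ℝ) < y := by exact_mod_cast hy
  have h1 : ∀ n, 1 ≤ n → n ≤ y → (∑ p ∈ P, (if p ∣ n then g p else 0))^2 ≤
      ∑ p ∈ P, (g p)^2 * (if p ∣ n then (1:ℝ) else 0) := by
    intro n hn1 hny
    have hcard : (P.filter (fun p => p ∣ n)).card ≤ 1 := by
      rw [card_le_one]
      intro p hp q hq
      rw [mem_filter] at hp hq
      by_contra hne
      have hcop : Nat.Coprime p q := (Nat.coprime_primes (hP p hp.1).1 (hP q hq.1).1).mpr hne
      have hdvd : p * q ∣ n := hcop.mul_dvd_of_dvd_of_dvd hp.2 hq.2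
      have hle : p * q ≤ y := (Nat.le_of_dvd (by omega) hdvd).trans hny
      have h3 := (hP p hp.1).2
      have h4 := (hP q hq.1).2
      rcases le_total p q with h | h
      · nlinarith
      · nlinarith
    have e1 : ∑ p ∈ P, (if p ∣ n then g p else 0) = ∑ p ∈ P.filter (fun p => p ∣ n), g p := by rw [sum_filter]
    have e2 : ∑ p ∈ P, (g p)^2 * (if p ∣ n then (1:ℝ) else 0) = ∑ p ∈ P.filter (fun p => p ∣ n), (g p)^2 := by
      rw [sum_filter]; apply sum_congr rfl; intro p _; split_ifs <;> ring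
    rw [e1, e2]
    refine sq_sum_le_card_mul_sum_sq.trans ?_
    have h0 : 0 ≤ ∑ p ∈ P.filter (fun p => p ∣ n), (g p)^2 := sum_nonneg fun _ _ => sq_nonneg _
    have hc : ((P.filter (fun p => p ∣ n)).card : ℝ) ≤ 1 := by exact_mod_cast hcard
    nlinarith
  refine (E_mono y _ _ h1).trans ?_
  unfold E
  rw [sum_comm, sum_div]
  apply sum_le_sum
  intro p hp
  have hp0 : (0:ℝ) < p := by exact_mod_cast (hP p hp).1.pos
  rw [← mul_sum, ← sum_filter, sum_const, card_multiples, nsmul_eq_mul, mul_one, div_le_iff₀ hyr]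
  have h2 : ((y / p : ℕ) : ℝ) ≤ y / p := Nat.cast_div_le
  calc (g p)^2 * ((y / p : ℕ) : ℝ) ≤ (g p)^2 * (y / p) := by gcongr
    _ = _ := by ring

/-- Concentration of an additive function with small truncated variance. -/
lemma tk_conc (α : ℝ) (hα : 0 < α) : ∃ (ϑ : ℝ) (K₁ : ℕ), 0 < ϑ ∧ 1 ≤ K₁ ∧ ∀ K, K₁ ≤ K → ∃ k₀ : ℕ,
    ∀ (g : ℕ → ℝ), IsAdd g → ∀ (lam : ℝ) (y : ℕ), 0 < lam → 1 ≤ y →
    (∀ p k : ℕ, p.Prime → p < K → 1 ≤ k → k < k₀ → |g (p^k)| ≤ lam / (16 * K)) →
    (∀ P : Finset ℕ, (∀ p ∈ P, p.Prime ∧ K ≤ p ∧ p ≤ y) → ∑ p ∈ P, (min 1 (|g p| / lam))^2 / (p:ℝ) ≤ ϑ) →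
    ∃ A, E y (fun n => by classical exact if lam / 4 < |g n - A| then (1:ℝ) else 0) ≤ α := by
  classical
  obtain ⟨K₁, hK₁⟩ : ∃ K₁ : ℕ, 16 / α < K₁ := exists_nat_gt _
  have hK₁0 : (0:ℝ) < K₁ := lt_trans (by positivity) hK₁
  refine ⟨α / 10240, K₁, by positivity, by exact_mod_cast hK₁0, ?_⟩
  intro K hK
  have hKr : (K₁:ℝ) ≤ K := by exact_mod_cast hK
  have hK0 : (0:ℝ) < K := by linarith
  have hK1 : 1 ≤ K := by exact_mod_cast hK0
  obtain ⟨k₀, hk₀⟩ : ∃ k₀ : ℕ, 8 * K / α < 2^k₀ := pow_unbounded_of_one_lt _ (by norm_num)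
  refine ⟨k₀, ?_⟩
  intro g hg lam y hlam hy hsmall hl2
  set Pb := (Ioc 0 y).filter (fun p => p.Prime ∧ K ≤ p ∧ lam < |g p|) with hPb
  set P1 := (Ioc 0 y).filter (fun p => p.Prime ∧ K ≤ p ∧ |g p| ≤ lam ∧ p^2 ≤ y) with hP1
  set P2 := (Ioc 0 y).filter (fun p => p.Prime ∧ K ≤ p ∧ |g p| ≤ lam ∧ y < p^2) with hP2
  set S1 : ℕ → ℝ := fun n => ∑ p ∈ P1, (if p ∣ n then g p else 0) with hS1
  set S2 : ℕ → ℝ := fun n => ∑ p ∈ P2, (if p ∣ n then g p else 0) with hS2
  set A := ∑ p ∈ P1, g p / p with hA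
  refine ⟨A, ?_⟩
  set F2 : ℕ → ℝ := fun n => ∑ p ∈ (Ioc 0 y).filter (fun p => K ≤ p), (if p^2 ∣ n then (1:ℝ) else 0) with hF2
  set F3 : ℕ → ℝ := fun n => ∑ p ∈ (range K).filter Nat.Prime, (if p^k₀ ∣ n then (1:ℝ) else 0) with hF3
  set F4 : ℕ → ℝ := fun n => ∑ p ∈ Pb, (if p ∣ n then (1:ℝ) else 0) with hF4
  set F5 : ℕ → ℝ := fun n => (256 / lam^2) * (S1 n - A)^2 with hF5
  set F6 : ℕ → ℝ := fun n => (256 / lam^2) * (S2 n)^2 with hF6
  have hF2n : ∀ n, 0 ≤ F2 n := fun n => sum_nonneg fun _ _ => by split_ifs <;> norm_num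
  have hF3n : ∀ n, 0 ≤ F3 n := fun n => sum_nonneg fun _ _ => by split_ifs <;> norm_num
  have hF4n : ∀ n, 0 ≤ F4 n := fun n => sum_nonneg fun _ _ => by split_ifs <;> norm_num
  have hF5n : ∀ n, 0 ≤ F5 n := fun n => by positivity
  have hF6n : ∀ n, 0 ≤ F6 n := fun n => by positivity
  -- pointwise bound
  have hpoint : ∀ n, 1 ≤ n → n ≤ y → (if lam / 4 < |g n - A| then (1:ℝ) else 0) ≤
      F2 n + (F3 n + (F4 n + (F5 n + F6 n))) := by
    intro n hn1 hny
    split_ifs with hbig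
    swap
    · have := hF2n n; have := hF3n n; have := hF4n n; have := hF5n n; have := hF6n n; linarith
    by_contra hcon
    have hcon := not_le.mp hcon
    have g2 := hF2n n; have g3 := hF3n n; have g4 := hF4n n; have g5 := hF5n n; have g6 := hF6n n
    -- no square
    have n2 : ∀ p, p.Prime → K ≤ p → ¬ p^2 ∣ n := by
      intro p hp hKp hdvd
      have hpy : p ≤ y := by
        have : p^2 ≤ n := Nat.le_of_dvd (by omega) hdvd
        have h2 := Nat.le_self_pow (by norm_num : 2 ≠ 0) p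
        omega
      have : (1:ℝ) ≤ F2 n := by
        have hmem : p ∈ (Ioc 0 y).filter (fun p => K ≤ p) := by
          rw [mem_filter, mem_Ioc]; exact ⟨⟨hp.pos, hpy⟩, hKp⟩
        have := single_le_sum (f := fun p => (if p^2 ∣ n then (1:ℝ) else 0)) (fun _ _ => by split_ifs <;> norm_num) hmem
        simp only [if_pos hdvd] at this
        exact this
      linarith only [this, hcon, g2, g3, g4, g5, g6]
    have n3 : ∀ p, p.Prime → p < K → ¬ p^k₀ ∣ n := by
      intro p hp hKp hdvd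
      have : (1:ℝ) ≤ F3 n := by
        have hmem : p ∈ (range K).filter Nat.Prime := by
          rw [mem_filter, mem_range]; exact ⟨hKp, hp⟩
        have := single_le_sum (f := fun p => (if p^k₀ ∣ n then (1:ℝ) else 0)) (fun _ _ => by split_ifs <;> norm_num) hmem
        simp only [if_pos hdvd] at this
        exact this
      linarith only [this, hcon, g2, g3, g4, g5, g6]
    have n4 : ∀ p, p.Prime → K ≤ p → p ∣ n → |g p| ≤ lam := by
      intro p hp hKp hdvd
      by_contra hgp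
      have : (1:ℝ) ≤ F4 n := by
        have hmem : p ∈ Pb := by
          rw [hPb, mem_filter, mem_Ioc]
          exact ⟨⟨hp.pos, (Nat.le_of_dvd (by omega) hdvd).trans hny⟩, hp, hKp, not_le.mp hgp⟩
        have := single_le_sum (f := fun p => (if p ∣ n then (1:ℝ) else 0)) (fun _ _ => by split_ifs <;> norm_num) hmem
        simp only [if_pos hdvd] at this
        exact this
      linarith only [this, hcon, g2, g3, g4, g5, g6]
    have hlam2 : 0 < lam^2 := by positivity
    have n5 : |S1 n - A| ≤ lam / 16 := by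
      by_contra hc
      have hc := not_le.mp hc
      have : (1:ℝ) ≤ F5 n := by
        simp only [hF5]
        rw [div_mul_eq_mul_div, le_div_iff₀ hlam2, one_mul, ← sq_abs (S1 n - A)]
        have : (lam / 16)^2 ≤ |S1 n - A|^2 := by gcongr
        linarith only [this]
      linarith only [this, hcon, g2, g3, g4, g5, g6]
    have n6 : |S2 n| ≤ lam / 16 := by
      by_contra hc
      have hc := not_le.mp hc
      have : (1:ℝ) ≤ F6 n := by
        simp only [hF6]
        rw [div_mul_eq_mul_div, le_div_iff₀ hlam2, one_mul, ← sq_abs (S2 n)]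
        have : (lam / 16)^2 ≤ |S2 n|^2 := by gcongr
        linarith only [this]
      linarith only [this, hcon, g2, g3, g4, g5, g6]
    -- decomposition of g n
    have hn0 : n ≠ 0 := by omega
    have hdec := hg.factorization hn0
    rw [← sum_filter_add_sum_filter_not n.primeFactors (fun p => p < K)] at hdec
    have hs : |∑ p ∈ n.primeFactors.filter (fun p => p < K), g (p ^ n.factorization p)| ≤ lam / 16 := by
      refine (abs_sum_le_sum_abs _ _).trans ?_
      have h1 : ∀ p ∈ n.primeFactors.filter (fun p => p < K), |g (p ^ n.factorization p)| ≤ lam / (16 * K) := by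
        intro p hp
        rw [mem_filter, Nat.mem_primeFactors] at hp
        obtain ⟨⟨hpp, hpn, _⟩, hpK⟩ := hp
        apply hsmall p _ hpp hpK
        · exact (Nat.Prime.dvd_iff_one_le_factorization hpp hn0).mp hpn
        · by_contra hk
          exact n3 p hpp hpK ((Nat.Prime.pow_dvd_iff_le_factorization hpp hn0).mpr (not_lt.mp hk))
      refine (sum_le_sum h1).trans ?_
      rw [sum_const, nsmul_eq_mul]
      have hcard : ((n.primeFactors.filter (fun p => p < K)).card : ℝ) ≤ K := by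
        have : n.primeFactors.filter (fun p => p < K) ⊆ range K := by
          intro p hp; rw [mem_filter] at hp; rw [mem_range]; exact hp.2
        have := card_le_card this
        rw [card_range] at this
        exact_mod_cast this
      calc ((n.primeFactors.filter (fun p => p < K)).card : ℝ) * (lam / (16 * K)) ≤ K * (lam / (16 * K)) := by gcongr
        _ = lam / 16 := by field_simp
    have hl : ∑ p ∈ n.primeFactors.filter (fun p => ¬ p < K), g (p ^ n.factorization p) = S1 n + S2 n := by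
      have e1 : ∀ p ∈ n.primeFactors.filter (fun p => ¬ p < K), g (p ^ n.factorization p) = g p := by
        intro p hp
        rw [mem_filter, Nat.mem_primeFactors] at hp
        obtain ⟨⟨hpp, hpn, _⟩, hpK⟩ := hp
        have h1 : 1 ≤ n.factorization p := (Nat.Prime.dvd_iff_one_le_factorization hpp hn0).mp hpn
        have h2 : ¬ 2 ≤ n.factorization p := by
          intro h
          exact n2 p hpp (not_lt.mp hpK) ((Nat.Prime.pow_dvd_iff_le_factorization hpp hn0).mpr h)
        have h3 : n.factorization p = 1 := by omega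
        rw [h3, pow_one]
      rw [sum_congr rfl e1]
      simp only [hS1, hS2]
      rw [← sum_filter, ← sum_filter]
      have hdisj : Disjoint (P1.filter (fun p => p ∣ n)) (P2.filter (fun p => p ∣ n)) := by
        rw [Finset.disjoint_left]
        intro p hp hp'
        rw [mem_filter, hP1, mem_filter] at hp
        rw [mem_filter, hP2, mem_filter] at hp'
        have := hp.1.2.2.2.2; have := hp'.1.2.2.2.2
        omega
      rw [← sum_union hdisj]
      apply sum_congr _ (fun _ _ => rfl)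
      ext p
      simp only [hP1, hP2, mem_filter, mem_union, Nat.mem_primeFactors, mem_Ioc]
      constructor
      · rintro ⟨⟨hpp, hpn, _⟩, hpK⟩
        have hpy : p ≤ y := (Nat.le_of_dvd (by omega) hpn).trans hny
        have hgp := n4 p hpp (not_lt.mp hpK) hpn
        rcases le_or_gt (p^2) y with h | h
        · left; exact ⟨⟨⟨hpp.pos, hpy⟩, hpp, not_lt.mp hpK, hgp, h⟩, hpn⟩
        · right; exact ⟨⟨⟨hpp.pos, hpy⟩, hpp, not_lt.mp hpK, hgp, h⟩, hpn⟩
      · rintro (⟨⟨_, hpp, hpK, _, _⟩, hpn⟩ | ⟨⟨_, hpp, hpK, _, _⟩, hpn⟩)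
        · exact ⟨⟨hpp, hpn, hn0⟩, not_lt.mpr hpK⟩
        · exact ⟨⟨hpp, hpn, hn0⟩, not_lt.mpr hpK⟩
    rw [hl] at hdec
    have hfin : |g n - A| ≤ lam / 4 := by
      rw [hdec]
      rw [abs_le] at hs n5 n6 ⊢
      constructor
      · linarith only [hs.1, n5.1, n6.1, hlam]
      · linarith only [hs.2, n5.2, n6.2, hlam]
    linarith only [hfin, hbig]
  refine (E_mono y _ _ hpoint).trans ?_
  rw [E_add, E_add, E_add, E_add]
  -- individual bounds
  have b2 : E y F2 ≤ α / 8 := by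
    refine (E_dvd_sum y hy _ (fun p => p^2) (fun p hp => ?_)).trans ?_
    · rw [mem_filter, mem_Ioc] at hp; exact Nat.one_le_pow _ _ hp.1.1
    · have := sum_inv_sq_tail ((Ioc 0 y).filter (fun p => K ≤ p)) K hK1 (fun p hp => (mem_filter.mp hp).2)
      push_cast
      refine this.trans ?_
      rw [div_le_iff₀ hK0]
      rw [div_lt_iff₀ hα] at hK₁
      nlinarith
  have b3 : E y F3 ≤ α / 8 := by
    refine (E_dvd_sum y hy _ (fun p => p^k₀) (fun p hp => ?_)).trans ?_
    · rw [mem_filter] at hp; exact Nat.one_le_pow _ _ hp.2.pos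
    · have h1 : ∀ p ∈ (range K).filter Nat.Prime, 1 / ((p^k₀ : ℕ) : ℝ) ≤ 1 / 2^k₀ := by
        intro p hp
        rw [mem_filter] at hp
        have : (2:ℝ) ≤ p := by exact_mod_cast hp.2.two_le
        push_cast
        gcongr
      refine (sum_le_sum h1).trans ?_
      rw [sum_const, nsmul_eq_mul]
      have hcard : (((range K).filter Nat.Prime).card : ℝ) ≤ K := by
        have := card_filter_le (range K) Nat.Prime
        rw [card_range] at this
        exact_mod_cast this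
      have h2k : (0:ℝ) < 2^k₀ := by positivity
      calc (((range K).filter Nat.Prime).card : ℝ) * (1 / 2^k₀) ≤ K * (1 / 2^k₀) := by gcongr
        _ ≤ α / 8 := by
          rw [mul_one_div, div_le_iff₀ h2k]
          rw [div_lt_iff₀ hα] at hk₀
          linarith
  have b4 : E y F4 ≤ α / 8 := by
    refine (E_dvd_sum y hy _ (fun p => p) (fun p hp => ?_)).trans ?_
    · rw [hPb, mem_filter, mem_Ioc] at hp; exact hp.1.1
    · have h1 := hl2 Pb (fun p hp => by
        rw [hPb, mem_filter, mem_Ioc] at hp; exact ⟨hp.2.1, hp.2.2.1, hp.1.2⟩)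
      have h2 : ∀ p ∈ Pb, 1 / (p:ℝ) = (min 1 (|g p| / lam))^2 / (p:ℝ) := by
        intro p hp
        rw [hPb, mem_filter] at hp
        have : 1 ≤ |g p| / lam := by rw [le_div_iff₀ hlam, one_mul]; exact hp.2.2.2.le
        rw [min_eq_left this]; norm_num
      rw [sum_congr rfl h2]
      linarith
  have hsq : ∀ p, |g p| ≤ lam → (g p)^2 = lam^2 * (min 1 (|g p| / lam))^2 := by
    intro p hp
    have : |g p| / lam ≤ 1 := by rw [div_le_iff₀ hlam, one_mul]; exact hp
    rw [min_eq_right this, div_pow, sq_abs]; field_simp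
  have b5 : E y F5 ≤ α / 8 := by
    rw [hF5, E_smul]
    have h1 := E_sq_small y hy P1 g (fun p hp => by
      rw [hP1, mem_filter] at hp; exact ⟨hp.2.1, hp.2.2.2.2⟩)
    have h2 := hl2 P1 (fun p hp => by
      rw [hP1, mem_filter, mem_Ioc] at hp; exact ⟨hp.2.1, hp.2.2.1, hp.1.2⟩)
    have h3 : ∑ p ∈ P1, (g p)^2 / (p:ℝ) = lam^2 * ∑ p ∈ P1, (min 1 (|g p| / lam))^2 / (p:ℝ) := by
      rw [mul_sum]; apply sum_congr rfl; intro p hp
      rw [hP1, mem_filter] at hp
      rw [hsq p hp.2.2.2.1]; ring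
    rw [h3] at h1
    have hlam2 : 0 < lam^2 := by positivity
    calc 256 / lam^2 * E y (fun n => (S1 n - A)^2)
        ≤ 256 / lam^2 * (5 * (lam^2 * (α / 10240))) := by
          apply mul_le_mul_of_nonneg_left _ (by positivity)
          refine h1.trans ?_
          gcongr
      _ = α / 8 := by field_simp; ring
  have b6 : E y F6 ≤ α / 8 := by
    rw [hF6, E_smul]
    have h1 := E_sq_large y hy P2 g (fun p hp => by
      rw [hP2, mem_filter] at hp; exact ⟨hp.2.1, hp.2.2.2.2⟩)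
    have h2 := hl2 P2 (fun p hp => by
      rw [hP2, mem_filter, mem_Ioc] at hp; exact ⟨hp.2.1, hp.2.2.1, hp.1.2⟩)
    have h3 : ∑ p ∈ P2, (g p)^2 / (p:ℝ) = lam^2 * ∑ p ∈ P2, (min 1 (|g p| / lam))^2 / (p:ℝ) := by
      rw [mul_sum]; apply sum_congr rfl; intro p hp
      rw [hP2, mem_filter] at hp
      rw [hsq p hp.2.2.2.1]; ring
    rw [h3] at h1
    have hlam2 : 0 < lam^2 := by positivity
    calc 256 / lam^2 * E y (fun n => (S2 n)^2)
        ≤ 256 / lam^2 * (lam^2 * (α / 10240)) := by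
          apply mul_le_mul_of_nonneg_left _ (by positivity)
          refine h1.trans ?_
          gcongr
      _ = α / 40 := by field_simp; ring
      _ ≤ α / 8 := by linarith
  linarith only [b2, b3, b4, b5, b6, hα]

end Pool.Agent.helper76
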